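import Mathlib

/-!
# Creation operators over a product state: definitions

Configurations `x : Λ → Fin d` on a finite set of sites `Λ`, `g : Fin d` the ground label.
-/

set_option autoImplicit false

namespace Pool.Agent.KTP

open Matrix

variable {Λ : Type} [Fintype Λ] [DecidableEq Λ] {d : ℕ}

/-- The number of excited sites. -/
def sz (g : Fin d) (x : Λ → Fin d) : ℕ := (Finset.univ.filter fun v => x v ≠ g).card

/-- The configuration `y` put on top of `x`. -/
def jn (g : Fin d) (x y : Λ → Fin d) : Λ → Fin d := fun v => if y v = g then x v else y v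

/-- `x` and `y` are excited at different sites. -/
def Dis (g : Fin d) (x y : Λ → Fin d) : Prop := ∀ v, x v = g ∨ y v = g

open Classical in
/-- The creation operator of `y`: `e_x ↦ e_{jn x y}` if `x`, `y` are disjoint, else `0`. -/
noncomputable def Cr (g : Fin d) (y : Λ → Fin d) : Matrix (Λ → Fin d) (Λ → Fin d) ℂ :=
  fun z x => if Dis g x y ∧ z = jn g x y then 1 else 0

/-- `∑ t_y S_y`. -/
noncomputable def cre (g : Fin d) (t : (Λ → Fin d) → ℂ) : Matrix (Λ → Fin d) (Λ → Fin d) ℂ :=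
  ∑ y, t y • Cr g y

/-- Weighted column sums of `M` are at most `c` times the weight. -/
def Bd (g : Fin d) (a c : ℝ) (M : Matrix (Λ → Fin d) (Λ → Fin d) ℂ) : Prop :=
  ∀ x, ∑ z, a ^ (sz g z) * ‖M z x‖ ≤ c * a ^ (sz g x)

/-- The energy of a configuration. -/
def En (e : Fin d → ℝ) (x : Λ → Fin d) : ℝ := ∑ v, e (x v)

/-- The diagonal Hamiltonian. -/
noncomputable def nn (e : Fin d → ℝ) : Matrix (Λ → Fin d) (Λ → Fin d) ℂ :=
  Matrix.diagonal fun x => ((En e x : ℝ) : ℂ)

/-- The norm of the Banach space of the fixed point argument. -/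
noncomputable def nrm (g : Fin d) (t : (Λ → Fin d) → ℂ) : ℝ :=
  (∑ y, (sz g y : ℝ) * ‖t y‖) / (Fintype.card Λ)

/-- Translates. -/
def sh [AddCommGroup Λ] (w : Λ) (x : Λ → Fin d) : Λ → Fin d := fun u => x (u - w)

/-- Translation invariant functions of the configuration. -/
def Inv [AddCommGroup Λ] (t : (Λ → Fin d) → ℂ) : Prop := ∀ w x, t (sh w x) = t x

/-- A translation covariant family of local operators. -/
structure LocFam [AddCommGroup Λ] (g : Fin d) (W : Λ → Matrix (Λ → Fin d) (Λ → Fin d) ℂ)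
    (Bx : Λ → Finset Λ) (b : ℕ) (K : ℝ) : Prop where
  card : ∀ v, (Bx v).card ≤ b
  touch : ∀ u, (Finset.univ.filter fun v => u ∈ Bx v).card ≤ b
  comm : ∀ v y, (∀ u ∈ Bx v, y u = g) → Commute (W v) (Cr g y)
  bd : ∀ v, ∀ a : ℝ, 0 < a → a ≤ 1 → Bd g a (K * (a⁻¹) ^ b) (W v)
  cov : ∀ v w x y, W (v + w) (sh w x) (sh w y) = W v x y

open Classical in
/-- The part of `t` touching `B`. -/
noncomputable def tch (g : Fin d) (B : Finset Λ) (t : (Λ → Fin d) → ℂ) : (Λ → Fin d) → ℂ :=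
  fun y => if ∃ u ∈ B, y u ≠ g then t y else 0

/-- `exp(-T) M exp(T)`, `T = ∑ t_y S_y`. -/
noncomputable def cj (g : Fin d) (t : (Λ → Fin d) → ℂ)
    (M : Matrix (Λ → Fin d) (Λ → Fin d) ℂ) : Matrix (Λ → Fin d) (Λ → Fin d) ℂ :=
  NormedSpace.exp (-(cre g t)) * M * NormedSpace.exp (cre g t)

/-- The vacuum. -/
def vac (g : Fin d) : Λ → Fin d := fun _ => g

/-- `t` solves the equation of the ground state `exp(T) e_vac` of `nn e + ∑ W v`. -/
def Sol (g : Fin d) (e : Fin d → ℝ) (W : Λ → Matrix (Λ → Fin d) (Λ → Fin d) ℂ)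
    (t : (Λ → Fin d) → ℂ) : Prop :=
  ∀ y, y ≠ vac g → ((En e y : ℝ) : ℂ) * t y + ∑ v, cj g t (W v) y (vac g) = 0

/-- The energy. -/
noncomputable def gE (g : Fin d) (W : Λ → Matrix (Λ → Fin d) (Λ → Fin d) ℂ)
    (t : (Λ → Fin d) → ℂ) : ℂ := ∑ v, cj g t (W v) (vac g) (vac g)

end Pool.Agent.KTP
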