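import Mathlib
import Pool.Agent.KTP.Df

/-!
# Module Bda: weighted column sums of products, sums and exponentials
`Bd.exp`: `exp T = ∑ (k!)⁻¹ T^k` entrywise (`NormedSpace.expSeries_hasSum_exp'` or
`NormedSpace.exp_eq_tsum`, topology of matrices = product topology); partial sums have
`Bd (∑ c^k/k!) ≤ exp c`; pass to the limit in the finite sum over `z`.
-/

set_option autoImplicit false

namespace Pool.Agent.KTP

open Matrix

variable {Λ : Type} [Fintype Λ] [DecidableEq Λ] {d : ℕ} {g : Fin d}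
variable {M N T : Matrix (Λ → Fin d) (Λ → Fin d) ℂ} {a c c' : ℝ}

theorem Bd.mono (ha : 0 < a) (h : Bd g a c M) (hc : c ≤ c') : Bd g a c' M := fun x =>
  (h x).trans (mul_le_mul_of_nonneg_right hc (pow_nonneg ha.le _))

theorem Bd.add (h : Bd g a c M) (h' : Bd g a c' N) (ha : 0 < a) : Bd g a (c + c') (M + N) := by
  intro x
  calc ∑ z, a ^ (sz g z) * ‖(M + N) z x‖
      ≤ ∑ z, (a ^ (sz g z) * ‖M z x‖ + a ^ (sz g z) * ‖N z x‖) := by
        refine Finset.sum_le_sum fun z _ => ?_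
        rw [← mul_add]
        exact mul_le_mul_of_nonneg_left (norm_add_le _ _) (pow_nonneg ha.le _)
    _ = ∑ z, a ^ (sz g z) * ‖M z x‖ + ∑ z, a ^ (sz g z) * ‖N z x‖ := Finset.sum_add_distrib
    _ ≤ c * a ^ (sz g x) + c' * a ^ (sz g x) := add_le_add (h x) (h' x)
    _ = (c + c') * a ^ (sz g x) := by ring

theorem Bd.neg (h : Bd g a c M) : Bd g a c (-M) := by
  intro x
  have h1 : ∑ z, a ^ (sz g z) * ‖(-M) z x‖ = ∑ z, a ^ (sz g z) * ‖M z x‖ := by
    refine Finset.sum_congr rfl fun z _ => ?_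
    rw [Matrix.neg_apply, norm_neg]
  rw [h1]
  exact h x

theorem Bd.sub (h : Bd g a c M) (h' : Bd g a c' N) (ha : 0 < a) : Bd g a (c + c') (M - N) := by
  rw [sub_eq_add_neg]
  exact h.add h'.neg ha

theorem Bd.smul (h : Bd g a c M) (u : ℂ) : Bd g a (‖u‖ * c) (u • M) := by
  intro x
  have h1 : ∑ z, a ^ (sz g z) * ‖(u • M) z x‖ = ‖u‖ * ∑ z, a ^ (sz g z) * ‖M z x‖ := by
    rw [Finset.mul_sum]
    refine Finset.sum_congr rfl fun z _ => ?_
    rw [Matrix.smul_apply, norm_smul]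
    ring
  rw [h1, mul_assoc]
  exact mul_le_mul_of_nonneg_left (h x) (norm_nonneg _)

theorem Bd.one (ha : 0 < a) : Bd g a 1 (1 : Matrix (Λ → Fin d) (Λ → Fin d) ℂ) := by
  intro x
  have h1 : ∑ z, a ^ (sz g z) * ‖(1 : Matrix (Λ → Fin d) (Λ → Fin d) ℂ) z x‖
      = a ^ (sz g x) := by
    rw [Finset.sum_eq_single x]
    · rw [Matrix.one_apply_eq, norm_one, mul_one]
    · intro z _ hz
      rw [Matrix.one_apply_ne hz, norm_zero, mul_zero]
    · intro hx
      exact absurd (Finset.mem_univ x) hx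
  rw [h1, one_mul]

theorem Bd.mul (ha : 0 < a) (hc : 0 ≤ c) (h : Bd g a c M) (h' : Bd g a c' N) :
    Bd g a (c * c') (M * N) := by
  intro x
  calc ∑ z, a ^ (sz g z) * ‖(M * N) z x‖
      ≤ ∑ z, ∑ y, a ^ (sz g z) * (‖M z y‖ * ‖N y x‖) := by
        refine Finset.sum_le_sum fun z _ => ?_
        rw [← Finset.mul_sum]
        refine mul_le_mul_of_nonneg_left ?_ (pow_nonneg ha.le _)
        rw [Matrix.mul_apply]
        refine (norm_sum_le _ _).trans (le_of_eq ?_)
        exact Finset.sum_congr rfl fun y _ => norm_mul _ _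
    _ = ∑ y, (∑ z, a ^ (sz g z) * ‖M z y‖) * ‖N y x‖ := by
        rw [Finset.sum_comm]
        refine Finset.sum_congr rfl fun y _ => ?_
        rw [Finset.sum_mul]
        exact Finset.sum_congr rfl fun z _ => by ring
    _ ≤ ∑ y, (c * a ^ (sz g y)) * ‖N y x‖ :=
        Finset.sum_le_sum fun y _ => mul_le_mul_of_nonneg_right (h y) (norm_nonneg _)
    _ = c * ∑ y, a ^ (sz g y) * ‖N y x‖ := by
        rw [Finset.mul_sum]
        exact Finset.sum_congr rfl fun y _ => by ring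
    _ ≤ c * (c' * a ^ (sz g x)) := mul_le_mul_of_nonneg_left (h' x) hc
    _ = c * c' * a ^ (sz g x) := by ring

theorem Bd.pow (ha : 0 < a) (hc : 0 ≤ c) (h : Bd g a c M) (k : ℕ) : Bd g a (c ^ k) (M ^ k) := by
  induction k with
  | zero =>
    rw [pow_zero, pow_zero]
    exact Bd.one ha
  | succ k ih =>
    rw [pow_succ, pow_succ]
    exact Bd.mul ha (pow_nonneg hc k) ih h

theorem Bd.sum {κ : Type} (s : Finset κ) (F : κ → Matrix (Λ → Fin d) (Λ → Fin d) ℂ) (f : κ → ℝ)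
    (ha : 0 < a) (h : ∀ i ∈ s, Bd g a (f i) (F i)) : Bd g a (∑ i ∈ s, f i) (∑ i ∈ s, F i) := by
  classical
  induction s using Finset.induction_on with
  | empty =>
    intro x
    simp
  | insert i s hi ih =>
    rw [Finset.sum_insert hi, Finset.sum_insert hi]
    exact Bd.add (h i (Finset.mem_insert_self i s))
      (ih fun j hj => h j (Finset.mem_insert_of_mem hj)) ha

/-- The exponential series of a matrix, entrywise topology. -/
theorem exp_hasSum_aux (T : Matrix (Λ → Fin d) (Λ → Fin d) ℂ) :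
    HasSum (fun k : ℕ => ((k.factorial : ℂ))⁻¹ • T ^ k) (NormedSpace.exp T) := by
  letI : SeminormedRing (Matrix (Λ → Fin d) (Λ → Fin d) ℂ) := Matrix.linftyOpSemiNormedRing
  letI : NormedRing (Matrix (Λ → Fin d) (Λ → Fin d) ℂ) := Matrix.linftyOpNormedRing
  letI : NormedAlgebra ℂ (Matrix (Λ → Fin d) (Λ → Fin d) ℂ) := Matrix.linftyOpNormedAlgebra
  exact NormedSpace.exp_series_hasSum_exp' (𝕂 := ℂ) T

theorem Bd.lim {F : ℕ → Matrix (Λ → Fin d) (Λ → Fin d) ℂ} {L : Matrix (Λ → Fin d) (Λ → Fin d) ℂ}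
    (hF : Filter.Tendsto F Filter.atTop (nhds L)) (hb : ∀ n, Bd g a c (F n)) : Bd g a c L := by
  intro x
  have h1 : Continuous fun M : Matrix (Λ → Fin d) (Λ → Fin d) ℂ =>
      ∑ z, a ^ (sz g z) * ‖M z x‖ := by
    refine continuous_finset_sum _ fun z _ => ?_
    exact continuous_const.mul (continuous_norm.comp (continuous_id.matrix_elem z x))
  exact le_of_tendsto ((h1.tendsto L).comp hF) (Filter.Eventually.of_forall fun n => hb n x)

theorem Bd.exp (ha : 0 < a) (hc : 0 ≤ c) (h : Bd g a c T) :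
    Bd g a (Real.exp c) (NormedSpace.exp T) := by
  refine Bd.lim (exp_hasSum_aux T).tendsto_sum_nat fun n => ?_
  have h1 : Bd g a (∑ k ∈ Finset.range n, ‖((k.factorial : ℂ))⁻¹‖ * c ^ k)
      (∑ k ∈ Finset.range n, ((k.factorial : ℂ))⁻¹ • T ^ k) :=
    Bd.sum _ _ _ ha fun k _ => (h.pow ha hc k).smul _
  refine h1.mono ha ?_
  refine le_trans (le_of_eq ?_) (Real.sum_le_exp_of_nonneg hc n)
  refine Finset.sum_congr rfl fun k _ => ?_
  rw [norm_inv, Complex.norm_natCast]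
  ring

theorem Bd.exp_sub_one (ha : 0 < a) (hc : 0 ≤ c) (h : Bd g a c T) :
    Bd g a (Real.exp c - 1) (NormedSpace.exp T - 1) := by
  have h0 : Filter.Tendsto (fun n => ∑ k ∈ Finset.range n, ((k + 1).factorial : ℂ)⁻¹ • T ^ (k + 1))
      Filter.atTop (nhds (NormedSpace.exp T - 1)) := by
    have h1 := (exp_hasSum_aux T).tendsto_sum_nat
    have h2 := ((Filter.tendsto_add_atTop_iff_nat 1).2 h1).sub_const 1
    refine h2.congr fun n => ?_
    rw [Finset.sum_range_succ']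
    simp
  refine Bd.lim h0 fun n => ?_
  have h1 : Bd g a (∑ k ∈ Finset.range n, ‖(((k + 1).factorial : ℂ))⁻¹‖ * c ^ (k + 1))
      (∑ k ∈ Finset.range n, (((k + 1).factorial : ℂ))⁻¹ • T ^ (k + 1)) :=
    Bd.sum _ _ _ ha fun k _ => (h.pow ha hc (k + 1)).smul _
  refine h1.mono ha ?_
  have h2 := Real.sum_le_exp_of_nonneg hc (n + 1)
  rw [Finset.sum_range_succ'] at h2
  have h3 : ∑ k ∈ Finset.range n, ‖(((k + 1).factorial : ℂ))⁻¹‖ * c ^ (k + 1)
      = ∑ k ∈ Finset.range n, c ^ (k + 1) / ((k + 1).factorial : ℝ) := by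
    refine Finset.sum_congr rfl fun k _ => ?_
    rw [norm_inv, Complex.norm_natCast]
    ring
  rw [h3]
  simp at h2
  linarith

end Pool.Agent.KTP
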