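import Mathlib
import Pool.Agent.KTP.Df

/-!
# Module Cra: algebra of creation operators (elementary, entrywise)
-/

set_option autoImplicit false
set_option linter.unusedSectionVars false

namespace Pool.Agent.KTP

open Matrix

variable {Λ : Type} [Fintype Λ] [DecidableEq Λ] {d : ℕ} (g : Fin d)

private theorem sz_sum (x : Λ → Fin d) : sz g x = ∑ v, if x v ≠ g then 1 else 0 := by
  rw [sz, Finset.card_filter]

theorem sz_vac : sz g (vac g : Λ → Fin d) = 0 := by
  simp [sz, vac]

theorem sz_pos {y : Λ → Fin d} (hy : y ≠ vac g) : 1 ≤ sz g y := by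
  obtain ⟨v, hv⟩ := Function.ne_iff.1 hy
  exact Finset.card_pos.2 ⟨v, Finset.mem_filter.2 ⟨Finset.mem_univ v, hv⟩⟩

theorem sz_jn {x y : Λ → Fin d} (h : Dis g x y) : sz g (jn g x y) = sz g x + sz g y := by
  rw [sz_sum, sz_sum, sz_sum, ← Finset.sum_add_distrib]
  refine Finset.sum_congr rfl fun v _ => ?_
  rcases h v with h1 | h1
  · by_cases h2 : y v = g <;> simp [jn, h1, h2]
  · simp [jn, h1]

theorem En_vac {e : Fin d → ℝ} (he : e g = 0) : En e (vac g : Λ → Fin d) = 0 := by
  simp [En, vac, he]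

theorem En_jn {e : Fin d → ℝ} (he : e g = 0) {x y : Λ → Fin d} (h : Dis g x y) :
    En e (jn g x y) = En e x + En e y := by
  rw [En, En, En, ← Finset.sum_add_distrib]
  refine Finset.sum_congr rfl fun v _ => ?_
  rcases h v with h1 | h1
  · by_cases h2 : y v = g <;> simp [jn, h1, h2, he]
  · simp [jn, h1, he]

theorem En_ge {e : Fin d → ℝ} {δ : ℝ} (he : e g = 0) (hd : ∀ i, i ≠ g → δ ≤ e i)
    (x : Λ → Fin d) : δ * (sz g x : ℝ) ≤ En e x := by
  rw [sz_sum, En]
  push_cast
  rw [Finset.mul_sum]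
  refine Finset.sum_le_sum fun v _ => ?_
  by_cases h : x v = g
  · simp [h, he]
  · simpa [h] using hd _ h

private theorem mul_cr (M : Matrix (Λ → Fin d) (Λ → Fin d) ℂ) (y w x : Λ → Fin d) [Decidable (Dis g x y)] :
    (M * Cr g y) w x = if Dis g x y then M w (jn g x y) else 0 := by
  classical
  rw [Matrix.mul_apply]
  split_ifs with h
  · rw [Finset.sum_eq_single (jn g x y)]
    · simp [Cr, h]
    · intro u _ hu
      simp [Cr, hu]
    · intro hn
      exact absurd (Finset.mem_univ _) hn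
  · refine Finset.sum_eq_zero fun u _ => ?_
    simp [Cr, h]

private theorem dis_comm {x y z : Λ → Fin d} (h : Dis g x z ∧ Dis g (jn g x z) y) :
    (Dis g x y ∧ Dis g (jn g x y) z) ∧ jn g (jn g x z) y = jn g (jn g x y) z := by
  obtain ⟨h1, h2⟩ := h
  have h3 : ∀ v, (x v = g ∨ y v = g) ∧ (jn g x y v = g ∨ z v = g) ∧
      jn g (jn g x z) y v = jn g (jn g x y) z v := by
    intro v
    have a1 := h1 v
    have a2 := h2 v
    simp only [jn] at a2 ⊢
    by_cases hx : x v = g <;> by_cases hy : y v = g <;> by_cases hz : z v = g <;>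
      simp_all
  exact ⟨⟨fun v => (h3 v).1, fun v => (h3 v).2.1⟩, funext fun v => (h3 v).2.2⟩

/-- Both products are `S_{jn y z}` if `y`, `z` are disjoint and `0` otherwise. -/
theorem cr_comm (y z : Λ → Fin d) : Commute (Cr g y) (Cr g z) := by
  classical
  rw [Commute, SemiconjBy]
  ext w x
  rw [mul_cr, mul_cr]
  by_cases h : Dis g x z ∧ Dis g (jn g x z) y
  · obtain ⟨⟨h1, h2⟩, h3⟩ := dis_comm g h
    rw [if_pos h.1, if_pos h1]
    simp only [Cr, h.2, h2, h3, true_and]
  · have h' : ¬ (Dis g x y ∧ Dis g (jn g x y) z) := fun h' => h (dis_comm g h').1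
    have e1 : (if Dis g x z then Cr g y w (jn g x z) else 0) = 0 := by
      split_ifs with h4
      · have : ¬ Dis g (jn g x z) y := fun h5 => h ⟨h4, h5⟩
        simp [Cr, this]
      · rfl
    have e2 : (if Dis g x y then Cr g z w (jn g x y) else 0) = 0 := by
      split_ifs with h4
      · have : ¬ Dis g (jn g x y) z := fun h5 => h' ⟨h4, h5⟩
        simp [Cr, this]
      · rfl
    rw [e1, e2]

theorem cre_cr (t : (Λ → Fin d) → ℂ) (y : Λ → Fin d) : Commute (cre g t) (Cr g y) :=
  Commute.sum_left _ _ _ fun z _ => (cr_comm g z y).smul_left _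

theorem cre_comm (t t' : (Λ → Fin d) → ℂ) : Commute (cre g t) (cre g t') :=
  Commute.sum_right _ _ _ fun z _ => (cre_cr g t z).smul_right _

private theorem dis_vac (y : Λ → Fin d) : Dis g (vac g) y := fun _ => Or.inl rfl

private theorem jn_vac (y : Λ → Fin d) : jn g (vac g) y = y := by
  funext v
  by_cases h : y v = g <;> simp [jn, vac, h]

theorem cr_vac (y z : Λ → Fin d) : Cr g y z (vac g) = if z = y then 1 else 0 := by
  classical
  simp only [Cr, dis_vac, jn_vac, true_and]

theorem cre_vac (t : (Λ → Fin d) → ℂ) (z : Λ → Fin d) : cre g t z (vac g) = t z := by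
  classical
  rw [cre, Matrix.sum_apply]
  simp only [Matrix.smul_apply, cr_vac, smul_eq_mul, mul_ite, mul_one, mul_zero]
  rw [Finset.sum_ite_eq]
  simp

/-- `M S_x e_vac = M e_x`. -/
theorem mul_cr_vac (M : Matrix (Λ → Fin d) (Λ → Fin d) ℂ) (x z : Λ → Fin d) :
    (M * Cr g x) z (vac g) = M z x := by
  classical
  rw [mul_cr, if_pos (dis_vac g x), jn_vac]

theorem cre_add (t t' : (Λ → Fin d) → ℂ) : cre g (t + t') = cre g t + cre g t' := by
  simp only [cre, Pi.add_apply, add_smul, Finset.sum_add_distrib]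

theorem cre_sub (t t' : (Λ → Fin d) → ℂ) : cre g (t - t') = cre g t - cre g t' := by
  simp only [cre, Pi.sub_apply, sub_smul, Finset.sum_sub_distrib]

/-- Column `x` of `S_y` has at most one entry, at `jn x y`, of weight `a^(sz x + sz y)`. -/
theorem cr_bd {a : ℝ} (ha : 0 < a) (y : Λ → Fin d) : Bd g a (a ^ (sz g y)) (Cr g y) := by
  classical
  intro x
  by_cases h : Dis g x y
  · rw [Finset.sum_eq_single (jn g x y)]
    · rw [sz_jn g h, pow_add]
      simp [Cr, h, mul_comm]
    · intro u _ hu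
      simp [Cr, hu]
    · intro hn
      exact absurd (Finset.mem_univ _) hn
  · rw [Finset.sum_eq_zero fun u _ => by simp [Cr, h]]
    positivity

theorem cre_bd {a : ℝ} (ha : 0 < a) (ha1 : a ≤ 1) (t : (Λ → Fin d) → ℂ) :
    Bd g a (∑ y, ‖t y‖) (cre g t) := by
  intro x
  calc ∑ z, a ^ (sz g z) * ‖cre g t z x‖
      ≤ ∑ z, ∑ y, ‖t y‖ * (a ^ (sz g z) * ‖Cr g y z x‖) := by
        refine Finset.sum_le_sum fun z _ => ?_
        rw [cre, Matrix.sum_apply]
        calc a ^ (sz g z) * ‖∑ y, (t y • Cr g y) z x‖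
            ≤ a ^ (sz g z) * ∑ y, ‖(t y • Cr g y) z x‖ :=
              mul_le_mul_of_nonneg_left (norm_sum_le _ _) (by positivity)
          _ = ∑ y, ‖t y‖ * (a ^ (sz g z) * ‖Cr g y z x‖) := by
              rw [Finset.mul_sum]
              refine Finset.sum_congr rfl fun y _ => ?_
              rw [Matrix.smul_apply, norm_smul]
              ring
    _ = ∑ y, ‖t y‖ * ∑ z, a ^ (sz g z) * ‖Cr g y z x‖ := by
        rw [Finset.sum_comm]
        refine Finset.sum_congr rfl fun y _ => ?_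
        rw [Finset.mul_sum]
    _ ≤ ∑ y, ‖t y‖ * a ^ (sz g x) := by
        refine Finset.sum_le_sum fun y _ => ?_
        refine mul_le_mul_of_nonneg_left ?_ (norm_nonneg _)
        refine (cr_bd g ha y x).trans ?_
        have h1 : a ^ (sz g y) ≤ 1 := pow_le_one₀ ha.le ha1
        have h2 : 0 ≤ a ^ (sz g x) := by positivity
        nlinarith
    _ = (∑ y, ‖t y‖) * a ^ (sz g x) := by rw [Finset.sum_mul]

theorem nn_cr {e : Fin d → ℝ} (he : e g = 0) (y : Λ → Fin d) :
    nn e * Cr g y = Cr g y * nn e + ((En e y : ℝ) : ℂ) • Cr g y := by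
  classical
  ext z x
  rw [nn, Matrix.diagonal_mul, Matrix.add_apply, Matrix.mul_diagonal, Matrix.smul_apply,
    smul_eq_mul]
  by_cases h : Dis g x y ∧ z = jn g x y
  · obtain ⟨h1, h2⟩ := h
    subst h2
    rw [En_jn g he h1]
    push_cast
    ring
  · have : Cr g y z x = 0 := by
      rw [Cr, if_neg h]
    rw [this]
    ring

theorem nn_cre {e : Fin d → ℝ} (he : e g = 0) (t : (Λ → Fin d) → ℂ) :
    nn e * cre g t = cre g t * nn e + cre g (fun y => ((En e y : ℝ) : ℂ) * t y) := by
  simp only [cre]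
  rw [Finset.mul_sum, Finset.sum_mul, ← Finset.sum_add_distrib]
  refine Finset.sum_congr rfl fun y _ => ?_
  rw [Matrix.mul_smul, nn_cr g he, Matrix.smul_mul, smul_add, smul_smul, mul_comm (t y)]

theorem nn_vac {e : Fin d → ℝ} (he : e g = 0) (z : Λ → Fin d) :
    (nn e : Matrix (Λ → Fin d) (Λ → Fin d) ℂ) z (vac g) = 0 := by
  rw [nn, Matrix.diagonal_apply]
  split_ifs with h
  · rw [h, En_vac g he]
    simp
  · rfl

end Pool.Agent.KTP
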