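import Mathlib
import Pool.Agent.KTP.Df

/-!
# Module Iva: translation invariance
`sh w` is a bijection of configurations (inverse `sh (-w)`). `tch_le`: `‖tch B t y‖ ≤ ∑_{u ∈ B, y u ≠ g} ‖t y‖`
and `∑_{y : y u ≠ g} ‖t y‖` does not depend on `u`, and its sum over `u` is `∑ sz y ‖t y‖`.
`cj_sh`: the matrix `M` with `M (sh w x) (sh w y)` is a reindexing (algebra automorphism, commutes with exp).
-/

set_option autoImplicit false

namespace Pool.Agent.KTP

open Matrix

variable {Λ : Type} [Fintype Λ] [DecidableEq Λ] [AddCommGroup Λ] {d : ℕ} {g : Fin d}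
variable {W : Λ → Matrix (Λ → Fin d) (Λ → Fin d) ℂ} {Bx : Λ → Finset Λ} {b : ℕ} {K : ℝ}

omit [Fintype Λ] [DecidableEq Λ] in
theorem sh_vac (w : Λ) : sh w (vac g : Λ → Fin d) = vac g := rfl

omit [DecidableEq Λ] in
theorem sz_sh (w : Λ) (x : Λ → Fin d) : sz g (sh w x) = sz g x := by
  unfold sz sh
  rw [Finset.card_filter, Finset.card_filter]
  exact Equiv.sum_comp (Equiv.subRight w) (fun v => if x v ≠ g then 1 else 0)

omit [DecidableEq Λ] in
theorem En_sh (e : Fin d → ℝ) (w : Λ) (x : Λ → Fin d) : En e (sh w x) = En e x :=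
  Equiv.sum_comp (Equiv.subRight w) (fun v => e (x v))

/-- translation of configurations as a bijection -/
private def shE (w : Λ) : (Λ → Fin d) ≃ (Λ → Fin d) where
  toFun := sh w
  invFun := sh (-w)
  left_inv x := by
    funext u
    simp [sh]
  right_inv x := by
    funext u
    simp [sh]

omit [Fintype Λ] [DecidableEq Λ] in
private theorem shE_apply (w : Λ) (x : Λ → Fin d) : shE w x = sh w x := rfl

theorem tch_le {t : (Λ → Fin d) → ℂ} (ht : Inv t) (B : Finset Λ) :
    ∑ y, ‖tch g B t y‖ ≤ (B.card : ℝ) * nrm g t := by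
  classical
  set f : Λ → ℝ := fun u => ∑ y : Λ → Fin d, if y u ≠ g then ‖t y‖ else 0 with hf
  have hf0 : ∀ u, f u = f 0 := by
    intro u
    have h1 := Equiv.sum_comp (shE (d := d) u) (fun y => if y u ≠ g then ‖t y‖ else 0)
    rw [hf]
    refine h1.symm.trans (Finset.sum_congr rfl fun y _ => ?_)
    simp only [shE_apply, ht u y]
    simp [sh]
  have hsum : ∑ u, f u = ∑ y, (sz g y : ℝ) * ‖t y‖ := by
    rw [hf, Finset.sum_comm]
    refine Finset.sum_congr rfl fun y _ => ?_
    rw [← Finset.sum_filter, Finset.sum_const, nsmul_eq_mul, sz]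
  have hcard : (0 : ℝ) < Fintype.card Λ := by
    have : 0 < Fintype.card Λ := Fintype.card_pos_iff.2 ⟨0⟩
    exact_mod_cast this
  have hnrm : f 0 = nrm g t := by
    rw [nrm, ← hsum, Finset.sum_congr rfl fun u _ => hf0 u, Finset.sum_const, nsmul_eq_mul,
      Finset.card_univ, mul_div_cancel_left₀ _ hcard.ne']
  have hle : ∀ y, ‖tch g B t y‖ ≤ ∑ u ∈ B, if y u ≠ g then ‖t y‖ else 0 := by
    intro y
    unfold tch
    have hnn : ∀ u ∈ B, 0 ≤ if y u ≠ g then ‖t y‖ else 0 := by
      intro u _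
      split_ifs
      · exact norm_nonneg _
      · exact le_rfl
    split_ifs with h
    · obtain ⟨u, hu, hy⟩ := h
      calc ‖t y‖ = if y u ≠ g then ‖t y‖ else 0 := by rw [if_pos hy]
        _ ≤ _ := Finset.single_le_sum (f := fun u => if y u ≠ g then ‖t y‖ else 0) hnn hu
    · rw [norm_zero]
      exact Finset.sum_nonneg hnn
  calc ∑ y, ‖tch g B t y‖ ≤ ∑ y, ∑ u ∈ B, (if y u ≠ g then ‖t y‖ else 0) :=
        Finset.sum_le_sum fun y _ => hle y
    _ = ∑ u ∈ B, f u := Finset.sum_comm
    _ = (B.card : ℝ) * nrm g t := by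
        rw [Finset.sum_congr rfl fun u _ => hf0 u, Finset.sum_const, nsmul_eq_mul, hnrm]

set_option backward.isDefEq.respectTransparency false in
private theorem exp_sub {X : Type} [Fintype X] [DecidableEq X] (e : X ≃ X) (M : Matrix X X ℂ) :
    (NormedSpace.exp M).submatrix e e = NormedSpace.exp (M.submatrix e e) := by
  open scoped Matrix.Norms.Operator in
  exact NormedSpace.map_exp (Matrix.reindexAlgEquiv ℂ ℂ e.symm)
    (by
      refine continuous_matrix fun i j => ?_
      exact (continuous_id.matrix_elem (e i) (e j))) M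

omit [Fintype Λ] [DecidableEq Λ] in
private theorem dis_sh (w : Λ) (x y : Λ → Fin d) : Dis g (sh w x) (sh w y) ↔ Dis g x y := by
  unfold Dis sh
  constructor
  · intro h v
    have := h (v + w)
    simpa using this
  · intro h v
    exact h (v - w)

omit [DecidableEq Λ] in
private theorem Cr_sh [DecidableEq Λ] (w : Λ) (y x z : Λ → Fin d) :
    Cr g (sh w y) (sh w x) (sh w z) = Cr g y x z := by
  classical
  unfold Cr
  have h1 : jn g (sh w z) (sh w y) = sh w (jn g z y) := rfl
  have h2 : sh w x = sh w (jn g z y) ↔ x = jn g z y := by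
    rw [← shE_apply, ← shE_apply]
    exact (shE (d := d) w).injective.eq_iff
  simp only [dis_sh, h1, h2]

private theorem cre_sh {t : (Λ → Fin d) → ℂ} (ht : Inv t) (w : Λ) :
    (cre g t).submatrix (shE w) (shE w) = cre g t := by
  ext x z
  rw [Matrix.submatrix_apply, cre, Matrix.sum_apply, Matrix.sum_apply]
  refine (Equiv.sum_comp (shE w) (fun y => (t y • Cr g y) (shE w x) (shE w z))).symm.trans ?_
  refine Finset.sum_congr rfl fun y _ => ?_
  rw [Matrix.smul_apply, Matrix.smul_apply, shE_apply, shE_apply, shE_apply, Cr_sh, ht w y]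

theorem cj_sh (hW : LocFam g W Bx b K) {t : (Λ → Fin d) → ℂ} (ht : Inv t) (v w : Λ)
    (x y : Λ → Fin d) : cj g t (W (v + w)) (sh w x) (sh w y) = cj g t (W v) x y := by
  have hWs : (W (v + w)).submatrix (shE w) (shE w) = W v := by
    ext x y
    exact hW.cov v w x y
  have hneg : (-(cre g t)).submatrix (shE w) (shE w) = -(cre g t) := by
    conv_rhs => rw [← cre_sh ht w]
    rfl
  have h1 : (cj g t (W (v + w))).submatrix (shE w) (shE w) = cj g t (W v) := by
    unfold cj
    rw [← Matrix.submatrix_mul_equiv _ _ _ (shE w), ← Matrix.submatrix_mul_equiv _ _ _ (shE w),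
      exp_sub, exp_sub, hWs, hneg, cre_sh ht w]
  exact congrFun (congrFun h1 x) y

theorem sum_cj_sh (hW : LocFam g W Bx b K) {t : (Λ → Fin d) → ℂ} (ht : Inv t) (w : Λ)
    (y : Λ → Fin d) :
    ∑ v, cj g t (W v) (sh w y) (vac g) = ∑ v, cj g t (W v) y (vac g) := by
  refine (Equiv.sum_comp (Equiv.addRight w)
    (fun v => cj g t (W v) (sh w y) (vac g))).symm.trans ?_
  refine Finset.sum_congr rfl fun v _ => ?_
  exact cj_sh hW ht v w y (vac g)

end Pool.Agent.KTP
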