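import Mathlib
import Pool.Agent.KTP.Df
import Pool.Agent.KTP.Cra

/-!
# Module Exa: conjugation by `exp T`
`mul_exp_of`: `A T^k = T^k A + k T^(k-1) T'` by induction, then the exponential series.
-/

set_option autoImplicit false

namespace Pool.Agent.KTP

open Matrix

/-- The commutation of `A` with the powers of `T`. -/
theorem ex_mul_pow {R : Type*} [Ring R] (A T T' : R) (h : A * T = T * A + T')
    (hc : Commute T T') (k : ℕ) :
    A * T ^ (k + 1) = T ^ (k + 1) * A + ((k : R) + 1) * (T ^ k * T') := by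
  induction k with
  | zero => simp [h]
  | succ k ih =>
    have h1 : A * T ^ (k + 1 + 1) = (A * T ^ (k + 1)) * T := by
      rw [pow_succ T (k + 1), mul_assoc]
    have h2 : T' * T = T * T' := hc.eq.symm
    rw [h1, ih, add_mul, mul_assoc (T ^ (k + 1)) A T, h, mul_add, mul_assoc ((k : R) + 1),
      mul_assoc (T ^ k) T' T, h2, ← mul_assoc (T ^ k) T T', ← pow_succ, ← mul_assoc (T ^ (k + 1)),
      ← pow_succ]
    push_cast
    rw [add_mul ((k : R) + 1) 1, one_mul]
    abel

theorem ex_mul_exp {R : Type*} [NormedRing R] [NormedAlgebra ℂ R] [NormedAlgebra ℚ R]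
    [CompleteSpace R] (A T T' : R)
    (h : A * T = T * A + T') (hc : Commute T T') :
    A * NormedSpace.exp T = NormedSpace.exp T * (A + T') := by
  have h0 : HasSum (fun n : ℕ => ((n.factorial : ℂ)⁻¹) • T ^ n) (NormedSpace.exp T) :=
    NormedSpace.exp_series_hasSum_exp' (𝕂 := ℂ) T
  have h1 : HasSum (fun n : ℕ => A * (((n.factorial : ℂ)⁻¹) • T ^ n)) (A * NormedSpace.exp T) :=
    h0.mul_left A
  have h2 : HasSum (fun n : ℕ => (((n.factorial : ℂ)⁻¹) • T ^ n) * A) (NormedSpace.exp T * A) :=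
    h0.mul_right A
  have h3 : HasSum (fun n : ℕ => (((n.factorial : ℂ)⁻¹) • T ^ n) * T') (NormedSpace.exp T * T') :=
    h0.mul_right T'
  have h4 : HasSum (fun n : ℕ => A * (((n.factorial : ℂ)⁻¹) • T ^ n) -
      (((n.factorial : ℂ)⁻¹) • T ^ n) * A) (NormedSpace.exp T * T') := by
    have h5 := (hasSum_nat_add_iff (f := fun n : ℕ => A * (((n.factorial : ℂ)⁻¹) • T ^ n) -
      (((n.factorial : ℂ)⁻¹) • T ^ n) * A) (g := NormedSpace.exp T * T') 1).mp
    have h6 : NormedSpace.exp T * T' + ∑ i ∈ Finset.range 1,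
        (A * (((i.factorial : ℂ)⁻¹) • T ^ i) - (((i.factorial : ℂ)⁻¹) • T ^ i) * A)
        = NormedSpace.exp T * T' := by simp
    rw [h6] at h5
    refine h5 ?_
    have h9 : (fun n : ℕ => A * ((((n + 1).factorial : ℂ)⁻¹) • T ^ (n + 1)) -
      ((((n + 1).factorial : ℂ)⁻¹) • T ^ (n + 1)) * A)
        = fun n : ℕ => (((n.factorial : ℂ)⁻¹) • T ^ n) * T' := by
      funext n
      rw [mul_smul_comm, smul_mul_assoc, ex_mul_pow A T T' h hc n, smul_add, add_sub_cancel_left,
        smul_mul_assoc]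
      have h10 : ((n : R) + 1) = (((n : ℂ) + 1) • (1 : R)) := by
        rw [add_smul, one_smul]
        congr 1
        rw [← Algebra.algebraMap_eq_smul_one]
        simp
      rw [h10, smul_mul_assoc, one_mul, smul_smul]
      congr 1
      rw [Nat.factorial_succ]
      have hn : ((n : ℂ) + 1) ≠ 0 := by exact_mod_cast Nat.succ_ne_zero n
      have hn2 : (n.factorial : ℂ) ≠ 0 := by exact_mod_cast Nat.factorial_ne_zero n
      push_cast
      field_simp
    rw [h9]
    exact h3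
  have h7 := h1.sub h2
  have h8 := h7.unique h4
  rw [mul_add, ← h8]
  abel

variable {Λ : Type} [Fintype Λ] [DecidableEq Λ] {d : ℕ} (g : Fin d)

theorem exp_neg_mul_exp {ι : Type} [Fintype ι] [DecidableEq ι] (T : Matrix ι ι ℂ) :
    NormedSpace.exp (-T) * NormedSpace.exp T = 1 := by
  rw [← Matrix.exp_add_of_commute (-T) T (Commute.refl T).neg_left, neg_add_cancel,
    NormedSpace.exp_zero]

theorem exp_mul_exp_neg {ι : Type} [Fintype ι] [DecidableEq ι] (T : Matrix ι ι ℂ) :
    NormedSpace.exp T * NormedSpace.exp (-T) = 1 := by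
  rw [← Matrix.exp_add_of_commute T (-T) (Commute.refl T).neg_right, add_neg_cancel,
    NormedSpace.exp_zero]

set_option backward.isDefEq.respectTransparency false in
theorem mul_exp_of {ι : Type} [Fintype ι] [DecidableEq ι] (A T T' : Matrix ι ι ℂ)
    (h : A * T = T * A + T') (hc : Commute T T') :
    A * NormedSpace.exp T = NormedSpace.exp T * (A + T') := by
  open scoped Matrix.Norms.Operator in exact ex_mul_exp A T T' h hc

theorem cj_mul (t : (Λ → Fin d) → ℂ) (M N : Matrix (Λ → Fin d) (Λ → Fin d) ℂ) :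
    cj g t (M * N) = cj g t M * cj g t N := by
  unfold cj
  have h := exp_mul_exp_neg (cre g t)
  calc NormedSpace.exp (-(cre g t)) * (M * N) * NormedSpace.exp (cre g t)
      = NormedSpace.exp (-(cre g t)) * M * 1 * (N * NormedSpace.exp (cre g t)) := by
        simp only [mul_assoc, mul_one]
    _ = NormedSpace.exp (-(cre g t)) * M * (NormedSpace.exp (cre g t) * NormedSpace.exp (-(cre g t)))
          * (N * NormedSpace.exp (cre g t)) := by rw [h]
    _ = _ := by simp only [mul_assoc]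

theorem cj_add (t : (Λ → Fin d) → ℂ) (M N : Matrix (Λ → Fin d) (Λ → Fin d) ℂ) :
    cj g t (M + N) = cj g t M + cj g t N := by
  unfold cj
  rw [mul_add, add_mul]

theorem cj_sub (t : (Λ → Fin d) → ℂ) (M N : Matrix (Λ → Fin d) (Λ → Fin d) ℂ) :
    cj g t (M - N) = cj g t M - cj g t N := by
  unfold cj
  rw [mul_sub, sub_mul]

theorem cj_smul (t : (Λ → Fin d) → ℂ) (u : ℂ) (M : Matrix (Λ → Fin d) (Λ → Fin d) ℂ) :
    cj g t (u • M) = u • cj g t M := by
  unfold cj
  rw [mul_smul_comm, smul_mul_assoc]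

theorem cj_sum {κ : Type} (s : Finset κ) (t : (Λ → Fin d) → ℂ)
    (F : κ → Matrix (Λ → Fin d) (Λ → Fin d) ℂ) :
    cj g t (∑ i ∈ s, F i) = ∑ i ∈ s, cj g t (F i) := by
  unfold cj
  rw [Finset.mul_sum, Finset.sum_mul]

theorem cj_one (t : (Λ → Fin d) → ℂ) :
    cj g t (1 : Matrix (Λ → Fin d) (Λ → Fin d) ℂ) = 1 := by
  unfold cj
  rw [mul_one, exp_neg_mul_exp]

theorem cj_pow (t : (Λ → Fin d) → ℂ) (M : Matrix (Λ → Fin d) (Λ → Fin d) ℂ) (k : ℕ) :
    cj g t (M ^ k) = (cj g t M) ^ k := by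
  induction k with
  | zero => rw [pow_zero, pow_zero, cj_one]
  | succ k ih => rw [pow_succ, pow_succ, cj_mul, ih]

theorem trace_cj (t : (Λ → Fin d) → ℂ) (M : Matrix (Λ → Fin d) (Λ → Fin d) ℂ) :
    (cj g t M).trace = M.trace := by
  unfold cj
  rw [Matrix.trace_mul_comm, ← mul_assoc, exp_mul_exp_neg, one_mul]

/-- Conjugation of a matrix commuting with `T` up to `T'`. -/
theorem cj_of (t : (Λ → Fin d) → ℂ) (A T' : Matrix (Λ → Fin d) (Λ → Fin d) ℂ)
    (h : A * cre g t = cre g t * A + T') (hc : Commute (cre g t) T') :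
    cj g t A = A + T' := by
  unfold cj
  rw [mul_assoc, mul_exp_of A (cre g t) T' h hc, ← mul_assoc, exp_neg_mul_exp, one_mul]

theorem cj_cr (t : (Λ → Fin d) → ℂ) (y : Λ → Fin d) : cj g t (Cr g y) = Cr g y := by
  have h := cj_of g t (Cr g y) 0 (by rw [add_zero]; exact (cre_cr g t y).eq.symm)
    (Commute.zero_right _)
  rw [h, add_zero]

/-- `exp(-T) N exp(T) = N + [N,T]`. -/
theorem cj_nn {e : Fin d → ℝ} (he : e g = 0) (t : (Λ → Fin d) → ℂ) :
    cj g t (nn e) = nn e + cre g (fun y => ((En e y : ℝ) : ℂ) * t y) :=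
  cj_of g t (nn e) _ (nn_cre g he t) (cre_comm g t _)

/-- `exp(T) e_vac` is not zero (else `e_vac = exp(-T) exp(T) e_vac = 0`). -/
theorem exp_vac_ne (t : (Λ → Fin d) → ℂ) :
    (fun z => NormedSpace.exp (cre g t) z (vac g)) ≠ (0 : (Λ → Fin d) → ℂ) := by
  intro h0
  have h1 := exp_neg_mul_exp (cre g t)
  have h2 : (NormedSpace.exp (-(cre g t)) * NormedSpace.exp (cre g t)) (vac g) (vac g)
      = (1 : Matrix (Λ → Fin d) (Λ → Fin d) ℂ) (vac g) (vac g) := by rw [h1]
  rw [Matrix.mul_apply, Matrix.one_apply_eq] at h2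
  have h3 : ∀ z, NormedSpace.exp (cre g t) z (vac g) = 0 := fun z => congrFun h0 z
  simp only [h3, mul_zero, Finset.sum_const_zero] at h2
  exact zero_ne_one h2

end Pool.Agent.KTP
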