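import Mathlib
import Pool.Agent.KTP.Df
import Pool.Agent.KTP.Cra
import Pool.Agent.KTP.Bda
import Pool.Agent.KTP.Exa

/-!
# Module Loa: conjugated local operators
`cj_loc`: `T = T_B + T'` with `T_B` the terms touching `Bx v`; `T'` commutes with `W v` (hW.comm) and with
`T_B` (cre_comm), so `exp(-T) W exp(T) = exp(-T_B) W exp(T_B)`.
`cj_bd`: product of three `Bd` (cre_bd, Bd.exp, Bd.neg).
`cj_lip`: `exp T - exp T' = exp T' (exp(T-T') - 1)`, `exp c' - 1 ≤ 2 c'` for `0 ≤ c' ≤ 1`.
-/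

set_option autoImplicit false

namespace Pool.Agent.KTP

open Matrix

variable {Λ : Type} [Fintype Λ] [DecidableEq Λ] [AddCommGroup Λ] {d : ℕ} {g : Fin d}
variable {W : Λ → Matrix (Λ → Fin d) (Λ → Fin d) ℂ} {Bx : Λ → Finset Λ} {b : ℕ} {K : ℝ}

private theorem tch_sub (B : Finset Λ) (t t' : (Λ → Fin d) → ℂ) :
    tch g B (t - t') = tch g B t - tch g B t' := by
  funext y
  by_cases h : ∃ u ∈ B, y u ≠ g
  · simp only [tch, Pi.sub_apply, if_pos h]
  · simp only [tch, Pi.sub_apply, if_neg h, sub_zero]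

theorem cj_loc (hW : LocFam g W Bx b K) (t : (Λ → Fin d) → ℂ) (v : Λ) :
    cj g t (W v) = cj g (tch g (Bx v) t) (W v) := by
  set tB := tch g (Bx v) t with htB
  set s := t - tB with hs
  have ht : t = tB + s := by rw [hs]; abel
  have hcW : Commute (W v) (cre g s) := by
    unfold cre
    apply Commute.sum_right
    intro y _
    by_cases h : ∃ u ∈ Bx v, y u ≠ g
    · have h0 : s y = 0 := by
        rw [hs, Pi.sub_apply, htB, tch, if_pos h, sub_self]
      rw [h0, zero_smul]
      exact Commute.zero_right _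
    · push Not at h
      exact (hW.comm v y h).smul_right _
  have hcT : Commute (cre g s) (cre g tB) := cre_comm g s tB
  have hT : cre g t = cre g tB + cre g s := by
    conv_lhs => rw [ht]
    exact cre_add g tB s
  have h1 : NormedSpace.exp (cre g t) = NormedSpace.exp (cre g s) * NormedSpace.exp (cre g tB) := by
    rw [hT, add_comm]
    exact Matrix.exp_add_of_commute _ _ hcT
  have h2 : NormedSpace.exp (-(cre g t)) =
      NormedSpace.exp (-(cre g tB)) * NormedSpace.exp (-(cre g s)) := by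
    rw [hT, neg_add]
    exact Matrix.exp_add_of_commute _ _ (hcT.symm.neg_left.neg_right)
  have h3 : NormedSpace.exp (-(cre g s)) * W v = W v * NormedSpace.exp (-(cre g s)) :=
    ((hcW.neg_right).exp_right).symm.eq
  unfold cj
  rw [h1, h2]
  calc NormedSpace.exp (-(cre g tB)) * NormedSpace.exp (-(cre g s)) * W v *
        (NormedSpace.exp (cre g s) * NormedSpace.exp (cre g tB))
      = NormedSpace.exp (-(cre g tB)) * (NormedSpace.exp (-(cre g s)) * W v) *
        (NormedSpace.exp (cre g s) * NormedSpace.exp (cre g tB)) := by simp only [mul_assoc]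
    _ = NormedSpace.exp (-(cre g tB)) * W v * (NormedSpace.exp (-(cre g s)) *
        NormedSpace.exp (cre g s)) * NormedSpace.exp (cre g tB) := by
        rw [h3]; simp only [mul_assoc]
    _ = _ := by rw [exp_neg_mul_exp, mul_one]

theorem cj_bd (hW : LocFam g W Bx b K) (hK : 0 ≤ K) {a : ℝ} (ha : 0 < a) (ha1 : a ≤ 1)
    (t : (Λ → Fin d) → ℂ) (v : Λ) {c : ℝ} (hc : ∑ y, ‖tch g (Bx v) t y‖ ≤ c) :
    Bd g a (K * (a⁻¹) ^ b * Real.exp (2 * c)) (cj g t (W v)) := by
  have hc0 : 0 ≤ c := (Finset.sum_nonneg fun y _ => norm_nonneg _).trans hc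
  rw [cj_loc hW]
  have h1 : Bd g a c (cre g (tch g (Bx v) t)) := (cre_bd g ha ha1 _).mono ha hc
  have h2 := Bd.exp ha hc0 h1
  have h3 := Bd.exp ha hc0 h1.neg
  have h4 := hW.bd v a ha ha1
  have hK' : 0 ≤ K * (a⁻¹) ^ b := by positivity
  have h5 := Bd.mul ha (Real.exp_pos c).le h3 h4
  have h6 := Bd.mul ha (mul_nonneg (Real.exp_pos c).le hK') h5 h2
  refine h6.mono ha (le_of_eq ?_)
  rw [two_mul, Real.exp_add]
  ring

private theorem exp_sub_bd {T T' : Matrix (Λ → Fin d) (Λ → Fin d) ℂ} (hcomm : Commute T' (T - T'))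
    {c c' : ℝ} (hc0 : 0 ≤ c) (h : Bd g 1 c T') (hd0 : 0 ≤ c') (hd1 : c' ≤ 1)
    (hD : Bd g 1 c' (T - T')) :
    Bd g 1 (Real.exp c * (2 * c')) (NormedSpace.exp T - NormedSpace.exp T') := by
  have h1 : NormedSpace.exp T = NormedSpace.exp T' * NormedSpace.exp (T - T') := by
    rw [← Matrix.exp_add_of_commute _ _ hcomm, add_sub_cancel]
  have h2 : NormedSpace.exp T - NormedSpace.exp T' =
      NormedSpace.exp T' * (NormedSpace.exp (T - T') - 1) := by
    rw [mul_sub, mul_one, ← h1]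
  rw [h2]
  have h3 : Real.exp c' - 1 ≤ 2 * c' := by
    have h4 := Real.abs_exp_sub_one_le (x := c') (by rw [abs_of_nonneg hd0]; exact hd1)
    rw [abs_of_nonneg hd0] at h4
    exact (le_abs_self _).trans h4
  exact Bd.mul one_pos (Real.exp_pos c).le (Bd.exp one_pos hc0 h)
    ((Bd.exp_sub_one one_pos hd0 hD).mono one_pos h3)

theorem cj_lip (hW : LocFam g W Bx b K) (hK : 0 ≤ K) (t t' : (Λ → Fin d) → ℂ) (v : Λ) {c c' : ℝ}
    (hc : ∑ y, ‖tch g (Bx v) t y‖ ≤ c) (hc2 : ∑ y, ‖tch g (Bx v) t' y‖ ≤ c)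
    (hd : ∑ y, ‖tch g (Bx v) (t - t') y‖ ≤ c') (hc' : c' ≤ 1) :
    Bd g 1 (K * Real.exp (2 * c) * (4 * c')) (cj g t (W v) - cj g t' (W v)) := by
  have hc0 : 0 ≤ c := (Finset.sum_nonneg fun y _ => norm_nonneg _).trans hc
  have hd0 : 0 ≤ c' := (Finset.sum_nonneg fun y _ => norm_nonneg _).trans hd
  rw [cj_loc hW t, cj_loc hW t']
  set T := cre g (tch g (Bx v) t) with hT
  set T' := cre g (tch g (Bx v) t') with hT'
  have hbT : Bd g 1 c T := (cre_bd g one_pos le_rfl _).mono one_pos hc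
  have hbT' : Bd g 1 c T' := (cre_bd g one_pos le_rfl _).mono one_pos hc2
  have hD : T - T' = cre g (tch g (Bx v) (t - t')) := by
    rw [tch_sub, cre_sub]
  have hbD : Bd g 1 c' (T - T') := by
    rw [hD]
    exact (cre_bd g one_pos le_rfl _).mono one_pos hd
  have hcT : Commute T' (T - T') := by
    rw [hD]
    exact cre_comm g _ _
  have hbW : Bd g 1 K (W v) := by
    have := hW.bd v 1 one_pos le_rfl
    rwa [inv_one, one_pow, mul_one] at this
  have e1 : Bd g 1 (Real.exp c * (2 * c')) (NormedSpace.exp T - NormedSpace.exp T') :=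
    exp_sub_bd hcT hc0 hbT' hd0 hc' hbD
  have e2 : Bd g 1 (Real.exp c * (2 * c')) (NormedSpace.exp (-T) - NormedSpace.exp (-T')) := by
    apply exp_sub_bd (T := -T) (T' := -T') _ hc0 hbT'.neg hd0 hc' _
    · have : -T - -T' = -(T - T') := by abel
      rw [this]
      exact hcT.neg_left.neg_right
    · have : -T - -T' = -(T - T') := by abel
      rw [this]
      exact hbD.neg
  have hsplit : cj g (tch g (Bx v) t) (W v) - cj g (tch g (Bx v) t') (W v) =
      NormedSpace.exp (-T) * W v * (NormedSpace.exp T - NormedSpace.exp T') +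
      (NormedSpace.exp (-T) - NormedSpace.exp (-T')) * W v * NormedSpace.exp T' := by
    unfold cj
    rw [← hT, ← hT', mul_sub, sub_mul, sub_mul]
    abel
  rw [hsplit]
  have f1 := Bd.mul one_pos (Real.exp_pos c).le (Bd.exp one_pos hc0 hbT.neg) hbW
  have f2 := Bd.mul one_pos (mul_nonneg (Real.exp_pos c).le hK) f1 e1
  have f3 := Bd.mul one_pos (mul_nonneg (Real.exp_pos c).le (by positivity)) e2 hbW
  have f4 := Bd.mul one_pos (mul_nonneg (mul_nonneg (Real.exp_pos c).le (by positivity)) hK) f3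
    (Bd.exp one_pos hc0 hbT')
  refine (f2.add f4 one_pos).mono one_pos (le_of_eq ?_)
  have hexp : Real.exp (2 * c) = Real.exp c * Real.exp c := by rw [two_mul, Real.exp_add]
  rw [hexp]
  ring

end Pool.Agent.KTP
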