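import Mathlib
import Pool.Agent.KTP.Df
import Pool.Agent.KTP.Cra
import Pool.Agent.KTP.Loa
import Pool.Agent.KTP.Iva

/-!
# Module Fxa: the fixed point
`Φ t y = -(En y)⁻¹ ∑_v cj t (W v) y vac` for `y ≠ vac`, `Φ t vac = 0`. On the set of `t` with `Inv t`,
`t vac = 0`, `nrm t ≤ r = 1/(2(b+1))`: `∑ ‖tch (Bx v) t‖ ≤ b r ≤ 1/2` (tch_le), so by cj_bd (a = 1, column
vac, `sz vac = 0`) `∑_y ‖cj t (W v) y vac‖ ≤ K e ≤ 3K`; `sz y ≤ En y / δ`; so
`nrm (Φ t) ≤ (1/n) (1/δ) n 3K ≤ r`. By cj_lip (`c = 1/2`, `c' = b nrm (t-t') ≤ 1`):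
`nrm (Φ t - Φ t') ≤ (1/δ) K 3 · 4 b nrm (t-t') ≤ (1/2) nrm (t-t')`. Invariance by sum_cj_sh, En_sh.
Iterate from 0: `nrm (t_{k+1} - t_k) ≤ 2^-k`, and `‖t y‖ ≤ n nrm t` for `y ≠ vac` (sz_pos), so the sequence is
Cauchy in the (complete) space of functions; the limit is in the set and a fixed point.
-/

set_option autoImplicit false

namespace Pool.Agent.KTP

open Matrix Filter Topology

variable {Λ : Type} [Fintype Λ] [DecidableEq Λ] [AddCommGroup Λ] {d : ℕ} {g : Fin d}
variable {W : Λ → Matrix (Λ → Fin d) (Λ → Fin d) ℂ} {Bx : Λ → Finset Λ} {b : ℕ} {K : ℝ}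

private def XX (g : Fin d) (b : ℕ) (t : (Λ → Fin d) → ℂ) : Prop :=
  Inv t ∧ t (vac g) = 0 ∧ nrm g t ≤ 1 / (2 * (b + 1))

open Classical in
private noncomputable def Ph (g : Fin d) (e : Fin d → ℝ) (W : Λ → Matrix (Λ → Fin d) (Λ → Fin d) ℂ)
    (t : (Λ → Fin d) → ℂ) : (Λ → Fin d) → ℂ := fun y =>
  if y = vac g then 0 else -((∑ v, cj g t (W v) y (vac g)) / ((En e y : ℝ) : ℂ))

private theorem card_pos' : (0 : ℝ) < Fintype.card Λ := by
  have : Nonempty Λ := ⟨0⟩
  exact_mod_cast Fintype.card_pos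

private theorem nrm_nonneg (t : (Λ → Fin d) → ℂ) : 0 ≤ nrm g t := by
  unfold nrm
  positivity

private theorem le_nrm (t : (Λ → Fin d) → ℂ) (ht : t (vac g) = 0) (y : Λ → Fin d) :
    ‖t y‖ ≤ Fintype.card Λ * nrm g t := by
  have h0 : (Fintype.card Λ : ℝ) * nrm g t = ∑ y, (sz g y : ℝ) * ‖t y‖ := by
    unfold nrm
    have := card_pos' (Λ := Λ)
    field_simp
  rw [h0]
  by_cases hy : y = vac g
  · rw [hy, ht, norm_zero]
    positivity
  · have h1 : (1 : ℝ) ≤ sz g y := by exact_mod_cast sz_pos g hy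
    calc ‖t y‖ ≤ (sz g y : ℝ) * ‖t y‖ := le_mul_of_one_le_left (norm_nonneg _) h1
      _ ≤ _ := Finset.single_le_sum (f := fun y => (sz g y : ℝ) * ‖t y‖)
          (fun z _ => by positivity) (Finset.mem_univ y)

private theorem nrm_sub_le (t t' : (Λ → Fin d) → ℂ) : nrm g (t - t') ≤ nrm g t + nrm g t' := by
  unfold nrm
  rw [← add_div, ← Finset.sum_add_distrib]
  apply div_le_div_of_nonneg_right _ (card_pos' (Λ := Λ)).le
  apply Finset.sum_le_sum
  intro y _
  rw [← mul_add]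
  exact mul_le_mul_of_nonneg_left (norm_sub_le _ _) (Nat.cast_nonneg _)

/-- the basic estimate for functions of the form `-(s y)/En y` -/
private theorem nrm_div_le {e : Fin d → ℝ} {δ : ℝ} (hδ : 0 < δ) (he : e g = 0)
    (hd : ∀ i, i ≠ g → δ ≤ e i) (f : (Λ → Fin d) → ℂ) (s : Λ → (Λ → Fin d) → ℂ) (c : ℝ)
    (hf0 : f (vac g) = 0)
    (hf : ∀ y, y ≠ vac g → f y = -((∑ v, s v y) / ((En e y : ℝ) : ℂ)))
    (hs : ∀ v, ∑ y, ‖s v y‖ ≤ c) : nrm g f ≤ c / δ := by
  have hn := card_pos' (Λ := Λ)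
  have h1 : ∀ y, (sz g y : ℝ) * ‖f y‖ ≤ δ⁻¹ * ∑ v, ‖s v y‖ := by
    intro y
    by_cases hy : y = vac g
    · rw [hy, hf0, norm_zero, mul_zero]
      positivity
    · have h2 := En_ge g he hd y
      have h3 : (1 : ℝ) ≤ sz g y := by exact_mod_cast sz_pos g hy
      have h4 : 0 < En e y := lt_of_lt_of_le (by positivity) h2
      rw [hf y hy, norm_neg, norm_div, Complex.norm_real, Real.norm_eq_abs, abs_of_pos h4]
      have h5 : ‖∑ v, s v y‖ ≤ ∑ v, ‖s v y‖ := norm_sum_le _ _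
      have h6 : (sz g y : ℝ) / En e y ≤ δ⁻¹ := by
        rw [div_le_iff₀ h4]
        rw [inv_mul_eq_div, le_div_iff₀ hδ]
        linarith
      calc (sz g y : ℝ) * (‖∑ v, s v y‖ / En e y) = ((sz g y : ℝ) / En e y) * ‖∑ v, s v y‖ := by ring
        _ ≤ δ⁻¹ * ∑ v, ‖s v y‖ := mul_le_mul h6 h5 (norm_nonneg _) (by positivity)
  unfold nrm
  rw [div_le_div_iff₀ hn hδ]
  calc (∑ y, (sz g y : ℝ) * ‖f y‖) * δ ≤ (∑ y, δ⁻¹ * ∑ v, ‖s v y‖) * δ :=
        mul_le_mul_of_nonneg_right (Finset.sum_le_sum fun y _ => h1 y) hδ.le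
    _ = ∑ v, ∑ y, ‖s v y‖ := by
        rw [← Finset.mul_sum, Finset.sum_comm]
        field_simp
    _ ≤ ∑ v : Λ, c := Finset.sum_le_sum fun v _ => hs v
    _ = c * Fintype.card Λ := by
        rw [Finset.sum_const, Finset.card_univ, nsmul_eq_mul, mul_comm]

private theorem col_of_bd {c : ℝ} {M : Matrix (Λ → Fin d) (Λ → Fin d) ℂ} (h : Bd g 1 c M) :
    ∑ y, ‖M y (vac g)‖ ≤ c := by
  have := h (vac g)
  simpa using this

private theorem exp_one_le : Real.exp 1 ≤ 3 := by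
  have := Real.exp_one_lt_d9
  linarith

private theorem tch_small (hW : LocFam g W Bx b K) {t : (Λ → Fin d) → ℂ} (ht : Inv t) {ν : ℝ}
    (hν : nrm g t ≤ ν) (v : Λ) : ∑ y, ‖tch g (Bx v) t y‖ ≤ b * ν := by
  refine (tch_le ht (Bx v)).trans ?_
  have h1 : ((Bx v).card : ℝ) ≤ b := by exact_mod_cast hW.card v
  exact mul_le_mul h1 hν (nrm_nonneg t) (Nat.cast_nonneg _)

private theorem half_le : (b : ℝ) * (1 / (2 * (b + 1))) ≤ 1 / 2 := by
  have hb : (0 : ℝ) ≤ b := Nat.cast_nonneg _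
  rw [mul_one_div, div_le_div_iff₀ (by positivity) (by norm_num)]
  linarith

private theorem ph_mem (hW : LocFam g W Bx b K) (hK : 0 ≤ K) {e : Fin d → ℝ} {δ : ℝ} (hδ : 0 < δ)
    (he : e g = 0) (hd : ∀ i, i ≠ g → δ ≤ e i) (hKs : K ≤ δ / (64 * (b + 1)))
    {t : (Λ → Fin d) → ℂ} (ht : XX g b t) : XX g b (Ph g e W t) := by
  obtain ⟨hI, h0, hn⟩ := ht
  have hb : (0 : ℝ) ≤ b := Nat.cast_nonneg _
  refine ⟨?_, ?_, ?_⟩
  · intro w y
    have hiff : sh w y = vac g ↔ y = vac g := by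
      constructor
      · intro h
        have h1 : sh (-w) (sh w y) = y := by
          funext u
          simp [sh]
        rw [← h1, h, sh_vac]
      · rintro rfl
        exact sh_vac w
    by_cases hy : y = vac g
    · simp only [Ph, if_pos hy, if_pos (hiff.2 hy)]
    · simp only [Ph, if_neg hy, if_neg (fun h => hy (hiff.1 h))]
      rw [sum_cj_sh hW hI, En_sh]
  · simp only [Ph, if_pos]
  · have h1 : nrm g (Ph g e W t) ≤ 3 * K / δ := by
      apply nrm_div_le hδ he hd _ (fun v y => cj g t (W v) y (vac g)) (3 * K)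
      · simp only [Ph, if_pos]
      · intro y hy
        simp only [Ph, if_neg hy]
      · intro v
        have h2 := cj_bd hW hK one_pos le_rfl t v ((tch_small hW hI hn v).trans half_le)
        refine (col_of_bd h2).trans ?_
        rw [inv_one, one_pow, mul_one, mul_one_div, div_self (two_ne_zero)]
        nlinarith [exp_one_le]
    refine h1.trans ?_
    rw [le_div_iff₀ (by positivity)] at hKs
    rw [div_le_div_iff₀ hδ (by positivity)]
    nlinarith

private theorem ph_lip (hW : LocFam g W Bx b K) (hK : 0 ≤ K) {e : Fin d → ℝ} {δ : ℝ} (hδ : 0 < δ)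
    (he : e g = 0) (hd : ∀ i, i ≠ g → δ ≤ e i) (hKs : K ≤ δ / (64 * (b + 1)))
    {t t' : (Λ → Fin d) → ℂ} (ht : XX g b t) (ht' : XX g b t') :
    nrm g (Ph g e W t - Ph g e W t') ≤ (1 / 2) * nrm g (t - t') := by
  obtain ⟨hI, h0, hn⟩ := ht
  obtain ⟨hI', h0', hn'⟩ := ht'
  have hb : (0 : ℝ) ≤ b := Nat.cast_nonneg _
  have hIs : Inv (t - t') := fun w x => by rw [Pi.sub_apply, Pi.sub_apply, hI, hI']
  have hν0 := nrm_nonneg (g := g) (t - t')
  have hν : nrm g (t - t') ≤ 1 / (b + 1) := by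
    refine (nrm_sub_le t t').trans ?_
    have : (1 : ℝ) / (b + 1) = 1 / (2 * (b + 1)) + 1 / (2 * (b + 1)) := by field_simp; norm_num
    rw [this]
    exact add_le_add hn hn'
  have hc' : (b : ℝ) * nrm g (t - t') ≤ 1 := by
    calc (b : ℝ) * nrm g (t - t') ≤ b * (1 / (b + 1)) := mul_le_mul_of_nonneg_left hν hb
      _ ≤ 1 := by rw [mul_one_div, div_le_one (by positivity)]; linarith
  have h1 : nrm g (Ph g e W t - Ph g e W t') ≤ (12 * K * (b * nrm g (t - t'))) / δ := by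
    apply nrm_div_le hδ he hd _ (fun v y => (cj g t (W v) - cj g t' (W v)) y (vac g))
    · rw [Pi.sub_apply]
      simp only [Ph, if_pos, sub_zero]
    · intro y hy
      rw [Pi.sub_apply]
      simp only [Ph, if_neg hy, Matrix.sub_apply, Finset.sum_sub_distrib]
      ring
    · intro v
      have h2 := cj_lip hW hK t t' v ((tch_small hW hI hn v).trans half_le)
        ((tch_small hW hI' hn' v).trans half_le) (tch_small hW hIs le_rfl v) hc'
      refine (col_of_bd h2).trans ?_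
      rw [mul_one_div, div_self (two_ne_zero)]
      have h3 : 0 ≤ (b : ℝ) * nrm g (t - t') := mul_nonneg hb hν0
      have h4 : K * Real.exp 1 ≤ K * 3 := mul_le_mul_of_nonneg_left exp_one_le hK
      calc K * Real.exp 1 * (4 * (b * nrm g (t - t'))) ≤ K * 3 * (4 * (b * nrm g (t - t'))) :=
            mul_le_mul_of_nonneg_right h4 (by positivity)
        _ = 12 * K * (b * nrm g (t - t')) := by ring
  refine h1.trans ?_
  rw [le_div_iff₀ (by positivity)] at hKs
  rw [div_le_iff₀ hδ]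
  have h5 : 12 * K * b ≤ 1 / 2 * δ := by nlinarith
  calc 12 * K * (b * nrm g (t - t')) = (12 * K * b) * nrm g (t - t') := by ring
    _ ≤ (1 / 2 * δ) * nrm g (t - t') := mul_le_mul_of_nonneg_right h5 hν0
    _ = 1 / 2 * nrm g (t - t') * δ := by ring

theorem exists_sol (hW : LocFam g W Bx b K) (hK : 0 ≤ K) {e : Fin d → ℝ} {δ : ℝ} (hδ : 0 < δ)
    (he : e g = 0) (hd : ∀ i, i ≠ g → δ ≤ e i) (hKs : K ≤ δ / (64 * (b + 1))) :
    ∃ t : (Λ → Fin d) → ℂ, Inv t ∧ t (vac g) = 0 ∧ nrm g t ≤ 1 / (2 * (b + 1)) ∧ Sol g e W t := by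
  have hn := card_pos' (Λ := Λ)
  let T : ℕ → (Λ → Fin d) → ℂ := fun k => (Ph g e W)^[k] 0
  have hT0 : T 0 = 0 := rfl
  have hTs : ∀ k, T (k + 1) = Ph g e W (T k) := fun k => Function.iterate_succ_apply' _ _ _
  have hX : ∀ k, XX g b (T k) := by
    intro k
    induction k with
    | zero =>
      rw [hT0]
      refine ⟨fun w x => rfl, rfl, ?_⟩
      have : nrm g (0 : (Λ → Fin d) → ℂ) = 0 := by simp [nrm]
      rw [this]
      positivity
    | succ k ih =>
      rw [hTs]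
      exact ph_mem hW hK hδ he hd hKs ih
  have hdiff : ∀ k, nrm g (T (k + 1) - T k) ≤ (1 / 2 : ℝ) ^ k := by
    intro k
    induction k with
    | zero =>
      rw [hT0, sub_zero, pow_zero]
      refine (hX 1).2.2.trans ?_
      rw [div_le_one (by positivity)]
      have hb : (0 : ℝ) ≤ b := Nat.cast_nonneg _
      linarith
    | succ k ih =>
      rw [hTs (k + 1), hTs k]
      have h1 := ph_lip hW hK hδ he hd hKs (hX (k + 1)) (hX k)
      rw [hTs k] at h1 ih
      refine h1.trans ?_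
      rw [pow_succ, mul_comm ((1 / 2 : ℝ) ^ k)]
      exact mul_le_mul_of_nonneg_left ih (by norm_num)
  have hconv : ∀ y, ∃ l : ℂ, Tendsto (fun k => T k y) atTop (𝓝 l) := by
    intro y
    apply cauchySeq_tendsto_of_complete
    apply cauchySeq_of_le_geometric (1 / 2 : ℝ) (Fintype.card Λ : ℝ) (by norm_num)
    intro k
    rw [dist_comm, dist_eq_norm]
    have h1 : (T (k + 1) - T k) (vac g) = 0 := by
      rw [Pi.sub_apply, (hX (k + 1)).2.1, (hX k).2.1, sub_zero]
    refine (le_nrm (T (k + 1) - T k) h1 y).trans ?_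
    exact mul_le_mul_of_nonneg_left (hdiff k) hn.le
  choose t ht using hconv
  have hcont : ∀ (f : ℕ → (Λ → Fin d) → ℂ) (l : (Λ → Fin d) → ℂ),
      (∀ y, Tendsto (fun k => f k y) atTop (𝓝 (l y))) →
      Tendsto (fun k => nrm g (f k)) atTop (𝓝 (nrm g l)) := by
    intro f l hf
    unfold nrm
    apply Tendsto.div_const
    apply tendsto_finsetSum
    intro y _
    exact ((hf y).norm).const_mul _
  have hXt : XX g b t := by
    refine ⟨?_, ?_, ?_⟩
    · intro w x
      refine tendsto_nhds_unique (ht (sh w x)) ?_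
      have : (fun k => T k (sh w x)) = fun k => T k x := by
        funext k
        exact (hX k).1 w x
      rw [this]
      exact ht x
    · refine tendsto_nhds_unique (ht (vac g)) ?_
      have : (fun k => T k (vac g)) = fun _ => 0 := by
        funext k
        exact (hX k).2.1
      rw [this]
      exact tendsto_const_nhds
    · exact le_of_tendsto' (hcont T t ht) fun k => (hX k).2.2
  have hlim : Tendsto (fun k => nrm g (t - T k)) atTop (𝓝 0) := by
    have h1 := hcont (fun k => t - T k) 0 (by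
      intro y
      have := (tendsto_const_nhds (x := t y)).sub (ht y)
      rw [sub_self] at this
      exact this)
    have h2 : nrm g (0 : (Λ → Fin d) → ℂ) = 0 := by simp [nrm]
    rwa [h2] at h1
  have hfix : Ph g e W t = t := by
    funext y
    have h1 : Tendsto (fun k => T (k + 1) y) atTop (𝓝 (t y)) :=
      (tendsto_add_atTop_iff_nat 1).2 (ht y)
    refine tendsto_nhds_unique ?_ h1
    rw [tendsto_iff_norm_sub_tendsto_zero]
    have h2 : Tendsto (fun k => (Fintype.card Λ : ℝ) * ((1 / 2) * nrm g (t - T k))) atTop (𝓝 0) := by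
      have := (hlim.const_mul (1 / 2 : ℝ)).const_mul (Fintype.card Λ : ℝ)
      simpa using this
    refine squeeze_zero (fun k => norm_nonneg _) (fun k => ?_) h2
    rw [← norm_neg, neg_sub, hTs]
    have h3 : (Ph g e W t - Ph g e W (T k)) (vac g) = 0 := by
      rw [Pi.sub_apply]
      simp only [Ph, if_pos, sub_zero]
    refine (le_nrm (Ph g e W t - Ph g e W (T k)) h3 y).trans ?_
    exact mul_le_mul_of_nonneg_left (ph_lip hW hK hδ he hd hKs hXt (hX k)) hn.le
  refine ⟨t, hXt.1, hXt.2.1, hXt.2.2, ?_⟩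
  intro y hy
  have h1 : t y = -((∑ v, cj g t (W v) y (vac g)) / ((En e y : ℝ) : ℂ)) := by
    conv_lhs => rw [← hfix]
    simp only [Ph, if_neg hy]
  have h2 := En_ge g he hd y
  have h3 : (1 : ℝ) ≤ sz g y := by exact_mod_cast sz_pos g hy
  have h4 : 0 < En e y := lt_of_lt_of_le (by positivity) h2
  have h5 : ((En e y : ℝ) : ℂ) ≠ 0 := by exact_mod_cast h4.ne'
  rw [h1]
  field_simp
  ring

end Pool.Agent.KTP
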