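import Mathlib
import Pool.Agent.KTP.Df
import Pool.Agent.KTP.Cra
import Pool.Agent.KTP.Bda
import Pool.Agent.KTP.Exa
import Pool.Agent.KTP.Loa
import Pool.Agent.KTP.Iva

/-!
# Module Rba: the relative bound
`X = exp(-T)(N + ∑ W - E)exp(T) = N + cre(En t) + ∑ cj t (W v) - E` (cj_nn). Column vac of `X` is 0: entry
`y ≠ vac` by `Sol` (cre_vac), entry vac by `t vac = 0`, `En vac = 0`, def of `gE`. For a general `x`:
`R = X - N`, column `x` of `R` = column vac of `R S_x` = column vac of `R S_x - S_x R` (column vac of `R` is 0: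
nn_vac) = column vac of `∑_v (cj t (W v) S_x - S_x cj t (W v))` (cre, 1 commute with S_x), and the term `v` is 0
unless `Bx v` meets the excited sites of `x` (hW.comm, cj_cr, cj_mul); these are at most `b * sz x` many
(hW.touch). Each: `cj_bd` with `c = 1/2` (tch_le, card ≤ b): column `x` of `cj t (W v)`: at most
`K (a⁻¹)^b e a^(sz x)`, and column vac of `S_x cj t (W v)`: at most `a^(sz x) K (a⁻¹)^b e` (cr_bd, Bd.mul).
`e ≤ 3`, `a⁻¹ ≤ 2`.
-/

set_option autoImplicit false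

namespace Pool.Agent.KTP

open Matrix

variable {Λ : Type} [Fintype Λ] [DecidableEq Λ] [AddCommGroup Λ] {d : ℕ} {g : Fin d}
variable {W : Λ → Matrix (Λ → Fin d) (Λ → Fin d) ℂ} {Bx : Λ → Finset Λ} {b : ℕ} {K : ℝ}

omit [AddCommGroup Λ] in
/-- The conjugated Hamiltonian. -/
theorem rel_eq {e : Fin d → ℝ} (he : e g = 0) (t : (Λ → Fin d) → ℂ) (E : ℂ) :
    cj g t (nn e + ∑ v, W v - E • (1 : Matrix (Λ → Fin d) (Λ → Fin d) ℂ)) =
      nn e + cre g (fun y => ((En e y : ℝ) : ℂ) * t y) + ∑ v, cj g t (W v) - E • 1 := by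
  rw [cj_sub, cj_add, cj_sum, cj_smul, cj_one, cj_nn g he]

theorem rel_vac (hW : LocFam g W Bx b K) {e : Fin d → ℝ} (he : e g = 0) {t : (Λ → Fin d) → ℂ}
    (ht0 : t (vac g) = 0) (hs : Sol g e W t) (z : Λ → Fin d) :
    cj g t (nn e + ∑ v, W v - gE g W t • (1 : Matrix (Λ → Fin d) (Λ → Fin d) ℂ)) z (vac g) = 0 := by
  rw [rel_eq he, Matrix.sub_apply, Matrix.add_apply, Matrix.add_apply, nn_vac g he, cre_vac,
    Matrix.sum_apply, Matrix.smul_apply, smul_eq_mul, zero_add]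
  by_cases hz : z = vac g
  · subst hz
    rw [Matrix.one_apply_eq, ht0, mul_zero, zero_add, mul_one]
    exact sub_self _
  · rw [Matrix.one_apply_ne hz, mul_zero, sub_zero]
    exact hs z hz

theorem rel_comm (hW : LocFam g W Bx b K) (t : (Λ → Fin d) → ℂ) {x : Λ → Fin d} {v : Λ}
    (hv : ∀ u ∈ Bx v, x u = g) :
    cj g t (W v) * Cr g x - Cr g x * cj g t (W v) = 0 := by
  have h : W v * Cr g x = Cr g x * W v := (hW.comm v x hv).eq
  have h1 : cj g t (W v) * Cr g x = cj g t (W v * Cr g x) := by rw [cj_mul, cj_cr]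
  have h2 : Cr g x * cj g t (W v) = cj g t (Cr g x * W v) := by rw [cj_mul, cj_cr]
  rw [h1, h2, h, sub_self]

open Classical in
theorem rel_card (hW : LocFam g W Bx b K) (x : Λ → Fin d) :
    (Finset.univ.filter fun v => ∃ u ∈ Bx v, x u ≠ g).card ≤ b * sz g x := by
  have hsub : (Finset.univ.filter fun v => ∃ u ∈ Bx v, x u ≠ g) ⊆
      (Finset.univ.filter fun u => x u ≠ g).biUnion
        fun u => Finset.univ.filter fun v => u ∈ Bx v := by
    intro v hv
    obtain ⟨u, hu, hxu⟩ := (Finset.mem_filter.1 hv).2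
    exact Finset.mem_biUnion.2 ⟨u, Finset.mem_filter.2 ⟨Finset.mem_univ _, hxu⟩,
      Finset.mem_filter.2 ⟨Finset.mem_univ _, hu⟩⟩
  calc (Finset.univ.filter fun v => ∃ u ∈ Bx v, x u ≠ g).card
      ≤ ((Finset.univ.filter fun u => x u ≠ g).biUnion
        fun u => Finset.univ.filter fun v => u ∈ Bx v).card := Finset.card_le_card hsub
    _ ≤ (Finset.univ.filter fun u => x u ≠ g).card * b :=
        Finset.card_biUnion_le_card_mul _ _ _ fun u _ => by
          convert hW.touch u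
    _ = b * sz g x := by
        unfold sz
        rw [mul_comm]

theorem rel_bd (hW : LocFam g W Bx b K) (hK : 0 ≤ K) {e : Fin d → ℝ} (he : e g = 0)
    {t : (Λ → Fin d) → ℂ} (hI : Inv t) (ht0 : t (vac g) = 0) (hn : nrm g t ≤ 1 / (2 * (b + 1)))
    (hs : Sol g e W t) {a : ℝ} (ha : 1 / 2 ≤ a) (ha1 : a ≤ 1) (x : Λ → Fin d) :
    ∑ z, a ^ (sz g z) *
      ‖(cj g t (nn e + ∑ v, W v - gE g W t • (1 : Matrix (Λ → Fin d) (Λ → Fin d) ℂ)) -
        (nn e : Matrix (Λ → Fin d) (Λ → Fin d) ℂ)) z x‖ ≤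
      (8 * b * 2 ^ b * K) * (sz g x : ℝ) * a ^ (sz g x) := by
  classical
  have ha0 : 0 < a := by linarith
  have hrv := rel_vac hW he ht0 hs
  set X := cj g t (nn e + ∑ v, W v - gE g W t • (1 : Matrix (Λ → Fin d) (Λ → Fin d) ℂ)) with hX
  set R : Matrix (Λ → Fin d) (Λ → Fin d) ℂ := X - nn e with hR
  have hRv : ∀ z, R z (vac g) = 0 := by
    intro z
    rw [hR, Matrix.sub_apply, hrv z, nn_vac g he, sub_zero]
  have hRe : R = cre g (fun y => ((En e y : ℝ) : ℂ) * t y) + ∑ v, cj g t (W v) -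
      gE g W t • 1 := by
    rw [hR, hX, rel_eq he]
    abel
  set V : Finset Λ := Finset.univ.filter fun v => ∃ u ∈ Bx v, x u ≠ g with hV
  have hcomm : R * Cr g x - Cr g x * R =
      ∑ v ∈ V, (cj g t (W v) * Cr g x - Cr g x * cj g t (W v)) := by
    have h1 : R * Cr g x - Cr g x * R =
        ∑ v, (cj g t (W v) * Cr g x - Cr g x * cj g t (W v)) := by
      have h2 := (cre_cr g (fun y => ((En e y : ℝ) : ℂ) * t y) x).eq
      rw [hRe, sub_mul, mul_sub, add_mul, mul_add, h2, Finset.sum_mul, Finset.mul_sum,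
        Finset.sum_sub_distrib, smul_mul_assoc, mul_smul_comm, one_mul, mul_one]
      abel
    rw [h1]
    symm
    refine Finset.sum_subset (Finset.subset_univ V) fun v _ hv => ?_
    refine rel_comm hW t fun u hu => ?_
    by_contra hne
    exact hv (Finset.mem_filter.2 ⟨Finset.mem_univ _, u, hu, hne⟩)
  have hcol : ∀ z, R z x = ∑ v ∈ V, (cj g t (W v) z x - (Cr g x * cj g t (W v)) z (vac g)) := by
    intro z
    have h1 : (Cr g x * R) z (vac g) = 0 := by
      rw [Matrix.mul_apply]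
      exact Finset.sum_eq_zero fun w _ => by rw [hRv w, mul_zero]
    have h2 : R z x = (R * Cr g x - Cr g x * R) z (vac g) := by
      rw [Matrix.sub_apply, h1, mul_cr_vac, sub_zero]
    rw [h2, hcomm, Matrix.sum_apply]
    refine Finset.sum_congr rfl fun v _ => ?_
    rw [Matrix.sub_apply, mul_cr_vac]
  have hb0 : (0 : ℝ) ≤ b := Nat.cast_nonneg b
  have hc : ∀ v, ∑ y, ‖tch g (Bx v) t y‖ ≤ 1 / 2 := by
    intro v
    have hn0 : 0 ≤ nrm g t := by
      unfold nrm
      positivity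
    calc ∑ y, ‖tch g (Bx v) t y‖ ≤ ((Bx v).card : ℝ) * nrm g t := tch_le hI (Bx v)
      _ ≤ (b : ℝ) * (1 / (2 * (b + 1))) := by
          have h1 : ((Bx v).card : ℝ) ≤ b := by exact_mod_cast hW.card v
          exact mul_le_mul h1 hn hn0 hb0
      _ ≤ 1 / 2 := by
          rw [mul_one_div, div_le_div_iff₀ (by positivity) (by norm_num)]
          linarith
  have hA : (a⁻¹) ^ b ≤ 2 ^ b := by
    have h1 : a⁻¹ ≤ 2 := by
      rw [inv_le_comm₀ ha0 (by norm_num)]
      linarith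
    exact pow_le_pow_left₀ (by positivity) h1 b
  have hQ : K * (a⁻¹) ^ b * Real.exp (2 * (1 / 2)) ≤ 3 * 2 ^ b * K := by
    have h1 : Real.exp (2 * (1 / 2)) ≤ 3 := by
      have := Real.exp_one_lt_d9
      norm_num
      linarith
    calc K * (a⁻¹) ^ b * Real.exp (2 * (1 / 2)) ≤ K * 2 ^ b * 3 := by gcongr
      _ = 3 * 2 ^ b * K := by ring
  have hBd : ∀ v, Bd g a (3 * 2 ^ b * K) (cj g t (W v)) := fun v =>
    Bd.mono ha0 (cj_bd hW hK ha0 ha1 t v (hc v)) hQ
  have h1 : ∀ v, ∑ z, a ^ (sz g z) * ‖cj g t (W v) z x‖ ≤ 3 * 2 ^ b * K * a ^ (sz g x) :=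
    fun v => hBd v x
  have h2 : ∀ v, ∑ z, a ^ (sz g z) * ‖(Cr g x * cj g t (W v)) z (vac g)‖ ≤
      3 * 2 ^ b * K * a ^ (sz g x) := by
    intro v
    have h3 := Bd.mul ha0 (by positivity) (cr_bd g ha0 x) (hBd v) (vac g)
    rw [sz_vac, pow_zero, mul_one] at h3
    linarith
  calc ∑ z, a ^ (sz g z) * ‖R z x‖
      ≤ ∑ z, ∑ v ∈ V, (a ^ (sz g z) * ‖cj g t (W v) z x‖ +
          a ^ (sz g z) * ‖(Cr g x * cj g t (W v)) z (vac g)‖) := by
        refine Finset.sum_le_sum fun z _ => ?_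
        rw [hcol z]
        calc a ^ (sz g z) *
              ‖∑ v ∈ V, (cj g t (W v) z x - (Cr g x * cj g t (W v)) z (vac g))‖
            ≤ a ^ (sz g z) * ∑ v ∈ V, (‖cj g t (W v) z x‖ +
                ‖(Cr g x * cj g t (W v)) z (vac g)‖) := by
              refine mul_le_mul_of_nonneg_left ?_ (by positivity)
              exact (norm_sum_le _ _).trans (Finset.sum_le_sum fun v _ => norm_sub_le _ _)
          _ = _ := by
              rw [Finset.mul_sum]
              exact Finset.sum_congr rfl fun v _ => mul_add _ _ _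
    _ = ∑ v ∈ V, ((∑ z, a ^ (sz g z) * ‖cj g t (W v) z x‖) +
          ∑ z, a ^ (sz g z) * ‖(Cr g x * cj g t (W v)) z (vac g)‖) := by
        rw [Finset.sum_comm]
        exact Finset.sum_congr rfl fun v _ => Finset.sum_add_distrib
    _ ≤ ∑ _v ∈ V, (3 * 2 ^ b * K * a ^ (sz g x) + 3 * 2 ^ b * K * a ^ (sz g x)) :=
        Finset.sum_le_sum fun v _ => add_le_add (h1 v) (h2 v)
    _ = (V.card : ℝ) * (6 * 2 ^ b * K * a ^ (sz g x)) := by
        rw [Finset.sum_const, nsmul_eq_mul]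
        ring
    _ ≤ ((b : ℝ) * sz g x) * (8 * 2 ^ b * K * a ^ (sz g x)) := by
        have h3 : (V.card : ℝ) ≤ (b : ℝ) * sz g x := by exact_mod_cast rel_card hW x
        have h4 : 6 * 2 ^ b * K * a ^ (sz g x) ≤ 8 * 2 ^ b * K * a ^ (sz g x) := by
          gcongr
          norm_num
        exact mul_le_mul h3 h4 (by positivity) (by positivity)
    _ = _ := by ring

end Pool.Agent.KTP
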