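import Mathlib

/-!
# Module Spa: spectral part
`trace_herm`: spectral theorem. `exp_sum_le`: `(1 - (T/m) λ)^(m k) → exp(-k T λ)` (real, finite sum of limits;
`Real.tendsto_one_add_div_pow_exp`). `exists_eig`: diagonal form. `gap_concl`: the right side minus 1 is at most
`C k (1/2)^k` (n, D fixed), the term `i0` is 1, so `exp(-kT(λ_i - E)) ≤ C k (1/2)^k`; if `λ_i - E < log 2 / T` then
`2 exp(-T(λ_i - E)) > 1` has powers at most `C k`, impossible.
-/

set_option autoImplicit false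

namespace Pool.Agent.KTP

open Matrix

variable {ι : Type} [Fintype ι] [DecidableEq ι]

theorem herm_decomp {H : Matrix ι ι ℂ} (hH : H.IsHermitian) : ∃ U U' : Matrix ι ι ℂ,
    U * U' = 1 ∧ U' * U = 1 ∧
    H = U * Matrix.diagonal (fun i => ((hH.eigenvalues i : ℝ) : ℂ)) * U' := by
  refine ⟨(hH.eigenvectorUnitary : Matrix ι ι ℂ), star (hH.eigenvectorUnitary : Matrix ι ι ℂ),
    ?_, ?_, ?_⟩
  · exact Unitary.coe_mul_star_self _
  · exact Unitary.coe_star_mul_self _
  · have h := hH.spectral_theorem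
    rw [Unitary.conjStarAlgAut_apply] at h
    exact h

theorem conj_pow {U U' M : Matrix ι ι ℂ} (h : U' * U = 1) (h' : U * U' = 1) (N : ℕ) :
    (U * M * U') ^ N = U * M ^ N * U' := by
  induction N with
  | zero => simp [h']
  | succ N ih =>
    rw [pow_succ, ih, pow_succ]
    calc U * M ^ N * U' * (U * M * U') = U * M ^ N * (U' * U) * M * U' := by
          simp only [Matrix.mul_assoc]
      _ = U * (M ^ N * M) * U' := by
          rw [h, Matrix.mul_one]
          simp only [Matrix.mul_assoc]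

theorem trace_herm {H : Matrix ι ι ℂ} (hH : H.IsHermitian) (E h : ℝ) (N : ℕ) :
    ((1 - (h : ℂ) • (H - (E : ℂ) • (1 : Matrix ι ι ℂ))) ^ N).trace =
      ((∑ i, (1 - h * (hH.eigenvalues i - E)) ^ N : ℝ) : ℂ) := by
  obtain ⟨U, U', h1, h2, h3⟩ := herm_decomp hH
  have h4 : (1 - (h : ℂ) • (H - (E : ℂ) • (1 : Matrix ι ι ℂ))) =
      U * Matrix.diagonal (fun i => ((1 - h * (hH.eigenvalues i - E) : ℝ) : ℂ)) * U' := by
    have h5 : Matrix.diagonal (fun i => ((1 - h * (hH.eigenvalues i - E) : ℝ) : ℂ)) =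
        1 - (h : ℂ) • (Matrix.diagonal (fun i => ((hH.eigenvalues i : ℝ) : ℂ)) -
          (E : ℂ) • (1 : Matrix ι ι ℂ)) := by
      ext i j
      simp only [Matrix.sub_apply, Matrix.smul_apply, Matrix.diagonal_apply, Matrix.one_apply,
        smul_eq_mul]
      split_ifs
      · push_cast
        ring
      · ring
    rw [h5, Matrix.mul_sub, Matrix.sub_mul, Matrix.mul_one, h1, Matrix.mul_smul, Matrix.smul_mul,
      Matrix.mul_sub, Matrix.sub_mul, Matrix.mul_smul, Matrix.smul_mul, Matrix.mul_one, h1, ← h3]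
  rw [h4, conj_pow h2 h1, Matrix.trace_mul_comm, ← Matrix.mul_assoc, h2, Matrix.one_mul,
    Matrix.diagonal_pow, Matrix.trace_diagonal]
  push_cast
  rfl

theorem exp_sum_le {H : Matrix ι ι ℂ} (hH : H.IsHermitian) (E T C : ℝ) (k : ℕ)
    (h : ∃ m₀ : ℕ, ∀ m : ℕ, m₀ ≤ m → 1 ≤ m →
      ‖((1 - ((T / m : ℝ) : ℂ) • (H - (E : ℂ) • (1 : Matrix ι ι ℂ))) ^ (m * k)).trace‖ ≤ C) :
    ∑ i, Real.exp (-(k * T * (hH.eigenvalues i - E))) ≤ C := by
  obtain ⟨m₀, hm₀⟩ := h
  have hlim : Filter.Tendsto (fun m : ℕ => ∑ i, (1 - (T / m) * (hH.eigenvalues i - E)) ^ (m * k))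
      Filter.atTop (nhds (∑ i, Real.exp (-(k * T * (hH.eigenvalues i - E))))) := by
    apply tendsto_finsetSum
    intro i _
    have h1 := Real.tendsto_one_add_div_pow_exp (-(T * (hH.eigenvalues i - E)))
    have h2 := h1.pow k
    have h3 : Real.exp (-(T * (hH.eigenvalues i - E))) ^ k =
        Real.exp (-(k * T * (hH.eigenvalues i - E))) := by
      rw [← Real.exp_nat_mul]
      congr 1
      ring
    rw [h3] at h2
    refine h2.congr ?_
    intro m
    rw [← pow_mul]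
    congr 1
    ring
  refine le_of_tendsto hlim ?_
  filter_upwards [Filter.eventually_ge_atTop (max m₀ 1)] with m hm
  have h1 := hm₀ m ((le_max_left _ _).trans hm) ((le_max_right _ _).trans hm)
  rw [trace_herm hH, Complex.norm_real, Real.norm_eq_abs] at h1
  exact (le_abs_self _).trans h1

theorem exists_eig {H : Matrix ι ι ℂ} (hH : H.IsHermitian) (E : ℂ) (ψ : ι → ℂ) (h0 : ψ ≠ 0)
    (hψ : H.mulVec ψ = E • ψ) : ∃ i, ((hH.eigenvalues i : ℝ) : ℂ) = E := by
  obtain ⟨U, U', h1, h2, h3⟩ := herm_decomp hH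
  set φ : ι → ℂ := U'.mulVec ψ with hφ
  have hφ0 : φ ≠ 0 := by
    intro h
    apply h0
    have : U.mulVec φ = ψ := by
      rw [hφ, Matrix.mulVec_mulVec, h1, Matrix.one_mulVec]
    rw [← this, h, Matrix.mulVec_zero]
  have h4 : (Matrix.diagonal (fun i => ((hH.eigenvalues i : ℝ) : ℂ))).mulVec φ = E • φ := by
    have h5 : U'.mulVec (H.mulVec ψ) =
        (Matrix.diagonal (fun i => ((hH.eigenvalues i : ℝ) : ℂ))).mulVec φ := by
      rw [hφ, Matrix.mulVec_mulVec, Matrix.mulVec_mulVec]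
      congr 1
      conv_lhs => rw [h3]
      rw [← Matrix.mul_assoc, ← Matrix.mul_assoc, h2, Matrix.one_mul]
    rw [← h5, hψ, Matrix.mulVec_smul]
  obtain ⟨i, hi⟩ := Function.ne_iff.1 hφ0
  refine ⟨i, ?_⟩
  have h6 := congrFun h4 i
  rw [Matrix.mulVec_diagonal] at h6
  simp only [Pi.smul_apply, smul_eq_mul] at h6
  exact mul_right_cancel₀ hi h6

theorem gap_concl (lam : ι → ℝ) (E : ℝ) (i0 : ι) (h0 : lam i0 = E) (T : ℝ) (hT : 0 < T) (n D : ℕ)
    (h : ∀ k : ℕ, 1 ≤ k → ∑ i, Real.exp (-(k * T * (lam i - E))) ≤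
      1 + 2 * k * ((1 + D * (1 / 2 : ℝ) ^ k) ^ n - 1)) :
    ∀ i, i ≠ i0 → Real.log 2 / T ≤ lam i - E := by
  intro i hi
  by_contra hlt
  rw [not_le] at hlt
  set C : ℝ := 2 * ((1 + (D : ℝ)) ^ n * D * n) with hC
  have hC0 : 0 ≤ C := by positivity
  set q : ℝ := 2 * Real.exp (-(T * (lam i - E))) with hq
  have hq1 : 1 < q := by
    have h1 : T * (lam i - E) < Real.log 2 := by
      rw [lt_div_iff₀ hT] at hlt
      linarith
    have h2 : Real.exp (-(Real.log 2)) < Real.exp (-(T * (lam i - E))) :=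
      Real.exp_lt_exp.2 (by linarith)
    rw [Real.exp_neg, Real.exp_log (by norm_num)] at h2
    rw [hq]
    linarith
  -- Bernoulli from above
  have hbin : ∀ x : ℝ, 0 ≤ x → x ≤ D → (1 + x) ^ n - 1 ≤ (1 + (D : ℝ)) ^ n * n * x := by
    intro x hx hxD
    have : ∀ j : ℕ, (1 + x) ^ j - 1 ≤ (1 + (D : ℝ)) ^ j * j * x := by
      intro j
      induction j with
      | zero => simp
      | succ j ih =>
        have h1 : (1 + x) ^ j ≤ (1 + (D : ℝ)) ^ j :=
          pow_le_pow_left₀ (by linarith) (by linarith) j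
        have hD1 : (1 : ℝ) ≤ 1 + (D : ℝ) := by
          have : (0 : ℝ) ≤ D := Nat.cast_nonneg _
          linarith
        have h2 : (1 + (D : ℝ)) ^ j ≤ (1 + (D : ℝ)) ^ (j + 1) :=
          pow_le_pow_right₀ hD1 (Nat.le_succ j)
        have h3 : (0 : ℝ) ≤ (j : ℝ) * x := by positivity
        calc (1 + x) ^ (j + 1) - 1 = ((1 + x) ^ j - 1) + x * (1 + x) ^ j := by ring
          _ ≤ (1 + (D : ℝ)) ^ j * j * x + x * (1 + (D : ℝ)) ^ j :=
              add_le_add ih (mul_le_mul_of_nonneg_left h1 hx)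
          _ = (1 + (D : ℝ)) ^ j * (j * x + x) := by ring
          _ ≤ (1 + (D : ℝ)) ^ (j + 1) * (j * x + x) :=
              mul_le_mul_of_nonneg_right h2 (by linarith)
          _ = (1 + (D : ℝ)) ^ (j + 1) * ((j + 1 : ℕ) : ℝ) * x := by
              push_cast
              ring
    exact this n
  have hkey : ∀ k : ℕ, 1 ≤ k → q ^ k ≤ C * k := by
    intro k hk
    have h1 := h k hk
    have h2 : Real.exp (-(k * T * (lam i0 - E))) + Real.exp (-(k * T * (lam i - E))) ≤
        ∑ i, Real.exp (-(k * T * (lam i - E))) := by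
      rw [← Finset.sum_pair (f := fun i => Real.exp (-(k * T * (lam i - E)))) (Ne.symm hi)]
      apply Finset.sum_le_sum_of_subset_of_nonneg (Finset.subset_univ _)
      intro j _ _
      exact (Real.exp_pos _).le
    have h3 : Real.exp (-(k * T * (lam i0 - E))) = 1 := by
      rw [h0]
      simp
    have h4 : (1 / 2 : ℝ) ^ k ≤ 1 := pow_le_one₀ (by norm_num) (by norm_num)
    have h40 : (0 : ℝ) ≤ (1 / 2 : ℝ) ^ k := by positivity
    have h5 := hbin (D * (1 / 2 : ℝ) ^ k) (by positivity)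
      (mul_le_of_le_one_right (Nat.cast_nonneg _) h4)
    have h6 : Real.exp (-(k * T * (lam i - E))) ≤ C * k * (1 / 2 : ℝ) ^ k := by
      have hk0 : (0 : ℝ) ≤ 2 * k := by positivity
      have h7 := mul_le_mul_of_nonneg_left h5 hk0
      have h8 : 2 * (k : ℝ) * ((1 + (D : ℝ)) ^ n * n * (D * (1 / 2 : ℝ) ^ k)) =
          C * k * (1 / 2 : ℝ) ^ k := by
        rw [hC]
        ring
      linarith
    have h9 : q ^ k = 2 ^ k * Real.exp (-(k * T * (lam i - E))) := by
      rw [hq, mul_pow, ← Real.exp_nat_mul]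
      congr 2
      ring
    rw [h9]
    calc 2 ^ k * Real.exp (-(k * T * (lam i - E))) ≤ 2 ^ k * (C * k * (1 / 2 : ℝ) ^ k) :=
          mul_le_mul_of_nonneg_left h6 (by positivity)
      _ = C * k * ((2 : ℝ) ^ k * (1 / 2 : ℝ) ^ k) := by ring
      _ = C * k := by
          rw [← mul_pow]
          norm_num
  have hlim := tendsto_pow_const_div_const_pow_of_one_lt 1 hq1
  have hlim2 := hlim.const_mul (C + 1)
  rw [mul_zero] at hlim2
  have hev := (hlim2.eventually (gt_mem_nhds (zero_lt_one))).and (Filter.eventually_ge_atTop 1)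
  obtain ⟨k, hk1, hk2⟩ := hev.exists
  have hqk : 0 < q ^ k := by positivity
  have hk := hkey k hk2
  rw [pow_one, ← mul_div_assoc, div_lt_one hqk] at hk1
  have : (0 : ℝ) ≤ (k : ℝ) := Nat.cast_nonneg _
  nlinarith

end Pool.Agent.KTP
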