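import Mathlib
import Pool.Agent.KTP.Df
import Pool.Agent.KTP.Cra

/-!
# Module Sta: Euler steps with growing weight
`κ = δ/2`, `t₁ = 2 log 2/δ`, `h = t₁/m`, `a_j = (1/2) exp(j h κ)`, `a_m = 1`. For `m` with `h En x ≤ 1` for all `x`:
column `x` of `1 - hX = (1 - hN) - h(X - N)` with weight `a_{j+1}`: at most
`(1 - h En x) a_{j+1}^(sz x) + h κ sz x a_{j+1}^(sz x) ≤ (1 - h κ sz x) a_{j+1}^(sz x) ≤ a_j^(sz x)` (En_ge, `1-u ≤ e^-u`).
Induction over `j`: `∑_z a_j^(sz z) ‖(1-hX)^j z x‖ ≤ (1/2)^(sz x)`.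
-/

set_option autoImplicit false

namespace Pool.Agent.KTP

open Matrix

variable {Λ : Type} [Fintype Λ] [DecidableEq Λ] {d : ℕ} {g : Fin d}

/-- weighted column sums of the identity -/
theorem sta_one (a : ℝ) (x : Λ → Fin d) :
    ∑ z, a ^ (sz g z) * ‖(1 : Matrix (Λ → Fin d) (Λ → Fin d) ℂ) z x‖ = a ^ (sz g x) := by
  rw [Finset.sum_eq_single x]
  · simp
  · intro z _ hz
    simp [hz]
  · intro h
    exact absurd (Finset.mem_univ x) h

/-- weighted column sums of a product -/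
theorem sta_mul {a b : ℝ} (ha : 0 ≤ a) (A B : Matrix (Λ → Fin d) (Λ → Fin d) ℂ)
    (hA : ∀ y, ∑ z, a ^ (sz g z) * ‖A z y‖ ≤ b ^ (sz g y)) (x : Λ → Fin d) :
    ∑ z, a ^ (sz g z) * ‖(A * B) z x‖ ≤ ∑ y, b ^ (sz g y) * ‖B y x‖ := by
  calc ∑ z, a ^ (sz g z) * ‖(A * B) z x‖
      ≤ ∑ z, ∑ y, (a ^ (sz g z) * ‖A z y‖) * ‖B y x‖ := by
        apply Finset.sum_le_sum
        intro z _
        rw [Matrix.mul_apply]
        calc a ^ (sz g z) * ‖∑ y, A z y * B y x‖
            ≤ a ^ (sz g z) * ∑ y, ‖A z y * B y x‖ :=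
              mul_le_mul_of_nonneg_left (norm_sum_le _ _) (pow_nonneg ha _)
          _ = ∑ y, (a ^ (sz g z) * ‖A z y‖) * ‖B y x‖ := by
              rw [Finset.mul_sum]
              apply Finset.sum_congr rfl
              intro y _
              rw [norm_mul]
              ring
    _ = ∑ y, (∑ z, a ^ (sz g z) * ‖A z y‖) * ‖B y x‖ := by
        rw [Finset.sum_comm]
        apply Finset.sum_congr rfl
        intro y _
        rw [Finset.sum_mul]
    _ ≤ ∑ y, b ^ (sz g y) * ‖B y x‖ := by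
        apply Finset.sum_le_sum
        intro y _
        exact mul_le_mul_of_nonneg_right (hA y) (norm_nonneg _)

/-- one Euler step -/
theorem sta_step {e : Fin d → ℝ} {δ : ℝ} (he : e g = 0) (hd : ∀ i, i ≠ g → δ ≤ e i)
    (X : Matrix (Λ → Fin d) (Λ → Fin d) ℂ)
    (hX : ∀ a : ℝ, 1 / 2 ≤ a → a ≤ 1 → ∀ x, ∑ z, a ^ (sz g z) * ‖(X - (nn e : Matrix (Λ → Fin d) (Λ → Fin d) ℂ)) z x‖ ≤
      (δ / 2) * (sz g x : ℝ) * a ^ (sz g x)) {h : ℝ} (hh : 0 ≤ h)
    (hEn : ∀ x : Λ → Fin d, h * En e x ≤ 1) {a : ℝ} (ha : 1 / 2 ≤ a) (ha1 : a ≤ 1)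
    (x : Λ → Fin d) :
    ∑ z, a ^ (sz g z) * ‖(1 - ((h : ℝ) : ℂ) • X) z x‖ ≤
      (a * Real.exp (-(h * (δ / 2)))) ^ (sz g x) := by
  have ha0 : 0 ≤ a := by linarith
  have hdec : (1 - ((h : ℝ) : ℂ) • X) = Matrix.diagonal (fun y => ((1 - h * En e y : ℝ) : ℂ)) -
      ((h : ℝ) : ℂ) • (X - (nn e : Matrix (Λ → Fin d) (Λ → Fin d) ℂ)) := by
    ext z y
    simp only [nn, Matrix.sub_apply, Matrix.smul_apply, Matrix.diagonal_apply, Matrix.one_apply,
      smul_eq_mul]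
    split_ifs with hzy
    · push_cast
      rw [hzy]
      ring
    · ring
  have h1 : ∀ z, ‖(1 - ((h : ℝ) : ℂ) • X) z x‖ ≤ (if z = x then (1 - h * En e x) else 0) +
      h * ‖(X - (nn e : Matrix (Λ → Fin d) (Λ → Fin d) ℂ)) z x‖ := by
    intro z
    rw [hdec]
    simp only [Matrix.sub_apply, Matrix.smul_apply, Matrix.diagonal_apply, smul_eq_mul]
    refine (norm_sub_le _ _).trans ?_
    apply add_le_add
    · split_ifs with hzx
      · rw [Complex.norm_real, Real.norm_eq_abs, hzx, abs_of_nonneg]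
        have := hEn x
        linarith
      · simp
    · rw [norm_mul, Complex.norm_real, Real.norm_eq_abs, abs_of_nonneg hh]
  have h2 := hX a ha ha1 x
  have h3 : δ * (sz g x : ℝ) ≤ En e x := En_ge g he hd x
  calc ∑ z, a ^ (sz g z) * ‖(1 - ((h : ℝ) : ℂ) • X) z x‖
      ≤ ∑ z, a ^ (sz g z) * ((if z = x then (1 - h * En e x) else 0) +
        h * ‖(X - (nn e : Matrix (Λ → Fin d) (Λ → Fin d) ℂ)) z x‖) := by
        apply Finset.sum_le_sum
        intro z _
        exact mul_le_mul_of_nonneg_left (h1 z) (pow_nonneg ha0 _)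
    _ = a ^ (sz g x) * (1 - h * En e x) +
        h * ∑ z, a ^ (sz g z) * ‖(X - (nn e : Matrix (Λ → Fin d) (Λ → Fin d) ℂ)) z x‖ := by
        simp only [mul_add]
        rw [Finset.sum_add_distrib, Finset.mul_sum]
        congr 1
        · rw [Finset.sum_eq_single x]
          · simp
          · intro z _ hz
            simp [hz]
          · intro hx
            exact absurd (Finset.mem_univ x) hx
        · apply Finset.sum_congr rfl
          intro z _
          ring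
    _ ≤ a ^ (sz g x) * (1 - h * (δ * (sz g x : ℝ))) +
        h * ((δ / 2) * (sz g x : ℝ) * a ^ (sz g x)) := by
        apply add_le_add
        · apply mul_le_mul_of_nonneg_left _ (pow_nonneg ha0 _)
          have := mul_le_mul_of_nonneg_left h3 hh
          linarith
        · exact mul_le_mul_of_nonneg_left h2 hh
    _ = a ^ (sz g x) * (1 - h * (δ / 2) * (sz g x : ℝ)) := by ring
    _ ≤ a ^ (sz g x) * Real.exp (-(h * (δ / 2))) ^ (sz g x) := by
        apply mul_le_mul_of_nonneg_left _ (pow_nonneg ha0 _)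
        rw [← Real.exp_nat_mul]
        have := Real.add_one_le_exp ((sz g x : ℝ) * (-(h * (δ / 2))))
        linarith
    _ = (a * Real.exp (-(h * (δ / 2)))) ^ (sz g x) := by rw [mul_pow]

theorem step_bd {e : Fin d → ℝ} {δ : ℝ} (hδ : 0 < δ) (he : e g = 0) (hd : ∀ i, i ≠ g → δ ≤ e i)
    (X : Matrix (Λ → Fin d) (Λ → Fin d) ℂ)
    (hX : ∀ a : ℝ, 1 / 2 ≤ a → a ≤ 1 → ∀ x, ∑ z, a ^ (sz g z) * ‖(X - (nn e : Matrix (Λ → Fin d) (Λ → Fin d) ℂ)) z x‖ ≤
      (δ / 2) * (sz g x : ℝ) * a ^ (sz g x)) :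
    ∃ m₀ : ℕ, ∀ m : ℕ, m₀ ≤ m → 1 ≤ m → ∀ x,
      ∑ z, ‖((1 - ((2 * Real.log 2 / δ / m : ℝ) : ℂ) • X) ^ m) z x‖ ≤ (1 / 2 : ℝ) ^ (sz g x) := by
  set t₁ : ℝ := 2 * Real.log 2 / δ with ht₁
  have hlog : 0 < Real.log 2 := Real.log_pos (by norm_num)
  have ht₁0 : 0 ≤ t₁ := by positivity
  refine ⟨⌈∑ x : Λ → Fin d, t₁ * |En e x|⌉₊, fun m hm hm1 x => ?_⟩
  have hm0 : (0 : ℝ) < m := by exact_mod_cast hm1
  set h : ℝ := t₁ / m with hh
  have hh0 : 0 ≤ h := by positivity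
  have hEn : ∀ y : Λ → Fin d, h * En e y ≤ 1 := by
    intro y
    have h1 : t₁ * |En e y| ≤ ∑ x : Λ → Fin d, t₁ * |En e x| :=
      Finset.single_le_sum (f := fun x : Λ → Fin d => t₁ * |En e x|)
        (fun x _ => mul_nonneg ht₁0 (abs_nonneg _)) (Finset.mem_univ y)
    have h2 : ∑ x : Λ → Fin d, t₁ * |En e x| ≤ (m : ℝ) :=
      (Nat.le_ceil _).trans (by exact_mod_cast hm)
    rw [hh, div_mul_eq_mul_div, div_le_one hm0]
    exact (mul_le_mul_of_nonneg_left (le_abs_self _) ht₁0).trans (h1.trans h2)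
  have hmk : (m : ℝ) * (h * (δ / 2)) = Real.log 2 := by
    rw [hh, ht₁]
    field_simp
  have key : ∀ j : ℕ, j ≤ m → ∀ x : Λ → Fin d,
      ∑ z, (1 / 2 * Real.exp ((j : ℝ) * (h * (δ / 2)))) ^ (sz g z) *
        ‖((1 - ((h : ℝ) : ℂ) • X) ^ j) z x‖ ≤ (1 / 2 : ℝ) ^ (sz g x) := by
    intro j
    induction j with
    | zero =>
      intro _ x
      rw [pow_zero, sta_one]
      simp
    | succ j ih =>
      intro hj x
      have hjm : ((j + 1 : ℕ) : ℝ) ≤ m := by exact_mod_cast hj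
      have hk0 : 0 ≤ h * (δ / 2) := by positivity
      have ha : 1 / 2 ≤ 1 / 2 * Real.exp (((j + 1 : ℕ) : ℝ) * (h * (δ / 2))) := by
        have : 1 ≤ Real.exp (((j + 1 : ℕ) : ℝ) * (h * (δ / 2))) :=
          Real.one_le_exp (mul_nonneg (Nat.cast_nonneg _) hk0)
        linarith
      have ha1 : 1 / 2 * Real.exp (((j + 1 : ℕ) : ℝ) * (h * (δ / 2))) ≤ 1 := by
        have h1 : ((j + 1 : ℕ) : ℝ) * (h * (δ / 2)) ≤ Real.log 2 := by
          rw [← hmk]
          exact mul_le_mul_of_nonneg_right hjm hk0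
        have h2 : Real.exp (((j + 1 : ℕ) : ℝ) * (h * (δ / 2))) ≤ 2 := by
          calc Real.exp (((j + 1 : ℕ) : ℝ) * (h * (δ / 2))) ≤ Real.exp (Real.log 2) :=
                Real.exp_le_exp.2 h1
            _ = 2 := Real.exp_log (by norm_num)
        linarith
      have hs := sta_step he hd X hX hh0 hEn ha ha1
      have heq : 1 / 2 * Real.exp (((j + 1 : ℕ) : ℝ) * (h * (δ / 2))) *
          Real.exp (-(h * (δ / 2))) = 1 / 2 * Real.exp ((j : ℝ) * (h * (δ / 2))) := by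
        rw [mul_assoc, ← Real.exp_add]
        congr 2
        push_cast
        ring
      rw [heq] at hs
      rw [pow_succ']
      exact (sta_mul (by linarith) _ _ hs x).trans (ih (by omega) x)
  have hfin := key m le_rfl x
  rw [hmk, Real.exp_log (by norm_num : (0 : ℝ) < 2)] at hfin
  norm_num at hfin
  simpa using hfin

end Pool.Agent.KTP
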