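import Mathlib

/-!
# Module Tca: traces of powers and column sums
`trace_pow_le`: induction on the set `s` of indices kept, the index with the largest `w` last.
`trace_vac_le`: `P = [[1, *],[0, P']]` with respect to `o`, so `tr P^k = 1 + tr P'^k`,
`P' i j = if i ≠ o ∧ j ≠ o then P i j else 0`, and `‖tr P'^k‖ ≤ tr |P'|^k`.
-/

set_option autoImplicit false

namespace Pool.Agent.KTP

open Matrix

variable {ι : Type} [Fintype ι] [DecidableEq ι]

private theorem pow_nonneg' {A : Matrix ι ι ℝ} (hA : ∀ i j, 0 ≤ A i j) (k : ℕ) :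
    ∀ i j, 0 ≤ (A ^ k) i j := by
  induction k with
  | zero =>
    intro i j
    rw [pow_zero, Matrix.one_apply]
    split_ifs <;> norm_num
  | succ k ih =>
    intro i j
    rw [pow_succ, Matrix.mul_apply]
    exact Finset.sum_nonneg fun u _ => mul_nonneg (ih i u) (hA u j)

private theorem pow_mono' {A B : Matrix ι ι ℝ} (hB : ∀ i j, 0 ≤ B i j) (hAB : ∀ i j, B i j ≤ A i j)
    (k : ℕ) : ∀ i j, (B ^ k) i j ≤ (A ^ k) i j := by
  have hA : ∀ i j, 0 ≤ A i j := fun i j => (hB i j).trans (hAB i j)
  induction k with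
  | zero =>
    intro i j
    rw [pow_zero, pow_zero]
  | succ k ih =>
    intro i j
    rw [pow_succ, pow_succ, Matrix.mul_apply, Matrix.mul_apply]
    exact Finset.sum_le_sum fun u _ =>
      mul_le_mul (ih i u) (hAB u j) (hB u j) (pow_nonneg' hA k i u)

private theorem colsum_pow {A : Matrix ι ι ℝ} (hA : ∀ i j, 0 ≤ A i j) (c : ℝ) (hc : 0 ≤ c)
    (hw : ∀ j, ∑ i, A i j ≤ c) (k : ℕ) : ∀ j, ∑ i, (A ^ k) i j ≤ c ^ k := by
  induction k with
  | zero =>
    intro j
    rw [pow_zero, pow_zero]
    simp [Matrix.one_apply]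
  | succ k ih =>
    intro j
    calc ∑ i, (A ^ (k + 1)) i j = ∑ u, (∑ i, (A ^ k) i u) * A u j := by
          simp only [pow_succ, Matrix.mul_apply]
          rw [Finset.sum_comm]
          exact Finset.sum_congr rfl fun u _ => (Finset.sum_mul _ _ _).symm
      _ ≤ ∑ u, c ^ k * A u j :=
          Finset.sum_le_sum fun u _ => mul_le_mul_of_nonneg_right (ih u) (hA u j)
      _ = c ^ k * ∑ u, A u j := (Finset.mul_sum _ _ _).symm
      _ ≤ c ^ k * c := mul_le_mul_of_nonneg_left (hw j) (pow_nonneg hc k)
      _ = c ^ (k + 1) := (pow_succ c k).symm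

omit [DecidableEq ι] in
private theorem trace_mul_mono {X Y Z : Matrix ι ι ℝ} (hX : ∀ i j, 0 ≤ X i j)
    (h : ∀ i j, Y i j ≤ Z i j) : (X * Y).trace ≤ (X * Z).trace := by
  unfold Matrix.trace
  refine Finset.sum_le_sum fun i _ => ?_
  rw [Matrix.diag_apply, Matrix.diag_apply, Matrix.mul_apply, Matrix.mul_apply]
  exact Finset.sum_le_sum fun u _ => mul_le_mul_of_nonneg_left (h u i) (hX i u)

private theorem tele {A B : Matrix ι ι ℝ} (hB : ∀ i j, 0 ≤ B i j) (hAB : ∀ i j, B i j ≤ A i j)
    (k : ℕ) : ∀ m : ℕ, ((A ^ (k + 1) - B ^ (k + 1)) * A ^ m).trace ≤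
      ((k : ℝ) + 1) * (A ^ (k + m) * (A - B)).trace := by
  have hA : ∀ i j, 0 ≤ A i j := fun i j => (hB i j).trans (hAB i j)
  induction k with
  | zero =>
    intro m
    rw [zero_add, pow_one, pow_one, Matrix.trace_mul_comm, zero_add, Nat.cast_zero, zero_add,
      one_mul]
  | succ k ih =>
    intro m
    have e : (A ^ (k + 1 + 1) - B ^ (k + 1 + 1)) * A ^ m =
        A ^ (k + 1) * (A - B) * A ^ m + (A ^ (k + 1) - B ^ (k + 1)) * (B * A ^ m) := by
      rw [pow_succ A (k + 1), pow_succ B (k + 1)]
      noncomm_ring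
    have h1 : (A ^ (k + 1) * (A - B) * A ^ m).trace = (A ^ (k + 1 + m) * (A - B)).trace := by
      rw [Matrix.trace_mul_comm, ← mul_assoc, ← pow_add, Nat.add_comm m (k + 1)]
    have h2 : ((A ^ (k + 1) - B ^ (k + 1)) * (B * A ^ m)).trace ≤
        ((A ^ (k + 1) - B ^ (k + 1)) * A ^ (m + 1)).trace := by
      refine trace_mul_mono (fun i j => ?_) fun i j => ?_
      · rw [Matrix.sub_apply]
        exact sub_nonneg.2 (pow_mono' hB hAB (k + 1) i j)
      · rw [pow_succ', Matrix.mul_apply, Matrix.mul_apply]
        exact Finset.sum_le_sum fun u _ =>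
          mul_le_mul_of_nonneg_right (hAB i u) (pow_nonneg' hA m u j)
    have h3 := ih (m + 1)
    rw [show k + (m + 1) = k + 1 + m by ring] at h3
    rw [e, Matrix.trace_add, h1]
    push_cast
    linarith

private theorem step_le {A B : Matrix ι ι ℝ} (hB : ∀ i j, 0 ≤ B i j) (hAB : ∀ i j, B i j ≤ A i j)
    (x : ι) (hx : ∀ u v, (A - B) u v ≤ (if u = x then A u v else 0) + (if v = x then A u v else 0))
    (k : ℕ) : (A ^ (k + 1)).trace ≤ (B ^ (k + 1)).trace +
      2 * ((k : ℝ) + 1) * (A ^ (k + 1)) x x := by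
  have hA : ∀ i j, 0 ≤ A i j := fun i j => (hB i j).trans (hAB i j)
  have h1 := tele hB hAB k 0
  rw [pow_zero, mul_one, add_zero, Matrix.trace_sub] at h1
  have h2 : (A ^ k * (A - B)).trace ≤ 2 * (A ^ (k + 1)) x x := by
    have h3 : (A ^ k * (A - B)).trace ≤ (A ^ k * Matrix.of fun u v =>
        (if u = x then A u v else 0) + (if v = x then A u v else 0)).trace :=
      trace_mul_mono (pow_nonneg' hA k) fun i j => hx i j
    refine h3.trans (le_of_eq ?_)
    unfold Matrix.trace
    simp only [Matrix.diag_apply, Matrix.mul_apply, Matrix.of_apply, mul_add, mul_ite, mul_zero,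
      Finset.sum_add_distrib, Finset.sum_ite_eq', Finset.mem_univ, if_true]
    rw [two_mul]
    congr 1
    · rw [pow_succ', Matrix.mul_apply]
      exact Finset.sum_congr rfl fun u _ => mul_comm _ _
    · rw [pow_succ, Matrix.mul_apply, Finset.sum_comm]
      simp
  have h4 : 0 ≤ (k : ℝ) + 1 := by positivity
  nlinarith [mul_le_mul_of_nonneg_left h2 h4]

/-- restriction to a set of indices -/
private def Rs (A : Matrix ι ι ℝ) (s : Finset ι) : Matrix ι ι ℝ :=
  Matrix.of fun i j => if i ∈ s ∧ j ∈ s then A i j else 0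

theorem trace_pow_le (A : Matrix ι ι ℝ) (hA : ∀ i j, 0 ≤ A i j) (w : ι → ℝ)
    (hw : ∀ j, ∑ i, A i j ≤ w j) (k : ℕ) (hk : 1 ≤ k) :
    (A ^ k).trace ≤ 2 * k * ∑ j, (w j) ^ k := by
  obtain ⟨n, rfl⟩ : ∃ n, k = n + 1 := ⟨k - 1, by omega⟩
  have hR0 : ∀ s i j, 0 ≤ Rs A s i j := by
    intro s i j
    simp only [Rs, Matrix.of_apply]
    split_ifs
    · exact hA i j
    · exact le_rfl
  have key : ∀ s : Finset ι, ((Rs A s) ^ (n + 1)).trace ≤
      2 * ((n + 1 : ℕ) : ℝ) * ∑ j ∈ s, (w j) ^ (n + 1) := by
    intro s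
    induction s using Finset.induction_on_max_value w with
    | empty =>
      have : Rs A ∅ = 0 := by
        ext i j
        simp [Rs]
      rw [this, zero_pow (by omega)]
      simp
    | insert x s hxs hmax ih =>
      have hwx : 0 ≤ w x := (Finset.sum_nonneg fun i _ => hA i x).trans (hw x)
      have h1 := step_le (A := Rs A (insert x s)) (B := Rs A s) (hR0 s) (by
        intro i j
        simp only [Rs, Matrix.of_apply]
        by_cases h : i ∈ s ∧ j ∈ s
        · rw [if_pos h, if_pos ⟨Finset.mem_insert_of_mem h.1, Finset.mem_insert_of_mem h.2⟩]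
        · rw [if_neg h]
          split_ifs
          · exact hA i j
          · exact le_rfl) x (by
        intro u v
        simp only [Rs, Matrix.of_apply, Matrix.sub_apply]
        have hn := hA u v
        by_cases hu : u = x
        · rw [if_pos hu]
          subst hu
          have : ¬ (u ∈ s ∧ v ∈ s) := fun h => hxs h.1
          rw [if_neg this, sub_zero]
          have h0 : 0 ≤ (if v = u then (if u ∈ insert u s ∧ v ∈ insert u s then A u v else 0)
              else 0) := by
            split_ifs <;> first | exact hn | exact le_rfl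
          linarith
        · by_cases hv : v = x
          · subst hv
            rw [if_neg hu, if_pos rfl, zero_add]
            have : ¬ (u ∈ s ∧ v ∈ s) := fun h => hxs h.2
            rw [if_neg this, sub_zero]
          · rw [if_neg hu, if_neg hv, add_zero]
            have : (u ∈ insert x s ∧ v ∈ insert x s) ↔ (u ∈ s ∧ v ∈ s) := by
              rw [Finset.mem_insert, Finset.mem_insert]
              constructor
              · rintro ⟨h1, h2⟩
                exact ⟨h1.resolve_left hu, h2.resolve_left hv⟩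
              · rintro ⟨h1, h2⟩
                exact ⟨Or.inr h1, Or.inr h2⟩
            simp only [this, sub_self, le_refl]) n
      have h2 : ((Rs A (insert x s)) ^ (n + 1)) x x ≤ (w x) ^ (n + 1) := by
        have hcol : ∀ j, ∑ i, Rs A (insert x s) i j ≤ w x := by
          intro j
          by_cases hj : j ∈ insert x s
          · have hwj : w j ≤ w x := by
              rcases Finset.mem_insert.1 hj with h | h
              · rw [h]
              · exact hmax j h
            refine le_trans (Finset.sum_le_sum fun i _ => ?_) ((hw j).trans hwj)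
            simp only [Rs, Matrix.of_apply]
            split_ifs
            · exact le_rfl
            · exact hA i j
          · have : ∀ i, Rs A (insert x s) i j = 0 := by
              intro i
              simp only [Rs, Matrix.of_apply]
              exact if_neg fun h => hj h.2
            rw [Finset.sum_congr rfl fun i _ => this i]
            simpa using hwx
        have h3 := colsum_pow (hR0 (insert x s)) (w x) hwx hcol (n + 1) x
        refine le_trans ?_ h3
        exact Finset.single_le_sum (f := fun i => ((Rs A (insert x s)) ^ (n + 1)) i x)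
          (fun i _ => pow_nonneg' (hR0 _) _ i x) (Finset.mem_univ x)
      rw [Finset.sum_insert hxs]
      have h4 : 0 ≤ 2 * ((n : ℝ) + 1) := by positivity
      have h5 := mul_le_mul_of_nonneg_left h2 h4
      push_cast at ih ⊢
      linarith
  have h := key Finset.univ
  have e : Rs A Finset.univ = A := by
    ext i j
    simp [Rs]
  rwa [e] at h

theorem trace_vac_le (P : Matrix ι ι ℂ) (o : ι) (hP : ∀ i, P i o = if i = o then 1 else 0)
    (w : ι → ℝ) (hw : ∀ j, j ≠ o → ∑ i, ‖P i j‖ ≤ w j) (k : ℕ) (hk : 1 ≤ k) :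
    ‖(P ^ k).trace‖ ≤ 1 + 2 * k * ∑ j ∈ Finset.univ.erase o, (w j) ^ k := by
  set P' : Matrix ι ι ℂ := Matrix.of fun i j => if i ≠ o ∧ j ≠ o then P i j else 0 with hP'
  set Q : Matrix ι ι ℝ := Matrix.of fun i j => ‖P' i j‖ with hQ
  have c1 : ∀ m i, (P ^ m) i o = if i = o then 1 else 0 := by
    intro m
    induction m with
    | zero =>
      intro i
      rw [pow_zero, Matrix.one_apply]
    | succ m ih =>
      intro i
      rw [pow_succ, Matrix.mul_apply]
      simp only [hP, mul_ite, mul_one, mul_zero, Finset.sum_ite_eq', Finset.mem_univ, if_true]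
      exact ih i
  have c2 : ∀ m i j, i ≠ o → j ≠ o → (P ^ m) i j = (P' ^ m) i j := by
    intro m
    induction m with
    | zero =>
      intro i j _ _
      rw [pow_zero, pow_zero]
    | succ m ih =>
      intro i j hi hj
      rw [pow_succ, pow_succ, Matrix.mul_apply, Matrix.mul_apply]
      refine Finset.sum_congr rfl fun u _ => ?_
      by_cases hu : u = o
      · subst hu
        rw [c1 m i, if_neg hi, zero_mul]
        have : P' u j = 0 := by
          rw [hP', Matrix.of_apply, if_neg fun h => h.1 rfl]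
        rw [this, mul_zero]
      · rw [ih i u hi hu]
        have : P' u j = P u j := by
          rw [hP', Matrix.of_apply, if_pos ⟨hu, hj⟩]
        rw [this]
  obtain ⟨n, rfl⟩ : ∃ n, k = n + 1 := ⟨k - 1, by omega⟩
  have c3 : (P' ^ (n + 1)) o o = 0 := by
    rw [pow_succ', Matrix.mul_apply]
    refine Finset.sum_eq_zero fun u _ => ?_
    have : P' o u = 0 := by
      rw [hP', Matrix.of_apply, if_neg fun h => h.1 rfl]
    rw [this, zero_mul]
  have htr : (P ^ (n + 1)).trace = 1 + (P' ^ (n + 1)).trace := by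
    unfold Matrix.trace
    rw [← Finset.add_sum_erase _ _ (Finset.mem_univ o),
      ← Finset.add_sum_erase _ (P' ^ (n + 1)).diag (Finset.mem_univ o)]
    simp only [Matrix.diag_apply]
    rw [c1, if_pos rfl, c3, zero_add]
    congr 1
    refine Finset.sum_congr rfl fun i hi => ?_
    rw [Finset.mem_erase] at hi
    exact c2 _ i i hi.1 hi.1
  have c4 : ∀ m i j, ‖(P' ^ m) i j‖ ≤ (Q ^ m) i j := by
    intro m
    induction m with
    | zero =>
      intro i j
      rw [pow_zero, pow_zero, Matrix.one_apply, Matrix.one_apply]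
      split_ifs <;> simp
    | succ m ih =>
      intro i j
      rw [pow_succ, pow_succ, Matrix.mul_apply, Matrix.mul_apply]
      refine (norm_sum_le _ _).trans (Finset.sum_le_sum fun u _ => ?_)
      rw [norm_mul]
      exact mul_le_mul_of_nonneg_right (ih i u) (norm_nonneg _)
  have c5 : ‖(P' ^ (n + 1)).trace‖ ≤ (Q ^ (n + 1)).trace := by
    unfold Matrix.trace
    exact (norm_sum_le _ _).trans (Finset.sum_le_sum fun i _ => c4 _ i i)
  have c6 := trace_pow_le Q (fun i j => by rw [hQ, Matrix.of_apply]; exact norm_nonneg _) (fun j => if j = o then 0 else w j) (by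
    intro j
    by_cases hj : j = o
    · simp only [hj, if_true]
      refine le_of_eq (Finset.sum_eq_zero fun i _ => ?_)
      rw [hQ, Matrix.of_apply, hP', Matrix.of_apply, if_neg fun h => h.2 rfl, norm_zero]
    · simp only [hj, if_false]
      refine le_trans (Finset.sum_le_sum fun i _ => ?_) (hw j hj)
      rw [hQ, Matrix.of_apply, hP', Matrix.of_apply]
      split_ifs
      · exact le_rfl
      · rw [norm_zero]
        exact norm_nonneg _) (n + 1) hk
  have c7 : ∑ j, (if j = o then 0 else w j) ^ (n + 1) =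
      ∑ j ∈ Finset.univ.erase o, (w j) ^ (n + 1) := by
    rw [← Finset.add_sum_erase _ _ (Finset.mem_univ o)]
    simp only [if_true]
    rw [zero_pow (by omega), zero_add]
    refine Finset.sum_congr rfl fun i hi => ?_
    rw [if_neg (Finset.ne_of_mem_erase hi)]
  rw [c7] at c6
  rw [htr]
  calc ‖1 + (P' ^ (n + 1)).trace‖ ≤ ‖(1 : ℂ)‖ + ‖(P' ^ (n + 1)).trace‖ := norm_add_le _ _
    _ ≤ 1 + _ := by
        rw [norm_one]
        linarith [c5.trans c6]

end Pool.Agent.KTP
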