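import Mathlib
import Pool.Agent.KTP.Fxa
import Pool.Agent.KTP.Rba
import Pool.Agent.KTP.Sta
import Pool.Agent.KTP.Tca
import Pool.Agent.KTP.Spa

/-!
# Module Coa: assembly of the core
-/

set_option autoImplicit false

namespace Pool.Agent.KTP

open Matrix

section aux

variable {ι : Type} [Fintype ι] [DecidableEq ι]

theorem col_pow (A : Matrix ι ι ℂ) (o : ι) (hA : ∀ z, A z o = if z = o then 1 else 0) (m : ℕ)
    (z : ι) : (A ^ m) z o = if z = o then 1 else 0 := by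
  induction m with
  | zero => rw [pow_zero, Matrix.one_apply]
  | succ m ih =>
    rw [pow_succ, Matrix.mul_apply, Finset.sum_eq_single o]
    · rw [hA o, if_pos rfl, mul_one, ih]
    · intro w _ hw; rw [hA w, if_neg hw, mul_zero]
    · intro h; exact absurd (Finset.mem_univ _) h

theorem conj_pow' (Y Y' A : Matrix ι ι ℂ) (h1 : Y * Y' = 1) (h2 : Y' * Y = 1) (N : ℕ) :
    (Y * A * Y') ^ N = Y * A ^ N * Y' := by
  induction N with
  | zero => rw [pow_zero, pow_zero, mul_one, h1]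
  | succ N ih =>
    rw [pow_succ, ih, pow_succ]
    calc Y * A ^ N * Y' * (Y * A * Y') = Y * A ^ N * (Y' * Y) * A * Y' := by
          simp only [Matrix.mul_assoc]
      _ = Y * (A ^ N * A) * Y' := by rw [h2, Matrix.mul_one, ← Matrix.mul_assoc Y]

theorem trace_conj' (Y Y' A : Matrix ι ι ℂ) (h2 : Y' * Y = 1) :
    (Y * A * Y').trace = A.trace := by
  rw [Matrix.trace_mul_comm, ← Matrix.mul_assoc, h2, Matrix.one_mul]

end aux

section sums

variable {Λ : Type} [Fintype Λ] [DecidableEq Λ] {d : ℕ}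

theorem sum_sz (g : Fin d) (q : ℝ) :
    ∑ x : Λ → Fin d, q ^ (sz g x) = (1 + ((d : ℝ) - 1) * q) ^ (Fintype.card Λ) := by
  have h1 : ∀ x : Λ → Fin d, q ^ (sz g x) = ∏ v, (if x v = g then 1 else q) := by
    intro x
    rw [Finset.prod_ite, Finset.prod_const_one, one_mul, Finset.prod_const]
    rfl
  have h2 : ∑ i : Fin d, (if i = g then (1 : ℝ) else q) = 1 + ((d : ℝ) - 1) * q := by
    rw [← Finset.add_sum_erase _ _ (Finset.mem_univ g), if_pos rfl]
    congr 1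
    rw [Finset.sum_congr rfl (g := fun _ => q)
      (fun i hi => by rw [if_neg (Finset.ne_of_mem_erase hi)])]
    rw [Finset.sum_const, Finset.card_erase_of_mem (Finset.mem_univ g), Finset.card_univ,
      Fintype.card_fin, nsmul_eq_mul]
    have : 1 ≤ d := Nat.one_le_iff_ne_zero.2 (by rintro rfl; exact g.elim0)
    push_cast [Nat.cast_sub this]
    ring
  calc ∑ x : Λ → Fin d, q ^ (sz g x) = ∑ x : Λ → Fin d, ∏ v, (if x v = g then (1 : ℝ) else q) :=
        Finset.sum_congr rfl fun x _ => h1 x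
    _ = ∏ _v : Λ, ∑ i : Fin d, (if i = g then (1 : ℝ) else q) := by
        rw [Finset.prod_univ_sum, Fintype.piFinset_univ]
    _ = (1 + ((d : ℝ) - 1) * q) ^ (Fintype.card Λ) := by
        rw [Finset.prod_congr rfl (fun _ _ => h2), Finset.prod_const, Finset.card_univ]

theorem sum_sz_le (g : Fin d) (k : ℕ) :
    ∑ x ∈ Finset.univ.erase (vac g : Λ → Fin d), ((1 / 2 : ℝ) ^ (sz g x)) ^ k ≤
      (1 + d * (1 / 2 : ℝ) ^ k) ^ (Fintype.card Λ) - 1 := by
  have h1 : ∀ x : Λ → Fin d, ((1 / 2 : ℝ) ^ (sz g x)) ^ k = ((1 / 2 : ℝ) ^ k) ^ (sz g x) := by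
    intro x; rw [← pow_mul, ← pow_mul, mul_comm]
  have h2 := Finset.add_sum_erase Finset.univ (fun x : Λ → Fin d => ((1 / 2 : ℝ) ^ k) ^ (sz g x))
    (Finset.mem_univ (vac g))
  have h3 : sz g (vac g : Λ → Fin d) = 0 := sz_vac g
  simp only [h3, pow_zero] at h2
  rw [Finset.sum_congr rfl (fun x _ => h1 x)]
  rw [sum_sz] at h2
  have hd1 : (1 : ℝ) ≤ d := by
    have : 1 ≤ d := Nat.one_le_iff_ne_zero.2 (by rintro rfl; exact g.elim0)
    exact_mod_cast this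
  have hq : (0 : ℝ) ≤ (1 / 2 : ℝ) ^ k := by positivity
  have h4 : (1 + ((d : ℝ) - 1) * (1 / 2 : ℝ) ^ k) ^ (Fintype.card Λ) ≤
      (1 + d * (1 / 2 : ℝ) ^ k) ^ (Fintype.card Λ) := by
    apply pow_le_pow_left₀
    · have : 0 ≤ ((d : ℝ) - 1) * (1 / 2 : ℝ) ^ k := mul_nonneg (by linarith) hq
      linarith
    · nlinarith
  linarith

end sums

variable {Λ : Type} [Fintype Λ] [DecidableEq Λ] [AddCommGroup Λ] {d : ℕ} {g : Fin d}
variable {W : Λ → Matrix (Λ → Fin d) (Λ → Fin d) ℂ} {Bx : Λ → Finset Λ} {b : ℕ} {K : ℝ}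

theorem core (hW : LocFam g W Bx b K) (hK : 0 ≤ K) {e : Fin d → ℝ} {δ : ℝ} (hδ : 0 < δ)
    (he : e g = 0) (hd : ∀ i, i ≠ g → δ ≤ e i) (hKs : K ≤ δ / (64 * (b + 1) * 2 ^ b))
    {H Y Y' : Matrix (Λ → Fin d) (Λ → Fin d) ℂ} (hH : H.IsHermitian) (h1 : Y * Y' = 1)
    (h2 : Y' * Y = 1) (c : ℂ)
    (hHY : H = Y * (c • (1 : Matrix (Λ → Fin d) (Λ → Fin d) ℂ) + nn e + ∑ v, W v) * Y') :
    ∃ i0, (∀ i, i ≠ i0 → hH.eigenvalues i0 + δ / 2 ≤ hH.eigenvalues i) ∧
      ∀ k : ℕ, 1 ≤ k → ∑ i ∈ Finset.univ.erase i0,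
        Real.exp (-(k * (2 * Real.log 2 / δ) * (hH.eigenvalues i - hH.eigenvalues i0))) ≤
          2 * k * ((1 + d * (1 / 2 : ℝ) ^ k) ^ (Fintype.card Λ) - 1) := by
  have h2b : (1 : ℝ) ≤ 2 ^ b := one_le_pow₀ (by norm_num)
  have hb0 : (0 : ℝ) ≤ b := Nat.cast_nonneg b
  have hK1 : K ≤ δ / (64 * (b + 1)) := by
    refine hKs.trans ?_
    apply div_le_div_of_nonneg_left hδ.le (by positivity)
    nlinarith
  obtain ⟨t, hI, ht0, hn, hs⟩ := exists_sol hW hK hδ he hd hK1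
  set G : Matrix (Λ → Fin d) (Λ → Fin d) ℂ := nn e + ∑ v, W v with hG
  set E' : ℂ := gE g W t with hE'
  set X : Matrix (Λ → Fin d) (Λ → Fin d) ℂ := cj g t (G - E' • 1) with hX
  have hXv : ∀ z, X z (vac g) = 0 := rel_vac hW he ht0 hs
  have hη : 8 * b * 2 ^ b * K ≤ δ / 2 := by
    rw [le_div_iff₀ (by positivity)] at hKs
    have h3 : 0 ≤ (2 : ℝ) ^ b * K := by positivity
    nlinarith
  have hXb : ∀ a : ℝ, 1 / 2 ≤ a → a ≤ 1 → ∀ x, ∑ z, a ^ (sz g z) *
      ‖(X - (nn e : Matrix (Λ → Fin d) (Λ → Fin d) ℂ)) z x‖ ≤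
      (δ / 2) * (sz g x : ℝ) * a ^ (sz g x) := by
    intro a ha ha1 x
    refine (rel_bd hW hK he hI ht0 hn hs ha ha1 x).trans ?_
    have : 0 ≤ (sz g x : ℝ) * a ^ (sz g x) := by
      have : 0 ≤ a := by linarith
      positivity
    rw [mul_assoc, mul_assoc (δ / 2)]
    exact mul_le_mul_of_nonneg_right hη this
  -- the ground state
  set ψ0 : (Λ → Fin d) → ℂ := fun z => NormedSpace.exp (cre g t) z (vac g) with hψ0
  have hψ0ne : ψ0 ≠ 0 := exp_vac_ne g t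
  have hGX : G - E' • (1 : Matrix (Λ → Fin d) (Λ → Fin d) ℂ) =
      NormedSpace.exp (cre g t) * X * NormedSpace.exp (-(cre g t)) := by
    rw [hX]
    unfold cj
    calc G - E' • (1 : Matrix (Λ → Fin d) (Λ → Fin d) ℂ)
        = (NormedSpace.exp (cre g t) * NormedSpace.exp (-(cre g t))) * (G - E' • 1) *
          (NormedSpace.exp (cre g t) * NormedSpace.exp (-(cre g t))) := by
          rw [exp_mul_exp_neg, Matrix.one_mul, Matrix.mul_one]
      _ = _ := by simp only [Matrix.mul_assoc]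
  have hGψ : (G - E' • (1 : Matrix (Λ → Fin d) (Λ → Fin d) ℂ)).mulVec ψ0 = 0 := by
    have h3 : (G - E' • (1 : Matrix (Λ → Fin d) (Λ → Fin d) ℂ)) * NormedSpace.exp (cre g t) =
        NormedSpace.exp (cre g t) * X := by
      rw [hGX, Matrix.mul_assoc, exp_neg_mul_exp, Matrix.mul_one]
    funext z
    have h4 := congrFun (congrFun h3 z) (vac g)
    rw [Matrix.mul_apply, Matrix.mul_apply] at h4
    show ∑ w, (G - E' • (1 : Matrix (Λ → Fin d) (Λ → Fin d) ℂ)) z w * ψ0 w = 0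
    rw [hψ0]
    rw [h4]
    exact Finset.sum_eq_zero fun w _ => by rw [hXv w, mul_zero]
  have hHY2 : ∀ u : ℂ, H - (c + u) • (1 : Matrix (Λ → Fin d) (Λ → Fin d) ℂ) =
      Y * (G - u • 1) * Y' := by
    intro u
    rw [hHY]
    have h3 : Y * (G - u • (1 : Matrix (Λ → Fin d) (Λ → Fin d) ℂ)) * Y' =
        Y * (c • (1 : Matrix (Λ → Fin d) (Λ → Fin d) ℂ) + nn e + ∑ v, W v) * Y' -
          (c + u) • (Y * Y') := by
      rw [hG]
      simp only [Matrix.mul_sub, Matrix.mul_add, Matrix.sub_mul, Matrix.add_mul, Matrix.mul_smul,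
        Matrix.smul_mul, Matrix.mul_one, add_smul]
      abel
    rw [h3, h1]
  have hHψ : H.mulVec (Y.mulVec ψ0) = (c + E') • Y.mulVec ψ0 := by
    have h3 : (H - (c + E') • (1 : Matrix (Λ → Fin d) (Λ → Fin d) ℂ)).mulVec (Y.mulVec ψ0) = 0 := by
      rw [hHY2 E', Matrix.mulVec_mulVec, Matrix.mul_assoc, h2, Matrix.mul_one,
        ← Matrix.mulVec_mulVec, hGψ, Matrix.mulVec_zero]
    rw [Matrix.sub_mulVec, Matrix.smul_mulVec, Matrix.one_mulVec] at h3
    exact sub_eq_zero.1 h3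
  have hYψ : Y.mulVec ψ0 ≠ 0 := by
    intro h3
    apply hψ0ne
    have h4 := congrArg Y'.mulVec h3
    rw [Matrix.mulVec_mulVec, h2, Matrix.one_mulVec, Matrix.mulVec_zero] at h4
    exact h4
  obtain ⟨i0, hi0⟩ := exists_eig hH (c + E') _ hYψ hHψ
  set E : ℝ := hH.eigenvalues i0 with hE
  -- traces
  obtain ⟨m₀, hm₀⟩ := step_bd hδ he hd X hXb
  set T : ℝ := 2 * Real.log 2 / δ with hT
  have hTpos : 0 < T := by
    have := Real.log_pos (by norm_num : (1 : ℝ) < 2)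
    positivity
  have htr : ∀ (h : ℝ) (N : ℕ),
      ((1 - (h : ℂ) • (H - (E : ℂ) • (1 : Matrix (Λ → Fin d) (Λ → Fin d) ℂ))) ^ N).trace =
        ((1 - (h : ℂ) • X) ^ N).trace := by
    intro h N
    have h3 : 1 - (h : ℂ) • (H - (E : ℂ) • (1 : Matrix (Λ → Fin d) (Λ → Fin d) ℂ)) =
        Y * (1 - (h : ℂ) • (G - E' • 1)) * Y' := by
      rw [hi0, hHY2 E']
      generalize G - E' • (1 : Matrix (Λ → Fin d) (Λ → Fin d) ℂ) = A
      rw [Matrix.mul_sub, Matrix.mul_one, Matrix.sub_mul, h1, Matrix.mul_smul, Matrix.smul_mul]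
    have h4 : cj g t (1 - (h : ℂ) • (G - E' • 1)) = 1 - (h : ℂ) • X := by
      rw [cj_sub, cj_one, cj_smul]
    rw [h3, conj_pow' Y Y' _ h1 h2, trace_conj' Y Y' _ h2, ← trace_cj g t, cj_pow, h4]
  have hsum : ∀ k : ℕ, 1 ≤ k → ∑ i, Real.exp (-(k * T * (hH.eigenvalues i - E))) ≤
      1 + 2 * k * ((1 + d * (1 / 2 : ℝ) ^ k) ^ (Fintype.card Λ) - 1) := by
    intro k hk
    apply exp_sum_le hH E T _ k
    refine ⟨m₀, fun m hm hm1 => ?_⟩
    rw [htr, pow_mul]
    have hcol : ∀ z, ((1 - ((T / m : ℝ) : ℂ) • X) ^ m) z (vac g) =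
        if z = vac g then 1 else 0 := by
      apply col_pow
      intro z
      rw [Matrix.sub_apply, Matrix.smul_apply, hXv z, smul_zero, sub_zero, Matrix.one_apply]
    refine (trace_vac_le _ (vac g) hcol (fun x => (1 / 2 : ℝ) ^ (sz g x))
      (fun x _ => hm₀ m hm hm1 x) k hk).trans ?_
    have h5 := sum_sz_le (Λ := Λ) g k
    have hk0 : (0 : ℝ) ≤ 2 * k := by positivity
    have := mul_le_mul_of_nonneg_left h5 hk0
    linarith
  refine ⟨i0, ?_, ?_⟩
  · intro i hi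
    have h6 := gap_concl hH.eigenvalues E i0 rfl T hTpos (Fintype.card Λ) d hsum i hi
    have h7 : Real.log 2 / T = δ / 2 := by
      have := (Real.log_pos (by norm_num : (1 : ℝ) < 2)).ne'
      rw [hT]
      field_simp
    rw [h7] at h6
    linarith
  · intro k hk
    have h6 := hsum k hk
    rw [← Finset.add_sum_erase _ _ (Finset.mem_univ i0)] at h6
    have h8 : Real.exp (-(k * T * (hH.eigenvalues i0 - E))) = 1 := by
      rw [hE, sub_self, mul_zero, neg_zero, Real.exp_zero]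
    rw [h8] at h6
    linarith

end Pool.Agent.KTP
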