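import Mathlib
import Pool.Agent.KTP.Df

/-!
# Classical Hamiltonians: definitions
-/

set_option autoImplicit false

namespace Pool.Agent.KTP

open Matrix

variable {Λ : Type} [Fintype Λ] [DecidableEq Λ] {d : ℕ}

/-- The sum of the local operators `N v` is the diagonal matrix `F`, `F x ≥ δ sz x`, `F vac = 0`, and `N v` kills
the configurations which are in the ground state on `Bx v`. -/
structure Cls (g : Fin d) (N : Λ → Matrix (Λ → Fin d) (Λ → Fin d) ℂ) (Bx : Λ → Finset Λ)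
    (F : (Λ → Fin d) → ℝ) (δ : ℝ) : Prop where
  kill : ∀ v x, (∀ u ∈ Bx v, x u = g) → ∀ z, N v z x = 0
  tot : ∑ v, N v = Matrix.diagonal fun x => ((F x : ℝ) : ℂ)
  ge : ∀ x, δ * (sz g x : ℝ) ≤ F x
  vac : F (vac g) = 0

/-- `t` solves the equation of the ground state `exp(T) e_vac` of `∑ G v`. -/
def SolG (g : Fin d) (G : Λ → Matrix (Λ → Fin d) (Λ → Fin d) ℂ) (t : (Λ → Fin d) → ℂ) : Prop :=
  ∀ y, y ≠ vac g → ∑ v, cj g t (G v) y (vac g) = 0

end Pool.Agent.KTP
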