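import Mathlib
import Pool.Agent.KTP.Df
import Pool.Agent.KTP.Gdf
import Pool.Agent.KTP.Cra
import Pool.Agent.KTP.Bda
import Pool.Agent.KTP.Exa
import Pool.Agent.KTP.Loa

/-!
# Module Lob: conjugated classical terms
`N = N v`. `cls_bd`: `cj t N - N = (exp(-T) N exp T - N)` with `T` = the part touching `Bx v` (cj_loc):
`(exp(-T) - 1) N exp T + N (exp T - 1)`: bound `κ' ((e^c - 1) e^c + (e^c - 1)) = κ' (e^(2c) - 1)`, `κ' = κ (a⁻¹)^b`.
`cls_lip`: all matrices with the parts touching `Bx v`; `D = T - T'`, `X = cj t' N`, `cj t N = exp(-D) X exp D`.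
`exp(-D) X exp D - X - (X D - D X)`: bound `κ e^(2c) (e^(2c') - 1 - 2c')`
(`exp D = 1 + D + R2`, `exp(-D) = 1 - D + R2'`, `Bd (e^c' - 1 - c')` for the remainders),
`(X - N) D - D (X - N)`: `2 c' κ (e^(2c) - 1)`; column
vac of `D N` is 0 (kill), and column vac of `N D` = column vac of `N * cre (t - t')` (terms not touching `Bx v` commute
with `N` and `N e_vac = 0`). With `c ≤ 1/4`, `c' ≤ 2c` the sum is at most `24 κ c c'`
(`e^(2c') - 1 - 2c' ≤ 4 c'^2` for `2c' ≤ 1`; `e^(2c) ≤ 2`; `e^(2c) - 1 ≤ 4c`).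
-/

set_option autoImplicit false

namespace Pool.Agent.KTP

open Matrix

/-- The second remainder of the exponential. -/
theorem Bd.exp_rem {Λ : Type} [Fintype Λ] [DecidableEq Λ] {d : ℕ} {g : Fin d}
    {T : Matrix (Λ → Fin d) (Λ → Fin d) ℂ} {a c : ℝ} (ha : 0 < a) (hc : 0 ≤ c)
    (h : Bd g a c T) : Bd g a (Real.exp c - 1 - c) (NormedSpace.exp T - 1 - T) := by
  have h0 : Filter.Tendsto (fun n => ∑ k ∈ Finset.range n, ((k + 1 + 1).factorial : ℂ)⁻¹ •
      T ^ (k + 1 + 1)) Filter.atTop (nhds (NormedSpace.exp T - 1 - T)) := by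
    have h1 := (exp_hasSum_aux T).tendsto_sum_nat
    have h2 := (((Filter.tendsto_add_atTop_iff_nat 2).2 h1).sub_const 1).sub_const T
    refine h2.congr fun n => ?_
    rw [Finset.sum_range_succ', Finset.sum_range_succ']
    simp
  refine Bd.lim h0 fun n => ?_
  have h1 : Bd g a (∑ k ∈ Finset.range n, ‖(((k + 1 + 1).factorial : ℂ))⁻¹‖ * c ^ (k + 1 + 1))
      (∑ k ∈ Finset.range n, (((k + 1 + 1).factorial : ℂ))⁻¹ • T ^ (k + 1 + 1)) :=
    Bd.sum _ _ _ ha fun k _ => (h.pow ha hc (k + 1 + 1)).smul _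
  refine h1.mono ha ?_
  have h2 := Real.sum_le_exp_of_nonneg hc (n + 1 + 1)
  rw [Finset.sum_range_succ', Finset.sum_range_succ'] at h2
  have h3 : ∑ k ∈ Finset.range n, ‖(((k + 1 + 1).factorial : ℂ))⁻¹‖ * c ^ (k + 1 + 1)
      = ∑ k ∈ Finset.range n, c ^ (k + 1 + 1) / ((k + 1 + 1).factorial : ℝ) := by
    refine Finset.sum_congr rfl fun k _ => ?_
    rw [norm_inv, Complex.norm_natCast]
    ring
  rw [h3]
  simp at h2
  linarith

variable {Λ : Type} [Fintype Λ] [DecidableEq Λ] [AddCommGroup Λ] {d : ℕ} {g : Fin d}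
variable {N : Λ → Matrix (Λ → Fin d) (Λ → Fin d) ℂ} {Bx : Λ → Finset Λ} {b : ℕ} {κ : ℝ}

theorem cls_bd (hN : LocFam g N Bx b κ) (hκ : 0 ≤ κ) {a : ℝ} (ha : 0 < a) (ha1 : a ≤ 1)
    (t : (Λ → Fin d) → ℂ) (v : Λ) {c : ℝ} (hc : ∑ y, ‖tch g (Bx v) t y‖ ≤ c) :
    Bd g a (κ * (a⁻¹) ^ b * (Real.exp (2 * c) - 1)) (cj g t (N v) - N v) := by
  have hc0 : 0 ≤ c := (Finset.sum_nonneg fun y _ => norm_nonneg _).trans hc
  rw [cj_loc hN t]
  set T := cre g (tch g (Bx v) t) with hT
  have h1 : Bd g a c T := (cre_bd g ha ha1 _).mono ha hc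
  have h2 := Bd.exp ha hc0 h1
  have h2' := Bd.exp_sub_one ha hc0 h1
  have h3 := Bd.exp_sub_one ha hc0 h1.neg
  have h4 := hN.bd v a ha ha1
  have hK' : 0 ≤ κ * (a⁻¹) ^ b := by positivity
  have he : 0 ≤ Real.exp c - 1 := by
    have := Real.add_one_le_exp c
    linarith
  have hsplit : cj g (tch g (Bx v) t) (N v) - N v =
      (NormedSpace.exp (-T) - 1) * N v * NormedSpace.exp T + N v * (NormedSpace.exp T - 1) := by
    unfold cj
    rw [← hT, sub_mul, sub_mul, one_mul, mul_sub, mul_one]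
    abel
  rw [hsplit]
  have f1 := Bd.mul ha (mul_nonneg he hK') (Bd.mul ha he h3 h4) h2
  have f2 := Bd.mul ha hK' h4 h2'
  refine (f1.add f2 ha).mono ha (le_of_eq ?_)
  rw [two_mul, Real.exp_add]
  ring

private theorem tch_sub' (B : Finset Λ) (t t' : (Λ → Fin d) → ℂ) :
    tch g B (t - t') = tch g B t - tch g B t' := by
  funext y
  by_cases h : ∃ u ∈ B, y u ≠ g
  · simp only [tch, Pi.sub_apply, if_pos h]
  · simp only [tch, Pi.sub_apply, if_neg h, sub_zero]

theorem cls_lip (hN : LocFam g N Bx b κ) (hκ : 0 ≤ κ)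
    (hkill : ∀ v x, (∀ u ∈ Bx v, x u = g) → ∀ z, N v z x = 0) (t t' : (Λ → Fin d) → ℂ) (v : Λ)
    {c c' : ℝ} (hc : ∑ y, ‖tch g (Bx v) t y‖ ≤ c) (hc2 : ∑ y, ‖tch g (Bx v) t' y‖ ≤ c)
    (hd : ∑ y, ‖tch g (Bx v) (t - t') y‖ ≤ c') (hc4 : c ≤ 1 / 4) (hc' : c' ≤ 2 * c) :
    ∑ y, ‖(cj g t (N v) - cj g t' (N v) - N v * cre g (t - t')) y (vac g)‖ ≤
      24 * κ * c * c' := by
  have hc0 : 0 ≤ c := (Finset.sum_nonneg fun y _ => norm_nonneg _).trans hc
  have hd0 : 0 ≤ c' := (Finset.sum_nonneg fun y _ => norm_nonneg _).trans hd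
  have hXbd := cls_bd hN hκ one_pos le_rfl t' v hc2
  rw [inv_one, one_pow, mul_one] at hXbd
  have hXbd2 : Bd g 1 (κ * Real.exp (2 * c)) (cj g t' (N v)) := by
    have := cj_bd hN hκ one_pos le_rfl t' v hc2
    rwa [inv_one, one_pow, mul_one] at this
  set X := cj g t' (N v) with hX
  set D := cre g (tch g (Bx v) (t - t')) with hD
  have hbD : Bd g 1 c' D := (cre_bd g one_pos le_rfl _).mono one_pos hd
  -- the conjugation
  have hconj : cj g t (N v) = NormedSpace.exp (-D) * X * NormedSpace.exp D := by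
    rw [hX, cj_loc hN t, cj_loc hN t']
    unfold cj
    set T' := cre g (tch g (Bx v) t') with hT'
    have hT : cre g (tch g (Bx v) t) = T' + D := by
      rw [hD, hT', ← cre_add, tch_sub']
      congr 1
      abel
    have hcm : Commute T' D := cre_comm g _ _
    rw [hT]
    have e1 : NormedSpace.exp (T' + D) = NormedSpace.exp T' * NormedSpace.exp D :=
      Matrix.exp_add_of_commute _ _ hcm
    have e2 : NormedSpace.exp (-(T' + D)) = NormedSpace.exp (-D) * NormedSpace.exp (-T') := by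
      rw [neg_add, add_comm]
      exact Matrix.exp_add_of_commute _ _ (hcm.symm.neg_left.neg_right)
    rw [e1, e2]
    simp only [mul_assoc]
  -- the remainders
  set R := NormedSpace.exp D - 1 - D with hR
  set R' := NormedSpace.exp (-D) - 1 - (-D) with hR'
  set ρ : ℝ := Real.exp c' - 1 - c' with hρ
  have hρ0 : 0 ≤ ρ := by
    have := Real.add_one_le_exp c'
    rw [hρ]; linarith
  have hbR : Bd g 1 ρ R := Bd.exp_rem one_pos hd0 hbD
  have hbR' : Bd g 1 ρ R' := Bd.exp_rem one_pos hd0 hbD.neg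
  have e1 : NormedSpace.exp D = 1 + D + R := by rw [hR]; abel
  have e2 : NormedSpace.exp (-D) = 1 - D + R' := by rw [hR']; abel
  have hx0 : 0 ≤ κ * Real.exp (2 * c) := by positivity
  have b1 := Bd.mul one_pos hx0 hXbd2 hbR
  have b2 := Bd.mul one_pos (mul_nonneg hd0 hx0) (Bd.mul one_pos hd0 hbD hXbd2) hbD
  have b3 := Bd.mul one_pos (mul_nonneg hd0 hx0) (Bd.mul one_pos hd0 hbD hXbd2) hbR
  have b4 := Bd.mul one_pos hρ0 hbR' hXbd2
  have b5 := Bd.mul one_pos (mul_nonneg hρ0 hx0) b4 hbD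
  have b6 := Bd.mul one_pos (mul_nonneg hρ0 hx0) b4 hbR
  have g1 := Bd.mul one_pos (mul_nonneg hκ (by
    have := Real.add_one_le_exp (2 * c)
    linarith : 0 ≤ Real.exp (2 * c) - 1)) hXbd hbD
  have g2 := Bd.mul one_pos hd0 hbD hXbd
  have hall := ((((((b1.sub b2 one_pos).sub b3 one_pos).add b4 one_pos).add b5 one_pos).add b6
    one_pos).add (g1.sub g2 one_pos) one_pos)
  -- the column of the vacuum
  have hcol : ∀ y, (cj g t (N v) - X - N v * cre g (t - t')) y (vac g) =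
      (X * R - D * X * D - D * X * R + R' * X + R' * X * D + R' * X * R +
        ((X - N v) * D - D * (X - N v))) y (vac g) := by
    intro y
    have k1 : (N v * cre g (t - t')) y (vac g) = (N v * D) y (vac g) := by
      rw [Matrix.mul_apply, Matrix.mul_apply]
      refine Finset.sum_congr rfl fun x _ => ?_
      rw [hD, cre_vac, cre_vac]
      by_cases h : ∃ u ∈ Bx v, x u ≠ g
      · rw [tch, if_pos h]
      · rw [hkill v x (by push Not at h; exact h) y, zero_mul, zero_mul]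
    have k2 : (D * N v) y (vac g) = 0 := by
      rw [Matrix.mul_apply]
      refine Finset.sum_eq_zero fun x _ => ?_
      rw [hkill v (vac g) (fun u _ => rfl) x, mul_zero]
    have k3 : X * R - D * X * D - D * X * R + R' * X + R' * X * D + R' * X * R +
        ((X - N v) * D - D * (X - N v)) =
        NormedSpace.exp (-D) * X * NormedSpace.exp D - X - N v * D + D * N v := by
      rw [e1, e2]
      noncomm_ring
    rw [k3, ← hconj]
    simp only [Matrix.sub_apply, Matrix.add_apply]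
    rw [k1, k2, add_zero]
  have hfin := hall (vac g)
  simp only [one_pow, one_mul, mul_one] at hfin
  rw [Finset.sum_congr rfl fun y _ => by rw [hcol y]]
  refine hfin.trans ?_
  have x1 : Real.exp (2 * c) - 1 ≤ 4 * c := by
    have h4 := Real.abs_exp_sub_one_le (x := 2 * c) (by rw [abs_of_nonneg (by linarith)]; linarith)
    rw [abs_of_nonneg (by linarith : (0:ℝ) ≤ 2 * c)] at h4
    have := (le_abs_self _).trans h4
    linarith
  have x2 : Real.exp (2 * c') - 1 - 2 * c' ≤ 4 * c' ^ 2 := by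
    have h4 := Real.abs_exp_sub_one_sub_id_le (x := 2 * c')
      (by rw [abs_of_nonneg (by linarith)]; linarith)
    have := (le_abs_self _).trans h4
    nlinarith
  have x3 : Real.exp (2 * c') = Real.exp c' * Real.exp c' := by rw [two_mul, Real.exp_add]
  have x4 : κ * Real.exp (2 * c) * ρ + c' * (κ * Real.exp (2 * c)) * c' +
      c' * (κ * Real.exp (2 * c)) * ρ + ρ * (κ * Real.exp (2 * c)) +
      ρ * (κ * Real.exp (2 * c)) * c' + ρ * (κ * Real.exp (2 * c)) * ρ =
      κ * Real.exp (2 * c) * (Real.exp (2 * c') - 1 - 2 * c') := by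
    rw [x3, hρ]
    ring
  have x5 : κ * Real.exp (2 * c) * (Real.exp (2 * c') - 1 - 2 * c') ≤ κ * 2 * (4 * c' ^ 2) := by
    have y1 : Real.exp (2 * c) ≤ 2 := by linarith
    have y2 : 0 ≤ Real.exp (2 * c') - 1 - 2 * c' := by
      have := Real.add_one_le_exp (2 * c')
      linarith
    exact mul_le_mul (mul_le_mul_of_nonneg_left y1 hκ) x2 y2 (by positivity)
  have x6 : κ * 2 * (4 * c' ^ 2) ≤ 16 * κ * c * c' := by
    have : c' * c' ≤ 2 * c * c' := mul_le_mul_of_nonneg_right hc' hd0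
    have := mul_le_mul_of_nonneg_left this (by positivity : 0 ≤ 8 * κ)
    nlinarith
  have x7 : κ * (Real.exp (2 * c) - 1) * c' + c' * (κ * (Real.exp (2 * c) - 1)) ≤ 8 * κ * c * c' := by
    have : κ * c' * (Real.exp (2 * c) - 1) ≤ κ * c' * (4 * c) :=
      mul_le_mul_of_nonneg_left x1 (by positivity)
    nlinarith
  nlinarith

end Pool.Agent.KTP
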