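import Mathlib
import Pool.Agent.KTP.Df
import Pool.Agent.KTP.Gdf
import Pool.Agent.KTP.Cra
import Pool.Agent.KTP.Loa
import Pool.Agent.KTP.Lob
import Pool.Agent.KTP.Iva

/-!
# Module Fxb: the fixed point over a classical Hamiltonian (adaptation of Fxa)
`G v = N v + W v`, `Φ t y = t y - (F y)⁻¹ ∑_v cj t (G v) y vac` for `y ≠ vac`, `Φ t vac = 0`; ball `nrm t ≤ r`,
`r = δ/(96 · 2^b (κ+δ) (b+1)^2)` (so `b r ≤ 1/4`). `∑_v (N v * cre(t-t')) y vac = F y (t-t') y` (tot, cre_vac), so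
`(Φ t - Φ t') y = -(F y)⁻¹ ∑_v [(cj t (N v) - cj t' (N v) - N v cre(t-t')) + (cj t (W v) - cj t' (W v))] y vac`:
`nrm (Φ t - Φ t') ≤ δ⁻¹ (24 κ (b r) b + K e^(2 b r) 4 b) nrm(t-t') ≤ (1/2) nrm (t-t')` (`c = b r`,
`c' = b nrm(t-t') ≤ 2 b r`; `K ≤ δ r/2`), `nrm (Φ 0) ≤ K/δ ≤ r/2`, so the ball is mapped into itself.
`F (sh w y) = F y`: from hN.cov and tot (diagonal entries), sum over v reindexed. Invariance of `∑_v cj t (G v) y vac`:
sum_cj_sh for N and for W (cj_add).
-/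

set_option autoImplicit false

namespace Pool.Agent.KTP

open Matrix Filter Topology

variable {Λ : Type} [Fintype Λ] [DecidableEq Λ] [AddCommGroup Λ] {d : ℕ} {g : Fin d}
variable {N W : Λ → Matrix (Λ → Fin d) (Λ → Fin d) ℂ} {Bx : Λ → Finset Λ} {b : ℕ} {K κ : ℝ}
variable {F : (Λ → Fin d) → ℝ} {δ : ℝ}

/-- The radius. -/
noncomputable def rad (δ κ : ℝ) (b : ℕ) : ℝ := δ / (96 * 2 ^ b * (κ + δ) * (b + 1) ^ 2)

private theorem gcard_pos : (0 : ℝ) < Fintype.card Λ := by
  have : Nonempty Λ := ⟨0⟩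
  exact_mod_cast Fintype.card_pos

private theorem gnrm_nonneg (t : (Λ → Fin d) → ℂ) : 0 ≤ nrm g t := by
  unfold nrm
  positivity

private theorem gle_nrm (t : (Λ → Fin d) → ℂ) (ht : t (vac g) = 0) (y : Λ → Fin d) :
    ‖t y‖ ≤ Fintype.card Λ * nrm g t := by
  have h0 : (Fintype.card Λ : ℝ) * nrm g t = ∑ y, (sz g y : ℝ) * ‖t y‖ := by
    unfold nrm
    have := gcard_pos (Λ := Λ)
    field_simp
  rw [h0]
  by_cases hy : y = vac g
  · rw [hy, ht, norm_zero]
    positivity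
  · have h1 : (1 : ℝ) ≤ sz g y := by exact_mod_cast sz_pos g hy
    calc ‖t y‖ ≤ (sz g y : ℝ) * ‖t y‖ := le_mul_of_one_le_left (norm_nonneg _) h1
      _ ≤ _ := Finset.single_le_sum (f := fun y => (sz g y : ℝ) * ‖t y‖)
          (fun z _ => by positivity) (Finset.mem_univ y)

private theorem gnrm_sub_le (t t' : (Λ → Fin d) → ℂ) : nrm g (t - t') ≤ nrm g t + nrm g t' := by
  unfold nrm
  rw [← add_div, ← Finset.sum_add_distrib]
  apply div_le_div_of_nonneg_right _ (gcard_pos (Λ := Λ)).le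
  apply Finset.sum_le_sum
  intro y _
  rw [← mul_add]
  exact mul_le_mul_of_nonneg_left (norm_sub_le _ _) (Nat.cast_nonneg _)

private theorem gnrm_le_add (t t' : (Λ → Fin d) → ℂ) : nrm g t ≤ nrm g (t - t') + nrm g t' := by
  have h1 := gnrm_sub_le (g := g) (t - t') (-t')
  have h2 : nrm g (-t') = nrm g t' := by
    unfold nrm
    simp
  rw [h2, sub_neg_eq_add, sub_add_cancel] at h1
  exact h1

/-- the basic estimate for functions of the form `-(s y)/F y` -/
private theorem gnrm_div_le (hδ : 0 < δ) (hF : ∀ x : Λ → Fin d, δ * (sz g x : ℝ) ≤ F x)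
    (f : (Λ → Fin d) → ℂ) (s : Λ → (Λ → Fin d) → ℂ) (c : ℝ)
    (hf0 : f (vac g) = 0)
    (hf : ∀ y, y ≠ vac g → f y = -((∑ v, s v y) / ((F y : ℝ) : ℂ)))
    (hs : ∀ v, ∑ y, ‖s v y‖ ≤ c) : nrm g f ≤ c / δ := by
  have hn := gcard_pos (Λ := Λ)
  have h1 : ∀ y, (sz g y : ℝ) * ‖f y‖ ≤ δ⁻¹ * ∑ v, ‖s v y‖ := by
    intro y
    by_cases hy : y = vac g
    · rw [hy, hf0, norm_zero, mul_zero]
      positivity
    · have h2 := hF y
      have h3 : (1 : ℝ) ≤ sz g y := by exact_mod_cast sz_pos g hy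
      have h4 : 0 < F y := lt_of_lt_of_le (by positivity) h2
      rw [hf y hy, norm_neg, norm_div, Complex.norm_real, Real.norm_eq_abs, abs_of_pos h4]
      have h5 : ‖∑ v, s v y‖ ≤ ∑ v, ‖s v y‖ := norm_sum_le _ _
      have h6 : (sz g y : ℝ) / F y ≤ δ⁻¹ := by
        rw [div_le_iff₀ h4]
        rw [inv_mul_eq_div, le_div_iff₀ hδ]
        linarith
      calc (sz g y : ℝ) * (‖∑ v, s v y‖ / F y) = ((sz g y : ℝ) / F y) * ‖∑ v, s v y‖ := by ring
        _ ≤ δ⁻¹ * ∑ v, ‖s v y‖ := mul_le_mul h6 h5 (norm_nonneg _) (by positivity)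
  unfold nrm
  rw [div_le_div_iff₀ hn hδ]
  calc (∑ y, (sz g y : ℝ) * ‖f y‖) * δ ≤ (∑ y, δ⁻¹ * ∑ v, ‖s v y‖) * δ :=
        mul_le_mul_of_nonneg_right (Finset.sum_le_sum fun y _ => h1 y) hδ.le
    _ = ∑ v, ∑ y, ‖s v y‖ := by
        rw [← Finset.mul_sum, Finset.sum_comm]
        field_simp
    _ ≤ ∑ v : Λ, c := Finset.sum_le_sum fun v _ => hs v
    _ = c * Fintype.card Λ := by
        rw [Finset.sum_const, Finset.card_univ, nsmul_eq_mul, mul_comm]

private theorem gcol_of_bd {c : ℝ} {M : Matrix (Λ → Fin d) (Λ → Fin d) ℂ} (h : Bd g 1 c M) :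
    ∑ y, ‖M y (vac g)‖ ≤ c := by
  have := h (vac g)
  simpa using this

private theorem gexp_one_le : Real.exp 1 ≤ 3 := by
  have := Real.exp_one_lt_d9
  linarith

private theorem gtch_small (hW : LocFam g W Bx b K) {t : (Λ → Fin d) → ℂ} (ht : Inv t) {ν : ℝ}
    (hν : nrm g t ≤ ν) (v : Λ) : ∑ y, ‖tch g (Bx v) t y‖ ≤ b * ν := by
  refine (tch_le ht (Bx v)).trans ?_
  have h1 : ((Bx v).card : ℝ) ≤ b := by exact_mod_cast hW.card v
  exact mul_le_mul h1 hν (gnrm_nonneg t) (Nat.cast_nonneg _)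

private def XG (g : Fin d) (r : ℝ) (t : (Λ → Fin d) → ℂ) : Prop :=
  Inv t ∧ t (vac g) = 0 ∧ nrm g t ≤ r

open Classical in
private noncomputable def Pg (g : Fin d) (F : (Λ → Fin d) → ℝ)
    (G : Λ → Matrix (Λ → Fin d) (Λ → Fin d) ℂ)
    (t : (Λ → Fin d) → ℂ) : (Λ → Fin d) → ℂ := fun y =>
  if y = vac g then 0 else t y - (∑ v, cj g t (G v) y (vac g)) / ((F y : ℝ) : ℂ)

private theorem F_sh (hN : LocFam g N Bx b κ) (hC : Cls g N Bx F δ) (w : Λ) (y : Λ → Fin d) :
    F (sh w y) = F y := by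
  have h1 : ∀ z : Λ → Fin d, ((F z : ℝ) : ℂ) = ∑ v, N v z z := by
    intro z
    have h2 := congrFun (congrFun hC.tot z) z
    rw [Matrix.sum_apply, Matrix.diagonal_apply_eq] at h2
    exact h2.symm
  have h3 : ((F (sh w y) : ℝ) : ℂ) = ((F y : ℝ) : ℂ) := by
    rw [h1, h1, ← Equiv.sum_comp (Equiv.addRight w) (fun v => N v (sh w y) (sh w y))]
    apply Finset.sum_congr rfl
    intro v _
    exact hN.cov v w y y
  exact_mod_cast h3

private theorem cj_zero' (M : Matrix (Λ → Fin d) (Λ → Fin d) ℂ) : cj g 0 M = M := by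
  have h1 : cre g (0 : (Λ → Fin d) → ℂ) = 0 := by
    unfold cre
    simp
  unfold cj
  rw [h1, neg_zero, NormedSpace.exp_zero, one_mul, mul_one]

private theorem sum_mul_cre (hC : Cls g N Bx F δ) (t : (Λ → Fin d) → ℂ) (y : Λ → Fin d) :
    ∑ v, (N v * cre g t) y (vac g) = ((F y : ℝ) : ℂ) * t y := by
  rw [← Matrix.sum_apply, ← Finset.sum_mul, hC.tot, Matrix.diagonal_mul, cre_vac]

private theorem rad_pos (hκ : 0 ≤ κ) (hδ : 0 < δ) (b : ℕ) : 0 < rad δ κ b := by
  unfold rad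
  positivity

private theorem b_rad (hκ : 0 ≤ κ) (hδ : 0 < δ) (b : ℕ) : (b : ℝ) * rad δ κ b ≤ 1 / 96 := by
  have hb : (0 : ℝ) ≤ b := Nat.cast_nonneg _
  have h2 : (1 : ℝ) ≤ 2 ^ b := one_le_pow₀ (by norm_num)
  unfold rad
  rw [mul_div_assoc', div_le_div_iff₀ (by positivity) (by norm_num)]
  have h3 : (b : ℝ) * δ ≤ 2 ^ b * (κ + δ) * (b + 1) ^ 2 := by
    calc (b : ℝ) * δ ≤ (b + 1) ^ 2 * (κ + δ) := by
          apply mul_le_mul _ (by linarith) hδ.le (by positivity)
          nlinarith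
      _ ≤ 2 ^ b * ((b + 1) ^ 2 * (κ + δ)) := le_mul_of_one_le_left (by positivity) h2
      _ = 2 ^ b * (κ + δ) * (b + 1) ^ 2 := by ring
  linarith

private theorem kap_rad (hκ : 0 ≤ κ) (hδ : 0 < δ) (b : ℕ) :
    24 * κ * (b * rad δ κ b) * b ≤ 1 / 4 * δ := by
  have hb : (0 : ℝ) ≤ b := Nat.cast_nonneg _
  have h2 : (1 : ℝ) ≤ 2 ^ b := one_le_pow₀ (by norm_num)
  have h0 : 24 * κ * (b * rad δ κ b) * b = 24 * κ * b ^ 2 * δ / (96 * 2 ^ b * (κ + δ) * (b + 1) ^ 2) := by
    unfold rad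
    ring
  rw [h0, div_le_iff₀ (by positivity)]
  have h3 : κ * (b : ℝ) ^ 2 ≤ 2 ^ b * (κ + δ) * (b + 1) ^ 2 := by
    calc κ * (b : ℝ) ^ 2 ≤ (κ + δ) * (b + 1) ^ 2 := by
          apply mul_le_mul (by linarith) _ (by positivity) (by positivity)
          nlinarith
      _ ≤ 2 ^ b * ((κ + δ) * (b + 1) ^ 2) := le_mul_of_one_le_left (by positivity) h2
      _ = 2 ^ b * (κ + δ) * (b + 1) ^ 2 := by ring
  nlinarith [mul_le_mul_of_nonneg_right h3 hδ.le]

private theorem pg_inv (hN : LocFam g N Bx b κ) (hC : Cls g N Bx F δ)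
    (hW : LocFam g W Bx b K) {t : (Λ → Fin d) → ℂ} (hI : Inv t) :
    Inv (Pg g F (fun v => N v + W v) t) := by
  intro w y
  have hiff : sh w y = vac g ↔ y = vac g := by
    constructor
    · intro h
      have h1 : sh (-w) (sh w y) = y := by
        funext u
        simp [sh]
      rw [← h1, h, sh_vac]
    · rintro rfl
      exact sh_vac w
  by_cases hy : y = vac g
  · simp only [Pg, if_pos hy, if_pos (hiff.2 hy)]
  · simp only [Pg, if_neg hy, if_neg (fun h => hy (hiff.1 h))]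
    have h1 : ∀ z : Λ → Fin d, ∑ v, cj g t (N v + W v) z (vac g) =
        ∑ v, cj g t (N v) z (vac g) + ∑ v, cj g t (W v) z (vac g) := by
      intro z
      rw [← Finset.sum_add_distrib]
      apply Finset.sum_congr rfl
      intro v _
      rw [cj_add, Matrix.add_apply]
    rw [h1, h1, sum_cj_sh hN hI, sum_cj_sh hW hI, F_sh hN hC, hI]

private theorem pg_lip (hN : LocFam g N Bx b κ) (hκ : 0 ≤ κ) (hC : Cls g N Bx F δ) (hδ : 0 < δ)
    (hW : LocFam g W Bx b K) (hK : 0 ≤ K) (hKs : K ≤ δ * rad δ κ b / 2)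
    {t t' : (Λ → Fin d) → ℂ} (ht : XG g (rad δ κ b) t) (ht' : XG g (rad δ κ b) t') :
    nrm g (Pg g F (fun v => N v + W v) t - Pg g F (fun v => N v + W v) t') ≤
      (1 / 2) * nrm g (t - t') := by
  obtain ⟨hI, h0, hn⟩ := ht
  obtain ⟨hI', h0', hn'⟩ := ht'
  have hb : (0 : ℝ) ≤ b := Nat.cast_nonneg _
  have hIs : Inv (t - t') := fun w x => by rw [Pi.sub_apply, Pi.sub_apply, hI, hI']
  have hν0 := gnrm_nonneg (g := g) (t - t')
  have hr := rad_pos hκ hδ b
  have hbr := b_rad hκ hδ b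
  have hν : nrm g (t - t') ≤ 2 * rad δ κ b := by
    have := gnrm_sub_le (g := g) t t'
    linarith
  have hc' : (b : ℝ) * nrm g (t - t') ≤ 2 * (b * rad δ κ b) := by
    calc (b : ℝ) * nrm g (t - t') ≤ b * (2 * rad δ κ b) := mul_le_mul_of_nonneg_left hν hb
      _ = 2 * (b * rad δ κ b) := by ring
  have h1 : nrm g (Pg g F (fun v => N v + W v) t - Pg g F (fun v => N v + W v) t') ≤
      (24 * κ * (b * rad δ κ b) * (b * nrm g (t - t')) + 12 * K * (b * nrm g (t - t'))) / δ := by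
    apply gnrm_div_le hδ hC.ge _ (fun v y => (cj g t (N v) - cj g t' (N v) -
      N v * cre g (t - t')) y (vac g) + (cj g t (W v) - cj g t' (W v)) y (vac g))
    · rw [Pi.sub_apply]
      simp only [Pg, if_pos, sub_zero]
    · intro y hy
      have h2 := hC.ge y
      have h3 : (1 : ℝ) ≤ sz g y := by exact_mod_cast sz_pos g hy
      have h4 : 0 < F y := lt_of_lt_of_le (by positivity) h2
      have h5 : ((F y : ℝ) : ℂ) ≠ 0 := by exact_mod_cast h4.ne'
      have h6 := sum_mul_cre hC (t - t') y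
      rw [Pi.sub_apply]
      simp only [Pg, if_neg hy, Matrix.sub_apply, cj_add, Matrix.add_apply,
        Finset.sum_add_distrib, Finset.sum_sub_distrib]
      rw [h6, Pi.sub_apply]
      field_simp
      ring
    · intro v
      have h2 := cls_lip hN hκ hC.kill t t' v (gtch_small hN hI hn v)
        (gtch_small hN hI' hn' v) (gtch_small hN hIs le_rfl v) (by linarith) hc'
      have h3 := cj_lip hW hK t t' v (gtch_small hW hI hn v)
        (gtch_small hW hI' hn' v) (gtch_small hW hIs le_rfl v) (by linarith)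
      have h4 := gcol_of_bd h3
      have h5 : ∑ y, ‖(cj g t (N v) - cj g t' (N v) - N v * cre g (t - t')) y (vac g) +
          (cj g t (W v) - cj g t' (W v)) y (vac g)‖ ≤
          ∑ y, ‖(cj g t (N v) - cj g t' (N v) - N v * cre g (t - t')) y (vac g)‖ +
          ∑ y, ‖(cj g t (W v) - cj g t' (W v)) y (vac g)‖ := by
        rw [← Finset.sum_add_distrib]
        exact Finset.sum_le_sum fun y _ => norm_add_le _ _
      refine h5.trans (add_le_add h2 (h4.trans ?_))
      have h6 : Real.exp (2 * (b * rad δ κ b)) ≤ 3 :=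
        (Real.exp_le_exp.2 (by linarith)).trans gexp_one_le
      have h7 : 0 ≤ (b : ℝ) * nrm g (t - t') := mul_nonneg hb hν0
      calc K * Real.exp (2 * (b * rad δ κ b)) * (4 * (b * nrm g (t - t'))) ≤
            K * 3 * (4 * (b * nrm g (t - t'))) :=
            mul_le_mul_of_nonneg_right (mul_le_mul_of_nonneg_left h6 hK) (by positivity)
        _ = 12 * K * (b * nrm g (t - t')) := by ring
  refine h1.trans ?_
  rw [div_le_iff₀ hδ]
  have h2 := mul_le_mul_of_nonneg_right (kap_rad hκ hδ b) hν0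
  have h3 : 12 * K * b ≤ 1 / 4 * δ := by
    have h4 : 12 * K * b ≤ 12 * (δ * rad δ κ b / 2) * b :=
      mul_le_mul_of_nonneg_right (by linarith) hb
    have h5 : 12 * (δ * rad δ κ b / 2) * b = 6 * δ * (b * rad δ κ b) := by ring
    have h6 : 6 * δ * (b * rad δ κ b) ≤ 6 * δ * (1 / 96) :=
      mul_le_mul_of_nonneg_left hbr (by positivity)
    linarith
  have h4 := mul_le_mul_of_nonneg_right h3 hν0
  calc 24 * κ * (b * rad δ κ b) * (b * nrm g (t - t')) + 12 * K * (b * nrm g (t - t')) =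
        24 * κ * (b * rad δ κ b) * b * nrm g (t - t') + 12 * K * b * nrm g (t - t') := by ring
    _ ≤ 1 / 4 * δ * nrm g (t - t') + 1 / 4 * δ * nrm g (t - t') := add_le_add h2 h4
    _ = 1 / 2 * nrm g (t - t') * δ := by ring

private theorem pg_zero (hκ : 0 ≤ κ) (hC : Cls g N Bx F δ) (hδ : 0 < δ)
    (hW : LocFam g W Bx b K) (hKs : K ≤ δ * rad δ κ b / 2) :
    nrm g (Pg g F (fun v => N v + W v) 0) ≤ rad δ κ b / 2 := by
  have h1 : nrm g (Pg g F (fun v => N v + W v) 0) ≤ K / δ := by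
    apply gnrm_div_le hδ hC.ge _ (fun v y => W v y (vac g))
    · simp only [Pg, if_pos]
    · intro y hy
      simp only [Pg, if_neg hy, cj_zero', Pi.zero_apply, zero_sub]
      congr 2
      apply Finset.sum_congr rfl
      intro v _
      rw [Matrix.add_apply, hC.kill v (vac g) (fun u _ => rfl), zero_add]
    · intro v
      have h2 := gcol_of_bd (hW.bd v 1 one_pos le_rfl)
      simpa using h2
  refine h1.trans ?_
  rw [div_le_iff₀ hδ]
  linarith

private theorem zero_mem (hκ : 0 ≤ κ) (hδ : 0 < δ) :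
    XG g (rad δ κ b) (0 : (Λ → Fin d) → ℂ) := by
  refine ⟨fun w x => rfl, rfl, ?_⟩
  have : nrm g (0 : (Λ → Fin d) → ℂ) = 0 := by simp [nrm]
  rw [this]
  exact (rad_pos hκ hδ b).le

private theorem pg_mem (hN : LocFam g N Bx b κ) (hκ : 0 ≤ κ) (hC : Cls g N Bx F δ) (hδ : 0 < δ)
    (hW : LocFam g W Bx b K) (hK : 0 ≤ K) (hKs : K ≤ δ * rad δ κ b / 2)
    {t : (Λ → Fin d) → ℂ} (ht : XG g (rad δ κ b) t) :
    XG g (rad δ κ b) (Pg g F (fun v => N v + W v) t) := by
  refine ⟨pg_inv hN hC hW ht.1, ?_, ?_⟩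
  · simp only [Pg, if_pos]
  · have h1 := pg_lip hN hκ hC hδ hW hK hKs ht (zero_mem hκ hδ)
    have h2 := pg_zero (K := K) (W := W) hκ hC hδ hW hKs
    have h3 := gnrm_le_add (g := g) (Pg g F (fun v => N v + W v) t)
      (Pg g F (fun v => N v + W v) 0)
    rw [sub_zero] at h1
    have h4 := ht.2.2
    linarith

theorem exists_solG (hN : LocFam g N Bx b κ) (hκ : 0 ≤ κ) (hC : Cls g N Bx F δ) (hδ : 0 < δ)
    (hW : LocFam g W Bx b K) (hK : 0 ≤ K) (hKs : K ≤ δ * rad δ κ b / 2) :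
    ∃ t : (Λ → Fin d) → ℂ, Inv t ∧ t (vac g) = 0 ∧ nrm g t ≤ rad δ κ b ∧
      SolG g (fun v => N v + W v) t := by
  have hn := gcard_pos (Λ := Λ)
  have hr := rad_pos hκ hδ b
  let T : ℕ → (Λ → Fin d) → ℂ := fun k => (Pg g F (fun v => N v + W v))^[k] 0
  have hT0 : T 0 = 0 := rfl
  have hTs : ∀ k, T (k + 1) = Pg g F (fun v => N v + W v) (T k) :=
    fun k => Function.iterate_succ_apply' _ _ _
  have hX : ∀ k, XG g (rad δ κ b) (T k) := by
    intro k
    induction k with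
    | zero =>
      rw [hT0]
      exact zero_mem hκ hδ
    | succ k ih =>
      rw [hTs]
      exact pg_mem hN hκ hC hδ hW hK hKs ih
  have hdiff : ∀ k, nrm g (T (k + 1) - T k) ≤ rad δ κ b * (1 / 2 : ℝ) ^ k := by
    intro k
    induction k with
    | zero =>
      rw [hT0, sub_zero, pow_zero, mul_one]
      exact (hX 1).2.2
    | succ k ih =>
      rw [hTs (k + 1), hTs k]
      have h1 := pg_lip hN hκ hC hδ hW hK hKs (hX (k + 1)) (hX k)
      rw [hTs k] at h1 ih
      refine h1.trans ?_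
      rw [pow_succ]
      linarith
  have hconv : ∀ y, ∃ l : ℂ, Tendsto (fun k => T k y) atTop (𝓝 l) := by
    intro y
    apply cauchySeq_tendsto_of_complete
    apply cauchySeq_of_le_geometric (1 / 2 : ℝ) (Fintype.card Λ * rad δ κ b : ℝ) (by norm_num)
    intro k
    rw [dist_comm, dist_eq_norm]
    have h1 : (T (k + 1) - T k) (vac g) = 0 := by
      rw [Pi.sub_apply, (hX (k + 1)).2.1, (hX k).2.1, sub_zero]
    refine (gle_nrm (T (k + 1) - T k) h1 y).trans ?_
    rw [mul_assoc]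
    exact mul_le_mul_of_nonneg_left (hdiff k) hn.le
  choose t ht using hconv
  have hcont : ∀ (f : ℕ → (Λ → Fin d) → ℂ) (l : (Λ → Fin d) → ℂ),
      (∀ y, Tendsto (fun k => f k y) atTop (𝓝 (l y))) →
      Tendsto (fun k => nrm g (f k)) atTop (𝓝 (nrm g l)) := by
    intro f l hf
    unfold nrm
    apply Tendsto.div_const
    apply tendsto_finsetSum
    intro y _
    exact ((hf y).norm).const_mul _
  have hXt : XG g (rad δ κ b) t := by
    refine ⟨?_, ?_, ?_⟩
    · intro w x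
      refine tendsto_nhds_unique (ht (sh w x)) ?_
      have : (fun k => T k (sh w x)) = fun k => T k x := by
        funext k
        exact (hX k).1 w x
      rw [this]
      exact ht x
    · refine tendsto_nhds_unique (ht (vac g)) ?_
      have : (fun k => T k (vac g)) = fun _ => 0 := by
        funext k
        exact (hX k).2.1
      rw [this]
      exact tendsto_const_nhds
    · exact le_of_tendsto' (hcont T t ht) fun k => (hX k).2.2
  have hlim : Tendsto (fun k => nrm g (t - T k)) atTop (𝓝 0) := by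
    have h1 := hcont (fun k => t - T k) 0 (by
      intro y
      have := (tendsto_const_nhds (x := t y)).sub (ht y)
      rw [sub_self] at this
      exact this)
    have h2 : nrm g (0 : (Λ → Fin d) → ℂ) = 0 := by simp [nrm]
    rwa [h2] at h1
  have hfix : Pg g F (fun v => N v + W v) t = t := by
    funext y
    have h1 : Tendsto (fun k => T (k + 1) y) atTop (𝓝 (t y)) :=
      (tendsto_add_atTop_iff_nat 1).2 (ht y)
    refine tendsto_nhds_unique ?_ h1
    rw [tendsto_iff_norm_sub_tendsto_zero]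
    have h2 : Tendsto (fun k => (Fintype.card Λ : ℝ) * ((1 / 2) * nrm g (t - T k))) atTop (𝓝 0) := by
      have := (hlim.const_mul (1 / 2 : ℝ)).const_mul (Fintype.card Λ : ℝ)
      simpa using this
    refine squeeze_zero (fun k => norm_nonneg _) (fun k => ?_) h2
    rw [← norm_neg, neg_sub, hTs]
    have h3 : (Pg g F (fun v => N v + W v) t - Pg g F (fun v => N v + W v) (T k)) (vac g) = 0 := by
      rw [Pi.sub_apply]
      simp only [Pg, if_pos, sub_zero]
    refine (gle_nrm (Pg g F (fun v => N v + W v) t - Pg g F (fun v => N v + W v) (T k))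
      h3 y).trans ?_
    exact mul_le_mul_of_nonneg_left (pg_lip hN hκ hC hδ hW hK hKs hXt (hX k)) hn.le
  refine ⟨t, hXt.1, hXt.2.1, hXt.2.2, ?_⟩
  intro y hy
  have h1 : t y - (∑ v, cj g t (N v + W v) y (vac g)) / ((F y : ℝ) : ℂ) = t y := by
    conv_rhs => rw [← hfix]
    simp only [Pg, if_neg hy]
  have h2 := hC.ge y
  have h3 : (1 : ℝ) ≤ sz g y := by exact_mod_cast sz_pos g hy
  have h4 : 0 < F y := lt_of_lt_of_le (by positivity) h2
  have h5 : ((F y : ℝ) : ℂ) ≠ 0 := by exact_mod_cast h4.ne'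
  have h6 : (∑ v, cj g t (N v + W v) y (vac g)) / ((F y : ℝ) : ℂ) = 0 := by
    have := sub_eq_self.1 h1
    exact this
  rcases div_eq_zero_iff.1 h6 with h7 | h7
  · exact h7
  · exact absurd h7 h5

end Pool.Agent.KTP
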