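import Mathlib
import Pool.Agent.KTP.Df
import Pool.Agent.KTP.Gdf
import Pool.Agent.KTP.Cra
import Pool.Agent.KTP.Bda
import Pool.Agent.KTP.Exa
import Pool.Agent.KTP.Loa
import Pool.Agent.KTP.Lob
import Pool.Agent.KTP.Iva
import Pool.Agent.KTP.Fxb
import Pool.Agent.KTP.Rba

/-!
# Module Rbb: the relative bound over a classical Hamiltonian (adaptation of Rba)
`G v = N v + W v`, `X = exp(-T)(∑ G - E)exp(T) = ∑ cj t (G v) - E`; column vac is 0 by SolG and def of gE.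
Column `x`: `X e_x = (X S_x - S_x X) e_vac = ∑_{v touching x} (cj t (G v) e_x - S_x cj t (G v) e_vac)` and
`diag(F) e_x = ∑_{v touching x} N v e_x` (tot, kill). So column `x` of `X - diag F` is
`∑_{touch} [(cj t (N v) - N v) e_x + cj t (W v) e_x - S_x (cj t (N v) - N v) e_vac - S_x cj t (W v) e_vac]`
(`N v e_vac = 0`): each at most `2 κ (a⁻¹)^b (e^(2c) - 1) a^(sz x) + 2 K (a⁻¹)^b e^(2c) a^(sz x)`, `c = b r`, number at most
`b sz x`. `e^(2c) - 1 ≤ 4 c`, `e^(2c) ≤ 2`, `a⁻¹ ≤ 2`: total `b 2^b (8 κ b r + 4 K) ≤ δ/2`.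
-/

set_option autoImplicit false
set_option linter.unusedSectionVars false
set_option linter.unusedVariables false

namespace Pool.Agent.KTP

open Matrix

variable {Λ : Type} [Fintype Λ] [DecidableEq Λ] [AddCommGroup Λ] {d : ℕ} {g : Fin d}
variable {N W : Λ → Matrix (Λ → Fin d) (Λ → Fin d) ℂ} {Bx : Λ → Finset Λ} {b : ℕ} {K κ : ℝ}
variable {F : (Λ → Fin d) → ℝ} {δ : ℝ}

omit [AddCommGroup Λ] in
theorem relG_eq {G : Λ → Matrix (Λ → Fin d) (Λ → Fin d) ℂ} (t : (Λ → Fin d) → ℂ) (E : ℂ) :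
    cj g t (∑ v, G v - E • (1 : Matrix (Λ → Fin d) (Λ → Fin d) ℂ)) =
      ∑ v, cj g t (G v) - E • 1 := by
  rw [cj_sub, cj_sum, cj_smul, cj_one]

theorem relG_vac {G : Λ → Matrix (Λ → Fin d) (Λ → Fin d) ℂ} {t : (Λ → Fin d) → ℂ}
    (hs : SolG g G t) (z : Λ → Fin d) :
    cj g t (∑ v, G v - gE g G t • (1 : Matrix (Λ → Fin d) (Λ → Fin d) ℂ)) z (vac g) = 0 := by
  rw [relG_eq, Matrix.sub_apply, Matrix.sum_apply, Matrix.smul_apply, smul_eq_mul]
  by_cases hz : z = vac g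
  · subst hz
    rw [Matrix.one_apply_eq, mul_one]
    exact sub_self _
  · rw [Matrix.one_apply_ne hz, mul_zero, sub_zero]
    exact hs z hz

/-- the real inequality behind `relG_bd` -/
theorem relG_num {δ κ K : ℝ} {b : ℕ} (hδ : 0 < δ) (hκ : 0 ≤ κ) (hK : 0 ≤ K)
    (hKs : K ≤ δ * rad δ κ b / 2) :
    (b : ℝ) * (2 ^ b * (8 * κ * (b * rad δ κ b) + 4 * K)) ≤ δ / 2 ∧
      0 ≤ rad δ κ b ∧ (b : ℝ) * rad δ κ b ≤ 1 / 4 := by
  have hb0 : (0 : ℝ) ≤ b := Nat.cast_nonneg b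
  have hP : (1 : ℝ) ≤ 2 ^ b := one_le_pow₀ (by norm_num)
  have hP0 : (0 : ℝ) < 2 ^ b := by positivity
  have hs : 0 < κ + δ := by linarith
  have hD0 : 0 < 96 * 2 ^ b * (κ + δ) * ((b : ℝ) + 1) ^ 2 := by positivity
  have hr0 : 0 ≤ rad δ κ b := by unfold rad; positivity
  set r := rad δ κ b with hr
  have hrD : r * (96 * 2 ^ b * (κ + δ) * ((b : ℝ) + 1) ^ 2) = δ := by
    rw [hr]; unfold rad; exact div_mul_cancel₀ _ hD0.ne'
  -- `96 * 2^b * (κ + δ) * (b + 1)^2 * r = δ`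
  have h1 : 2 ^ b * κ * (b : ℝ) ^ 2 * r ≤ 2 ^ b * (κ + δ) * ((b : ℝ) + 1) ^ 2 * r := by
    refine mul_le_mul_of_nonneg_right ?_ hr0
    refine mul_le_mul ?_ ?_ (by positivity) (by positivity)
    · exact mul_le_mul_of_nonneg_left (by linarith) hP0.le
    · nlinarith
  have h2 : 2 ^ b * δ * (b : ℝ) * r ≤ 2 ^ b * (κ + δ) * ((b : ℝ) + 1) ^ 2 * r := by
    refine mul_le_mul_of_nonneg_right ?_ hr0
    refine mul_le_mul ?_ ?_ (by positivity) (by positivity)
    · exact mul_le_mul_of_nonneg_left (by linarith) hP0.le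
    · nlinarith
  have h3 : 2 ^ b * (κ + δ) * ((b : ℝ) + 1) ^ 2 * r = δ / 96 := by
    linarith
  have h4 : (b : ℝ) * 2 ^ b * K ≤ (b : ℝ) * 2 ^ b * (δ * r / 2) :=
    mul_le_mul_of_nonneg_left hKs (by positivity)
  refine ⟨?_, hr0, ?_⟩
  · have e1 : (b : ℝ) * (2 ^ b * (8 * κ * (b * r) + 4 * K))
        = 8 * (2 ^ b * κ * (b : ℝ) ^ 2 * r) + 4 * ((b : ℝ) * 2 ^ b * K) := by ring
    have e2 : (b : ℝ) * 2 ^ b * (δ * r / 2) = (2 ^ b * δ * (b : ℝ) * r) / 2 := by ring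
    rw [e1]
    linarith
  · -- `δ b r ≤ 2^b (κ+δ) (b+1)^2 r = δ/96`
    have h5 : δ * ((b : ℝ) * r) ≤ 2 ^ b * δ * (b : ℝ) * r := by
      have : 0 ≤ δ * ((b : ℝ) * r) := by positivity
      nlinarith
    have h6 : δ * ((b : ℝ) * r) ≤ δ * (1 / 4) := by linarith
    exact le_of_mul_le_mul_left h6 hδ

theorem relG_bd (hN : LocFam g N Bx b κ) (hκ : 0 ≤ κ) (hC : Cls g N Bx F δ) (hδ : 0 < δ)
    (hW : LocFam g W Bx b K) (hK : 0 ≤ K) (hKs : K ≤ δ * rad δ κ b / 2)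
    {t : (Λ → Fin d) → ℂ} (hI : Inv t) (ht0 : t (vac g) = 0) (hn : nrm g t ≤ rad δ κ b)
    (hs : SolG g (fun v => N v + W v) t) {a : ℝ} (ha : 1 / 2 ≤ a) (ha1 : a ≤ 1)
    (x : Λ → Fin d) :
    ∑ z, a ^ (sz g z) *
      ‖(cj g t (∑ v, (N v + W v) -
          gE g (fun v => N v + W v) t • (1 : Matrix (Λ → Fin d) (Λ → Fin d) ℂ)) -
        Matrix.diagonal (fun x => ((F x : ℝ) : ℂ))) z x‖ ≤
      (δ / 2) * (sz g x : ℝ) * a ^ (sz g x) := by
  classical
  have ha0 : 0 < a := by linarith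
  obtain ⟨hnum, hr0, hbr⟩ := relG_num hδ hκ hK hKs
  set r := rad δ κ b with hr
  set c : ℝ := b * r with hcdef
  have hc0 : 0 ≤ c := by positivity
  have hrv := relG_vac hs
  set E := gE g (fun v => N v + W v) t with hE
  set X := cj g t (∑ v, (N v + W v) - E • (1 : Matrix (Λ → Fin d) (Λ → Fin d) ℂ)) with hX
  set R : Matrix (Λ → Fin d) (Λ → Fin d) ℂ :=
    X - Matrix.diagonal (fun x => ((F x : ℝ) : ℂ)) with hR
  set A : Λ → Matrix (Λ → Fin d) (Λ → Fin d) ℂ :=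
    fun v => (cj g t (N v) - N v) + cj g t (W v) with hA
  have hAv : ∀ v, A v = (cj g t (N v) - N v) + cj g t (W v) := fun v => rfl
  have hRv : ∀ z, R z (vac g) = 0 := by
    intro z
    have h1 : (Matrix.diagonal (fun x => ((F x : ℝ) : ℂ)) :
        Matrix (Λ → Fin d) (Λ → Fin d) ℂ) z (vac g) = 0 := by
      by_cases hz : z = vac g
      · rw [hz, Matrix.diagonal_apply_eq, hC.vac, Complex.ofReal_zero]
      · exact Matrix.diagonal_apply_ne _ hz
    rw [hR, Matrix.sub_apply, hrv z, h1, sub_zero]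
  have hRe : R = ∑ v, A v - E • 1 := by
    rw [hR, hX, relG_eq, ← hC.tot]
    have h1 : ∑ v, cj g t (N v + W v) = ∑ v, (A v + N v) := by
      refine Finset.sum_congr rfl fun v _ => ?_
      rw [cj_add, hAv]
      abel
    rw [h1, Finset.sum_add_distrib]
    abel
  set V : Finset Λ := Finset.univ.filter fun v => ∃ u ∈ Bx v, x u ≠ g with hV
  have hAcomm : ∀ v, (∀ u ∈ Bx v, x u = g) → A v * Cr g x - Cr g x * A v = 0 := by
    intro v hv
    have h1 := rel_comm hN t hv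
    have h2 := rel_comm hW t hv
    have h3 : N v * Cr g x - Cr g x * N v = 0 := sub_eq_zero.mpr (hN.comm v x hv).eq
    have h4 : A v * Cr g x - Cr g x * A v
        = (cj g t (N v) * Cr g x - Cr g x * cj g t (N v)) - (N v * Cr g x - Cr g x * N v)
          + (cj g t (W v) * Cr g x - Cr g x * cj g t (W v)) := by
      rw [hAv]
      simp only [add_mul, mul_add, sub_mul, mul_sub]
      abel
    rw [h4, h1, h2, h3]
    simp
  have hcomm : R * Cr g x - Cr g x * R = ∑ v ∈ V, (A v * Cr g x - Cr g x * A v) := by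
    have h1 : R * Cr g x - Cr g x * R = ∑ v, (A v * Cr g x - Cr g x * A v) := by
      rw [hRe, sub_mul, mul_sub, Finset.sum_mul, Finset.mul_sum,
        Finset.sum_sub_distrib, smul_mul_assoc, mul_smul_comm, one_mul, mul_one]
      abel
    rw [h1]
    symm
    refine Finset.sum_subset (Finset.subset_univ V) fun v _ hv => ?_
    refine hAcomm v fun u hu => ?_
    by_contra hne
    exact hv (Finset.mem_filter.2 ⟨Finset.mem_univ _, u, hu, hne⟩)
  have hcol : ∀ z, R z x = ∑ v ∈ V, (A v z x - (Cr g x * A v) z (vac g)) := by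
    intro z
    have h1 : (Cr g x * R) z (vac g) = 0 := by
      rw [Matrix.mul_apply]
      exact Finset.sum_eq_zero fun w _ => by rw [hRv w, mul_zero]
    have h2 : R z x = (R * Cr g x - Cr g x * R) z (vac g) := by
      rw [Matrix.sub_apply, h1, mul_cr_vac, sub_zero]
    rw [h2, hcomm, Matrix.sum_apply]
    refine Finset.sum_congr rfl fun v _ => ?_
    rw [Matrix.sub_apply, mul_cr_vac]
  have hb0 : (0 : ℝ) ≤ b := Nat.cast_nonneg b
  have hc : ∀ v, ∑ y, ‖tch g (Bx v) t y‖ ≤ c := by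
    intro v
    have hn0 : 0 ≤ nrm g t := by
      unfold nrm
      positivity
    calc ∑ y, ‖tch g (Bx v) t y‖ ≤ ((Bx v).card : ℝ) * nrm g t := tch_le hI (Bx v)
      _ ≤ (b : ℝ) * r := by
          have h1 : ((Bx v).card : ℝ) ≤ b := by exact_mod_cast hW.card v
          exact mul_le_mul h1 hn hn0 hb0
  have hAb : (a⁻¹) ^ b ≤ 2 ^ b := by
    have h1 : a⁻¹ ≤ 2 := by
      rw [inv_le_comm₀ ha0 (by norm_num)]
      linarith
    exact pow_le_pow_left₀ (by positivity) h1 b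
  have hab0 : 0 ≤ (a⁻¹) ^ b := by positivity
  have hexp2 : Real.exp (2 * c) ≤ 2 := by
    have h1 : Real.exp (2 * c) ≤ Real.exp (1 / 2) := Real.exp_le_exp.mpr (by linarith)
    have h2 : Real.exp (1 / 2) ^ 2 = Real.exp 1 := by
      rw [← Real.exp_nat_mul]; norm_num
    have h3 := Real.exp_one_lt_d9
    have h4 : Real.exp (1 / 2) ≤ 2 := by
      nlinarith [Real.exp_pos (1 / 2)]
    linarith
  have hexp1 : Real.exp (2 * c) - 1 ≤ 4 * c := by
    have h0 : |2 * c| ≤ 1 := by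
      rw [abs_of_nonneg (by linarith)]; linarith
    have h1 := Real.abs_exp_sub_one_le h0
    rw [abs_of_nonneg (by linarith : (0 : ℝ) ≤ 2 * c)] at h1
    have h2 := le_abs_self (Real.exp (2 * c) - 1)
    linarith
  have hexp0 : 0 ≤ Real.exp (2 * c) - 1 := by
    have := Real.add_one_le_exp (2 * c)
    linarith
  set Q : ℝ := 2 ^ b * (4 * κ * c + 2 * K) with hQd
  have hQ0 : 0 ≤ Q := by positivity
  have hBd : ∀ v, Bd g a Q (A v) := by
    intro v
    have h1 := cls_bd hN hκ ha0 ha1 t v (hc v)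
    have h2 := cj_bd hW hK ha0 ha1 t v (hc v)
    refine Bd.mono ha0 (Bd.add h1 h2 ha0) ?_
    have h3 : κ * (a⁻¹) ^ b * (Real.exp (2 * c) - 1) ≤ κ * 2 ^ b * (4 * c) := by
      refine mul_le_mul (mul_le_mul_of_nonneg_left hAb hκ) hexp1 hexp0 (by positivity)
    have h4 : K * (a⁻¹) ^ b * Real.exp (2 * c) ≤ K * 2 ^ b * 2 := by
      refine mul_le_mul (mul_le_mul_of_nonneg_left hAb hK) hexp2 (Real.exp_pos _).le
        (by positivity)
    have h5 : Q = κ * 2 ^ b * (4 * c) + K * 2 ^ b * 2 := by rw [hQd]; ring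
    rw [h5]
    linarith
  have h1 : ∀ v, ∑ z, a ^ (sz g z) * ‖A v z x‖ ≤ Q * a ^ (sz g x) := fun v => hBd v x
  have h2 : ∀ v, ∑ z, a ^ (sz g z) * ‖(Cr g x * A v) z (vac g)‖ ≤ Q * a ^ (sz g x) := by
    intro v
    have h3 := Bd.mul ha0 (by positivity) (cr_bd g ha0 x) (hBd v) (vac g)
    rw [sz_vac, pow_zero, mul_one] at h3
    linarith
  calc ∑ z, a ^ (sz g z) * ‖R z x‖
      ≤ ∑ z, ∑ v ∈ V, (a ^ (sz g z) * ‖A v z x‖ +
          a ^ (sz g z) * ‖(Cr g x * A v) z (vac g)‖) := by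
        refine Finset.sum_le_sum fun z _ => ?_
        rw [hcol z]
        calc a ^ (sz g z) * ‖∑ v ∈ V, (A v z x - (Cr g x * A v) z (vac g))‖
            ≤ a ^ (sz g z) * ∑ v ∈ V, (‖A v z x‖ + ‖(Cr g x * A v) z (vac g)‖) := by
              refine mul_le_mul_of_nonneg_left ?_ (by positivity)
              exact (norm_sum_le _ _).trans (Finset.sum_le_sum fun v _ => norm_sub_le _ _)
          _ = _ := by
              rw [Finset.mul_sum]
              exact Finset.sum_congr rfl fun v _ => mul_add _ _ _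
    _ = ∑ v ∈ V, ((∑ z, a ^ (sz g z) * ‖A v z x‖) +
          ∑ z, a ^ (sz g z) * ‖(Cr g x * A v) z (vac g)‖) := by
        rw [Finset.sum_comm]
        exact Finset.sum_congr rfl fun v _ => Finset.sum_add_distrib
    _ ≤ ∑ _v ∈ V, (Q * a ^ (sz g x) + Q * a ^ (sz g x)) :=
        Finset.sum_le_sum fun v _ => add_le_add (h1 v) (h2 v)
    _ = (V.card : ℝ) * (2 * Q * a ^ (sz g x)) := by
        rw [Finset.sum_const, nsmul_eq_mul]
        ring
    _ ≤ ((b : ℝ) * sz g x) * (2 * Q * a ^ (sz g x)) := by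
        have h3 : (V.card : ℝ) ≤ (b : ℝ) * sz g x := by exact_mod_cast rel_card hW x
        exact mul_le_mul_of_nonneg_right h3 (by positivity)
    _ = ((b : ℝ) * (2 ^ b * (8 * κ * c + 4 * K))) * ((sz g x : ℝ) * a ^ (sz g x)) := by
        rw [hQd]; ring
    _ ≤ (δ / 2) * ((sz g x : ℝ) * a ^ (sz g x)) := by
        refine mul_le_mul_of_nonneg_right hnum (by positivity)
    _ = _ := by ring

end Pool.Agent.KTP
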