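import Mathlib
import Pool.Agent.Helper2.PB.Defs
import Pool.Agent.KTP.Df

/-!
# Module Ema: the translates of an operator on the box form a `LocFam` on the torus
`Bx v` = image of `site v`. `touch`: `u = site v p` determines `v` for each `p`. `comm`: entrywise. `bd`: column `x` of
`emb` has entries at the `z` equal to `x` off the image, i.e. indexed by the restriction to the image
(the map `z ↦ z ∘ site v` is injective on them), and `sz z ≥ sz x - s²`. `cov`: `site (v+w) p = site v p + w`.
-/

set_option autoImplicit false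
set_option linter.unusedSectionVars false

namespace Pool.Agent.KTP

open Matrix Pool.Agent.Helper2.PB

section gen

variable {d : ℕ} {V B : Type} [DecidableEq B] [Fintype B] [DecidableEq V] [Fintype V]

lemma emb_eq (pos : B → V) (M : Matrix (B → Fin d) (B → Fin d) ℂ) (z x : V → Fin d)
    (h : ∀ u, (∀ p, pos p ≠ u) → z u = x u) :
    emb pos M z x = M (fun p => z (pos p)) (fun p => x (pos p)) := by
  unfold emb
  exact if_pos h

lemma emb_zero (pos : B → V) (M : Matrix (B → Fin d) (B → Fin d) ℂ) (z x : V → Fin d)
    (h : ¬ ∀ u, (∀ p, pos p ≠ u) → z u = x u) : emb pos M z x = 0 := by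
  unfold emb
  exact if_neg h

lemma off_iff (pos : B → V) (z x : V → Fin d) :
    (∀ u, (∀ p, pos p ≠ u) → z u = x u) ↔ ∀ u, u ∉ Finset.univ.image pos → z u = x u := by
  constructor
  · intro h u hu
    refine h u fun p hp => hu ?_
    exact Finset.mem_image.mpr ⟨p, Finset.mem_univ _, hp⟩
  · intro h u hu
    refine h u fun hm => ?_
    obtain ⟨p, -, hp⟩ := Finset.mem_image.mp hm
    exact hu p hp

lemma sz_le (g : Fin d) (S : Finset V) (z x : V → Fin d) (h : ∀ u, u ∉ S → z u = x u) :
    sz g x ≤ sz g z + S.card := by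
  unfold sz
  have : (Finset.univ.filter fun v => x v ≠ g) ⊆ (Finset.univ.filter fun v => z v ≠ g) ∪ S := by
    intro v hv
    rw [Finset.mem_union]
    by_cases hS : v ∈ S
    · exact Or.inr hS
    · left
      rw [Finset.mem_filter] at hv ⊢
      exact ⟨Finset.mem_univ _, by rw [h v hS]; exact hv.2⟩
  exact (Finset.card_le_card this).trans (Finset.card_union_le _ _)

lemma emb_col (pos : B → V) (M : Matrix (B → Fin d) (B → Fin d) ℂ) (K : ℝ)
    (hK : ∀ x, ∑ z, ‖M z x‖ ≤ K) (x : V → Fin d) : ∑ z, ‖emb pos M z x‖ ≤ K := by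
  classical
  have h1 : ∑ z, ‖emb pos M z x‖ = ∑ z ∈ Finset.univ.filter
      (fun z : V → Fin d => ∀ u, u ∉ Finset.univ.image pos → z u = x u), ‖emb pos M z x‖ := by
    symm
    refine Finset.sum_subset (Finset.filter_subset _ _) ?_
    intro z _ hz
    rw [emb_zero pos M z x, norm_zero]
    intro h
    exact hz (Finset.mem_filter.mpr ⟨Finset.mem_univ _, (off_iff pos z x).mp h⟩)
  rw [h1]
  have h2 : ∑ z ∈ Finset.univ.filter
      (fun z : V → Fin d => ∀ u, u ∉ Finset.univ.image pos → z u = x u), ‖emb pos M z x‖
      = ∑ y ∈ (Finset.univ.filter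
      (fun z : V → Fin d => ∀ u, u ∉ Finset.univ.image pos → z u = x u)).image
        (fun z : V → Fin d => fun p => z (pos p)), ‖M y (fun p => x (pos p))‖ := by
    rw [Finset.sum_image]
    · refine Finset.sum_congr rfl fun z hz => ?_
      rw [Finset.mem_filter] at hz
      rw [emb_eq pos M z x ((off_iff pos z x).mpr hz.2)]
    · intro z hz w hw hzw
      rw [Finset.mem_coe, Finset.mem_filter] at hz hw
      funext u
      by_cases hu : u ∈ Finset.univ.image pos
      · obtain ⟨p, -, hp⟩ := Finset.mem_image.mp hu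
        have := congrFun hzw p
        simp only at this
        rw [hp] at this
        exact this
      · rw [hz.2 u hu, hw.2 u hu]
  rw [h2]
  refine le_trans ?_ (hK (fun p => x (pos p)))
  exact Finset.sum_le_sum_of_subset_of_nonneg (Finset.subset_univ _)
    fun _ _ _ => norm_nonneg _

lemma emb_bd (g : Fin d) (pos : B → V) (M : Matrix (B → Fin d) (B → Fin d) ℂ) (K : ℝ)
    (hK : ∀ x, ∑ z, ‖M z x‖ ≤ K) (a : ℝ) (h0 : 0 < a) (h1 : a ≤ 1) (b : ℕ)
    (hb : Fintype.card B ≤ b) : Bd g a (K * (a⁻¹) ^ b) (emb pos M) := by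
  intro x
  have hab : 0 < a ^ b := pow_pos h0 b
  have h2 : ∀ z, a ^ (sz g z) * ‖emb pos M z x‖
      ≤ (a⁻¹) ^ b * a ^ (sz g x) * ‖emb pos M z x‖ := by
    intro z
    by_cases h : ∀ u, (∀ p, pos p ≠ u) → z u = x u
    · refine mul_le_mul_of_nonneg_right ?_ (norm_nonneg _)
      have h3 := sz_le g (Finset.univ.image pos) z x ((off_iff pos z x).mp h)
      have h4 : (Finset.univ.image pos).card ≤ b :=
        (Finset.card_image_le.trans (le_of_eq (Finset.card_univ))).trans hb
      have h5 : sz g x ≤ sz g z + b := h3.trans (Nat.add_le_add_left h4 _)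
      have h6 : a ^ (sz g z + b) ≤ a ^ (sz g x) := pow_le_pow_of_le_one h0.le h1 h5
      rw [inv_pow, inv_mul_eq_div, le_div_iff₀ hab, ← pow_add]
      exact h6
    · rw [emb_zero pos M z x h]
      simp
  calc ∑ z, a ^ (sz g z) * ‖emb pos M z x‖
      ≤ ∑ z, (a⁻¹) ^ b * a ^ (sz g x) * ‖emb pos M z x‖ := Finset.sum_le_sum fun z _ => h2 z
    _ = (a⁻¹) ^ b * a ^ (sz g x) * ∑ z, ‖emb pos M z x‖ := by rw [Finset.mul_sum]
    _ ≤ (a⁻¹) ^ b * a ^ (sz g x) * K := by
        refine mul_le_mul_of_nonneg_left (emb_col pos M K hK x) ?_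
        positivity
    _ = K * (a⁻¹) ^ b * a ^ (sz g x) := by ring

open Classical in
lemma emb_comm (g : Fin d) (pos : B → V) (M : Matrix (B → Fin d) (B → Fin d) ℂ)
    (y : V → Fin d) (hy : ∀ u ∈ Finset.univ.image pos, y u = g) :
    Commute (emb pos M) (Cr g y) := by
  have hyp : ∀ p, y (pos p) = g := fun p =>
    hy _ (Finset.mem_image.mpr ⟨p, Finset.mem_univ _, rfl⟩)
  unfold Commute SemiconjBy
  ext z x
  rw [Matrix.mul_apply, Matrix.mul_apply]
  have hL : ∑ w, emb pos M z w * Cr g y w x
      = if Dis g x y then emb pos M z (jn g x y) else 0 := by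
    rw [Finset.sum_eq_single (jn g x y)]
    · unfold Cr
      by_cases h : Dis g x y
      · rw [if_pos ⟨h, rfl⟩, if_pos h, mul_one]
      · rw [if_neg (fun h' => h h'.1), if_neg h, mul_zero]
    · intro w _ hw
      unfold Cr
      rw [if_neg (fun h' => hw h'.2), mul_zero]
    · intro h; exact absurd (Finset.mem_univ _) h
  set w0 : V → Fin d := fun u => if u ∈ Finset.univ.image pos then z u else x u with hw0
  have w0in : ∀ p, w0 (pos p) = z (pos p) := fun p => by
    simp only [hw0]
    rw [if_pos (Finset.mem_image.mpr ⟨p, Finset.mem_univ _, rfl⟩)]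
  have w0off : ∀ u, u ∉ Finset.univ.image pos → w0 u = x u := fun u hu => by
    simp only [hw0]; rw [if_neg hu]
  have hR : ∑ w, Cr g y z w * emb pos M w x
      = Cr g y z w0 * emb pos M w0 x := by
    rw [Finset.sum_eq_single w0]
    · intro w _ hw
      by_cases h1 : Dis g w y ∧ z = jn g w y
      · by_cases h2 : ∀ u, (∀ p, pos p ≠ u) → w u = x u
        · exfalso
          apply hw
          funext u
          by_cases hu : u ∈ Finset.univ.image pos
          · obtain ⟨p, -, hp⟩ := Finset.mem_image.mp hu
            rw [← hp, w0in p, h1.2]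
            unfold jn
            rw [if_pos (hyp p)]
          · rw [w0off u hu]
            exact (off_iff pos w x).mp h2 u hu
        · rw [emb_zero pos M w x h2, mul_zero]
      · unfold Cr
        rw [if_neg h1, zero_mul]
    · intro h; exact absurd (Finset.mem_univ _) h
  rw [hL, hR]
  have hemb : emb pos M w0 x = M (fun p => z (pos p)) (fun p => x (pos p)) := by
    rw [emb_eq pos M w0 x ((off_iff pos w0 x).mpr w0off)]
    congr 1
    funext p
    exact w0in p
  have hdis : Dis g w0 y ↔ Dis g x y := by
    constructor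
    · intro h v
      by_cases hv : v ∈ Finset.univ.image pos
      · exact Or.inr (hy v hv)
      · have := h v
        rw [w0off v hv] at this
        exact this
    · intro h v
      by_cases hv : v ∈ Finset.univ.image pos
      · exact Or.inr (hy v hv)
      · have := h v
        rw [w0off v hv]
        exact this
  have hz : z = jn g w0 y ↔ ∀ u, (∀ p, pos p ≠ u) → z u = jn g x y u := by
    rw [off_iff]
    constructor
    · intro h u hu
      rw [congrFun h u]
      unfold jn
      rw [w0off u hu]
    · intro h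
      funext u
      by_cases hu : u ∈ Finset.univ.image pos
      · unfold jn
        obtain ⟨p, -, hp⟩ := Finset.mem_image.mp hu
        rw [← hp, if_pos (hyp p), w0in p]
      · rw [h u hu]
        unfold jn
        rw [w0off u hu]
  by_cases h1 : Dis g x y
  · rw [if_pos h1]
    by_cases h2 : z = jn g w0 y
    · rw [emb_eq pos M z (jn g x y) (hz.mp h2)]
      unfold Cr
      rw [if_pos ⟨hdis.mpr h1, h2⟩, one_mul, hemb]
      congr 1
      funext p
      unfold jn
      rw [if_pos (hyp p)]
    · rw [emb_zero pos M z (jn g x y) (fun h => h2 (hz.mpr h))]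
      unfold Cr
      rw [if_neg (fun h => h2 h.2), zero_mul]
  · rw [if_neg h1]
    unfold Cr
    rw [if_neg (fun h => h1 (hdis.mp h.1)), zero_mul]

end gen

lemma site_add {L s : ℕ} (v w : Torus L) (p : Box s) : site (v + w) p = site v p + w := by
  unfold site
  ext <;> simp <;> ring

theorem locFam_emb {d s L : ℕ} [NeZero L] (g : Fin d) (V : Matrix (Box s → Fin d) (Box s → Fin d) ℂ)
    (K : ℝ) (hK : ∀ x, ∑ z, ‖V z x‖ ≤ K) :
    LocFam g (fun v : Torus L => emb (site v) V) (fun v => Finset.univ.image (site v : Box s → Torus L)) (s * s) K := by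
  have hcard : Fintype.card (Box s) = s * s := by
    simp [Box]
  refine ⟨?_, ?_, ?_, ?_, ?_⟩
  · intro v
    exact Finset.card_image_le.trans (le_of_eq (by rw [Finset.card_univ, hcard]))
  · intro u
    have h1 : (Finset.univ.filter fun v : Torus L => u ∈ Finset.univ.image (site v : Box s → Torus L))
        ⊆ Finset.univ.image (fun p : Box s => u - site (0 : Torus L) p) := by
      intro v hv
      rw [Finset.mem_filter] at hv
      obtain ⟨p, -, hp⟩ := Finset.mem_image.mp hv.2
      refine Finset.mem_image.mpr ⟨p, Finset.mem_univ _, ?_⟩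
      have h2 := site_add (0 : Torus L) v p
      rw [zero_add] at h2
      rw [← hp, h2, add_sub_cancel_left]
    exact (Finset.card_le_card h1).trans
      (Finset.card_image_le.trans (le_of_eq (by rw [Finset.card_univ, hcard])))
  · intro v y hy
    exact emb_comm g (site v) V y hy
  · intro v a h0 h1
    exact emb_bd g (site v) V K hK a h0 h1 (s * s) (le_of_eq hcard)
  · intro v w x y
    have e1 : ∀ x : Torus L → Fin d, ∀ p : Box s, sh w x (site (v + w) p) = x (site v p) := by
      intro x p
      unfold sh
      rw [site_add, add_sub_cancel_right]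
    by_cases h : ∀ u, (∀ p : Box s, site v p ≠ u) → x u = y u
    · have h' : ∀ u, (∀ p : Box s, site (v + w) p ≠ u) → sh w x u = sh w y u := by
        intro u hu
        unfold sh
        refine h (u - w) fun p hp => hu p ?_
        rw [site_add, hp, sub_add_cancel]
      rw [emb_eq _ V _ _ h', emb_eq _ V _ _ h]
      congr 1
      · funext p; exact e1 x p
      · funext p; exact e1 y p
    · have h' : ¬ ∀ u, (∀ p : Box s, site (v + w) p ≠ u) → sh w x u = sh w y u := by
        intro h2
        apply h
        intro u hu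
        have h3 := h2 (u + w) fun p hp => hu p (by
          rw [site_add] at hp
          exact add_right_cancel hp)
        unfold sh at h3
        rw [add_sub_cancel_right] at h3
        exact h3
      rw [emb_zero _ V _ _ h', emb_zero _ V _ _ h]

/-- The one-site operator `k` at the position `p` of the box. -/
def onSite {d : ℕ} {B : Type} [DecidableEq B] [Fintype B] (p : B) (k : Matrix (Fin d) (Fin d) ℂ) :
    Matrix (B → Fin d) (B → Fin d) ℂ :=
  fun σ τ => if ∀ q, q ≠ p → σ q = τ q then k (σ p) (τ p) else 0

/-- For injective `pos` the embedding of a one-site operator is the one-site operator. -/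
theorem emb_onSite {d : ℕ} {V B : Type} [DecidableEq B] [Fintype B] [DecidableEq V] [Fintype V]
    (pos : B → V) (hp : Function.Injective pos) (p : B) (k : Matrix (Fin d) (Fin d) ℂ) :
    emb pos (onSite p k) = onSite (pos p) k := by
  ext σ τ
  by_cases h : ∀ q, q ≠ pos p → σ q = τ q
  · have h1 : ∀ u, (∀ p, pos p ≠ u) → σ u = τ u := fun u hu => h u fun hu' => hu p hu'.symm
    rw [emb_eq pos _ _ _ h1]
    unfold onSite
    rw [if_pos h, if_pos]
    intro q hq
    exact h _ fun h' => hq (hp h')
  · have e2 : onSite (pos p) k σ τ = 0 := by unfold onSite; rw [if_neg h]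
    rw [e2]
    by_cases h1 : ∀ u, (∀ p, pos p ≠ u) → σ u = τ u
    · rw [emb_eq pos _ _ _ h1]
      unfold onSite
      rw [if_neg]
      intro h2
      apply h
      intro q hq
      by_cases hq' : ∀ p, pos p ≠ q
      · exact h1 q hq'
      · push Not at hq'
        obtain ⟨r, hr⟩ := hq'
        rw [← hr]
        exact h2 r fun h' => hq (by rw [← hr, h'])
    · exact emb_zero pos _ _ _ h1

theorem site_inj {L s : ℕ} [NeZero L] (hsL : s ≤ L) (v : Torus L) :
    Function.Injective (site v : Box s → Torus L) := by
  have key : ∀ i j : Fin s, ((i : ℕ) : ZMod L) = ((j : ℕ) : ZMod L) → i = j := by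
    intro i j h
    rw [ZMod.natCast_eq_natCast_iff'] at h
    rw [Nat.mod_eq_of_lt (i.2.trans_le hsL), Nat.mod_eq_of_lt (j.2.trans_le hsL)] at h
    exact Fin.ext h
  intro p q h
  unfold site at h
  have h1 := congrArg Prod.fst h
  have h2 := congrArg Prod.snd h
  simp only [add_right_inj] at h1 h2
  exact Prod.ext (key _ _ h1) (key _ _ h2)

/-- The sum over the torus of the diagonal one-site terms is `nn`. -/
theorem sum_onSite_diag {d s L : ℕ} [NeZero L] (p : Box s) (e : Fin d → ℝ) :
    ∑ v : Torus L, onSite (site v p) (Matrix.diagonal fun i => ((e i : ℝ) : ℂ)) = nn e := by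
  ext σ τ
  rw [Matrix.sum_apply]
  unfold nn
  by_cases h : σ = τ
  · subst h
    rw [Matrix.diagonal_apply_eq]
    have h1 : ∀ v : Torus L, onSite (site v p) (Matrix.diagonal fun i => ((e i : ℝ) : ℂ)) σ σ
        = ((e (σ (site v p)) : ℝ) : ℂ) := by
      intro v
      unfold onSite
      rw [if_pos (fun _ _ => rfl), Matrix.diagonal_apply_eq]
    rw [Finset.sum_congr rfl fun v _ => h1 v]
    unfold En
    rw [Complex.ofReal_sum]
    have h2 : ∀ v : Torus L, site v p = v + site (0 : Torus L) p := by
      intro v
      have := site_add (0 : Torus L) v p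
      rw [zero_add] at this
      rw [this, add_comm]
    rw [Finset.sum_congr rfl fun v _ => by rw [h2 v]]
    exact Fintype.sum_equiv (Equiv.addRight (site (0 : Torus L) p)) _ _ fun v => rfl
  · rw [Matrix.diagonal_apply_ne _ h]
    refine Finset.sum_eq_zero fun v _ => ?_
    unfold onSite
    by_cases h1 : ∀ q, q ≠ site v p → σ q = τ q
    · rw [if_pos h1, Matrix.diagonal_apply_ne]
      intro h2
      apply h
      funext q
      by_cases hq : q = site v p
      · rw [hq, h2]
      · exact h1 q hq
    · rw [if_neg h1]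

end Pool.Agent.KTP
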