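import Mathlib
import Pool.Agent.Helper2.PB.Defs
import Pool.Agent.KTP.Df
import Pool.Agent.KTP.Gdf
import Pool.Agent.KTP.Ema

/-!
# Module Emc: a classical Hamiltonian on the torus is `Cls`
`F x = ∑_v u (x ∘ site v)`; `kill`: `u` of the constant configuration is 0; `ge`: `∑_v [x (site v p) ≠ g] = sz x`
(`v ↦ site v p` is a bijection of the torus); column sums of `diagonal u` are at most `κ`.
-/

set_option autoImplicit false

namespace Pool.Agent.KTP

open Matrix Pool.Agent.Helper2.PB

theorem diag_col {ι : Type} [Fintype ι] [DecidableEq ι] (u : ι → ℝ) (κ : ℝ) (h0 : ∀ x, 0 ≤ u x)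
    (hκ : ∀ x, u x ≤ κ) (x : ι) :
    ∑ z, ‖(Matrix.diagonal (fun x => ((u x : ℝ) : ℂ)) : Matrix ι ι ℂ) z x‖ ≤ κ := by
  rw [Finset.sum_eq_single x]
  · rw [Matrix.diagonal_apply_eq, Complex.norm_real, Real.norm_eq_abs, abs_of_nonneg (h0 x)]
    exact hκ x
  · intro z _ hz
    rw [Matrix.diagonal_apply_ne _ hz, norm_zero]
  · intro h
    exact absurd (Finset.mem_univ _) h

/-- The embedding of a diagonal operator is diagonal. -/
theorem emb_diag {d : ℕ} {V B : Type} [DecidableEq B] [Fintype B] [DecidableEq V] [Fintype V]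
    (pos : B → V) (f : (B → Fin d) → ℂ) :
    emb pos (Matrix.diagonal f) = Matrix.diagonal fun x : V → Fin d => f fun q => x (pos q) := by
  ext σ τ
  by_cases h : σ = τ
  · subst h
    rw [emb_eq pos _ _ _ (fun _ _ => rfl), Matrix.diagonal_apply_eq, Matrix.diagonal_apply_eq]
  · rw [Matrix.diagonal_apply_ne _ h]
    by_cases h1 : ∀ u, (∀ p, pos p ≠ u) → σ u = τ u
    · rw [emb_eq pos _ _ _ h1, Matrix.diagonal_apply_ne]
      intro h2
      apply h
      funext u
      by_cases hu : ∀ p, pos p ≠ u
      · exact h1 u hu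
      · push Not at hu
        obtain ⟨p, rfl⟩ := hu
        exact congrFun h2 p
    · exact emb_zero pos _ _ _ h1

theorem cls_emb {d s L : ℕ} [NeZero L] (hsL : s ≤ L) (g : Fin d) (p : Box s) (δ : ℝ)
    (u : (Box s → Fin d) → ℝ)
    (h0 : ∀ x, 0 ≤ u x) (hg : u (fun _ => g) = 0) (hp : ∀ x, x p ≠ g → δ ≤ u x) :
    Cls g (fun v : Torus L => emb (site v) (Matrix.diagonal (fun x => ((u x : ℝ) : ℂ))))
      (fun v => Finset.univ.image (site v : Box s → Torus L))
      (fun x => ∑ v : Torus L, u (fun q => x (site v q))) δ := by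
  have _ := hsL
  refine ⟨?_, ?_, ?_, ?_⟩
  · intro v x hx z
    rw [emb_diag]
    by_cases h : z = x
    · subst h
      rw [Matrix.diagonal_apply_eq]
      have e : (fun q => z (site v q)) = fun _ : Box s => g := by
        funext q
        exact hx _ (Finset.mem_image.mpr ⟨q, Finset.mem_univ _, rfl⟩)
      rw [e, hg, Complex.ofReal_zero]
    · rw [Matrix.diagonal_apply_ne _ h]
  · ext σ τ
    rw [Matrix.sum_apply]
    by_cases h : σ = τ
    · subst h
      rw [Matrix.diagonal_apply_eq, Complex.ofReal_sum]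
      refine Finset.sum_congr rfl fun v _ => ?_
      rw [emb_diag, Matrix.diagonal_apply_eq]
    · rw [Matrix.diagonal_apply_ne _ h]
      refine Finset.sum_eq_zero fun v _ => ?_
      rw [emb_diag, Matrix.diagonal_apply_ne _ h]
  · intro x
    have h2 : ∀ v : Torus L, site v p = v + site (0 : Torus L) p := by
      intro v
      have := site_add (0 : Torus L) v p
      rw [zero_add] at this
      rw [this, add_comm]
    have h3 : (sz g x : ℝ) = ∑ v : Torus L, if x (site v p) ≠ g then (1 : ℝ) else 0 := by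
      unfold sz
      rw [Finset.card_filter]
      push_cast
      symm
      refine Fintype.sum_equiv (Equiv.addRight (site (0 : Torus L) p)) _ _ fun v => ?_
      rw [h2 v]
      rfl
    rw [h3, Finset.mul_sum]
    refine Finset.sum_le_sum fun v _ => ?_
    by_cases h : x (site v p) ≠ g
    · rw [if_pos h, mul_one]
      exact hp _ h
    · rw [if_neg h, mul_zero]
      exact h0 _
  · refine Finset.sum_eq_zero fun v _ => ?_
    exact hg

end Pool.Agent.KTP
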