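import Mathlib

/-!
# Numerics of the final step
-/

set_option autoImplicit false

namespace Pool.Agent.KTP

/-- `(1+x)^n - 1 ≤ 2 n x` for `n x ≤ 1`. -/
theorem pow_sub_one_le (x : ℝ) (hx : 0 ≤ x) (n : ℕ) (h : n * x ≤ 1) : (1 + x) ^ n - 1 ≤ 2 * (n * x) := by
  have h1 : (1 + x) ^ n ≤ Real.exp (n * x) := by
    rw [Real.exp_nat_mul]
    exact pow_le_pow_left₀ (by linarith) (by linarith [Real.add_one_le_exp x]) n
  have h0 : 0 ≤ (n : ℝ) * x := by positivity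
  have h2 := Real.abs_exp_sub_one_le (x := n * x) (by rw [abs_of_nonneg h0]; exact h)
  rw [abs_of_nonneg h0, abs_of_nonneg (by linarith [Real.add_one_le_exp ((n : ℝ) * x)])] at h2
  linarith

theorem exists_r (a d : ℕ) : ∃ r : ℕ, 1 ≤ r ∧ d ≤ 2 ^ r ∧ 16 * ((a : ℝ) * 2 + r) * d ≤ (2 : ℝ) ^ r := by
  have h1 : Filter.Tendsto (fun r : ℕ => (r : ℝ) / 2 ^ r) Filter.atTop (nhds 0) := by
    have := tendsto_pow_const_div_const_pow_of_one_lt 1 (by norm_num : (1 : ℝ) < 2)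
    simpa using this
  have h2 : Filter.Tendsto (fun r : ℕ => (1 : ℝ) / 2 ^ r) Filter.atTop (nhds 0) := by
    have := tendsto_pow_atTop_nhds_zero_of_lt_one (by norm_num : (0 : ℝ) ≤ 1 / 2) (by norm_num)
    simpa [one_div, inv_pow] using this
  have h3 : Filter.Tendsto (fun r : ℕ => 32 * (a : ℝ) * d * (1 / 2 ^ r) + 16 * d * ((r : ℝ) / 2 ^ r))
      Filter.atTop (nhds 0) := by
    have := (h2.const_mul (32 * (a : ℝ) * d)).add (h1.const_mul (16 * (d : ℝ)))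
    simpa using this
  have h4 : ∀ᶠ r : ℕ in Filter.atTop, 32 * (a : ℝ) * d * (1 / 2 ^ r) + 16 * d * ((r : ℝ) / 2 ^ r) < 1 :=
    h3.eventually (gt_mem_nhds (by norm_num))
  obtain ⟨r, hr, hr1, hr2⟩ := (h4.and ((Filter.eventually_ge_atTop 1).and
    (Filter.eventually_ge_atTop d))).exists
  refine ⟨r, hr1, hr2.trans (Nat.lt_two_pow_self).le, ?_⟩
  have h5 : (0 : ℝ) < 2 ^ r := by positivity
  have h6 : 32 * (a : ℝ) * d * (1 / 2 ^ r) + 16 * d * ((r : ℝ) / 2 ^ r) =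
      (16 * ((a : ℝ) * 2 + r) * d) / 2 ^ r := by ring
  rw [h6, div_lt_one h5] at hr
  exact hr.le

/-- The tail with `k = (2c+4) ℓ + r`, `L < 2^ℓ ≤ 2L`. -/
theorem tail_le (c d : ℕ) : ∃ r : ℕ, 1 ≤ r ∧ ∀ L : ℕ, 1 ≤ L →
    2 * (((2 * c + 4) * (Nat.log 2 L + 1) + r : ℕ) : ℝ) *
      ((1 + d * (1 / 2 : ℝ) ^ ((2 * c + 4) * (Nat.log 2 L + 1) + r)) ^ (L ^ 2) - 1) ≤
        (1 / 2 * (1 / (L : ℝ) ^ c)) ^ 2 := by
  obtain ⟨r, hr1, hdr, hr⟩ := exists_r (2 * c + 4) d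
  refine ⟨r, hr1, ?_⟩
  intro L hL
  set ℓ : ℕ := Nat.log 2 L + 1 with hℓ
  have hL1 : (1 : ℝ) ≤ L := by exact_mod_cast hL
  have hL0 : (0 : ℝ) < L := by linarith
  have h1 : L < 2 ^ ℓ := Nat.lt_pow_succ_log_self (by norm_num) L
  have h1' : (L : ℝ) ≤ 2 ^ ℓ := by exact_mod_cast h1.le
  have hℓL : ℓ ≤ 2 * L := by
    have h2 : Nat.log 2 L < L := Nat.log_lt_self 2 (by omega)
    omega
  set k : ℕ := (2 * c + 4) * ℓ + r with hk
  have h3 : (1 / 2 : ℝ) ^ k ≤ 1 / (L : ℝ) ^ (2 * c + 4) * (1 / 2 ^ r) := by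
    rw [hk, pow_add, mul_comm (2 * c + 4) ℓ, pow_mul, one_div_pow, one_div_pow, one_div_pow]
    apply mul_le_mul_of_nonneg_right _ (by positivity)
    apply one_div_le_one_div_of_le (by positivity)
    exact pow_le_pow_left₀ hL0.le h1' _
  set x : ℝ := d * (1 / 2 : ℝ) ^ k with hx
  have hx0 : 0 ≤ x := by positivity
  have hx1 : ((L ^ 2 : ℕ) : ℝ) * x ≤ (d / 2 ^ r) * (1 / (L : ℝ) ^ (2 * c + 2)) := by
    have h4 : ((L ^ 2 : ℕ) : ℝ) * x ≤ (L : ℝ) ^ 2 * (d * (1 / (L : ℝ) ^ (2 * c + 4) * (1 / 2 ^ r))) := by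
      rw [hx]; push_cast
      apply mul_le_mul_of_nonneg_left _ (by positivity)
      exact mul_le_mul_of_nonneg_left h3 (by positivity)
    refine h4.trans (le_of_eq ?_)
    have : (L : ℝ) ^ (2 * c + 4) = (L : ℝ) ^ 2 * (L : ℝ) ^ (2 * c + 2) := by
      rw [← pow_add]; congr 1; ring
    rw [this]
    field_simp
  have hLp : 1 / (L : ℝ) ^ (2 * c + 2) ≤ 1 := by
    rw [div_le_one (by positivity)]
    exact one_le_pow₀ hL1
  have hd2 : (d : ℝ) / 2 ^ r ≤ 1 := by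
    rw [div_le_one (by positivity)]
    exact_mod_cast hdr
  have hx2 : ((L ^ 2 : ℕ) : ℝ) * x ≤ 1 := by
    refine hx1.trans ?_
    have := mul_le_mul hd2 hLp (by positivity) zero_le_one
    linarith
  have h5 := pow_sub_one_le x hx0 (L ^ 2) hx2
  have hkr : ((k : ℕ) : ℝ) ≤ ((2 * c + 4 : ℕ) * 2 + r) * L := by
    have : (k : ℝ) = (2 * c + 4 : ℕ) * ℓ + r := by rw [hk]; push_cast; ring
    rw [this]
    have h6 : (ℓ : ℝ) ≤ 2 * L := by exact_mod_cast hℓL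
    have h7 : (0 : ℝ) ≤ ((2 * c + 4 : ℕ) : ℝ) := Nat.cast_nonneg _
    have h8 : (0 : ℝ) ≤ (r : ℝ) := Nat.cast_nonneg _
    nlinarith [mul_le_mul_of_nonneg_left h6 h7, mul_le_mul_of_nonneg_left hL1 h8]
  calc 2 * ((k : ℕ) : ℝ) * ((1 + x) ^ (L ^ 2) - 1) ≤ 2 * (k : ℝ) * (2 * (((L ^ 2 : ℕ) : ℝ) * x)) :=
        mul_le_mul_of_nonneg_left h5 (by positivity)
    _ ≤ 2 * ((((2 * c + 4 : ℕ) : ℝ) * 2 + r) * L) * (2 * ((d / 2 ^ r) * (1 / (L : ℝ) ^ (2 * c + 2)))) := by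
        apply mul_le_mul
        · linarith
        · linarith
        · positivity
        · positivity
    _ = (4 * (((2 * c + 4 : ℕ) : ℝ) * 2 + r) * d / 2 ^ r) * (1 / (L : ℝ) ^ (2 * c + 1)) := by
        have : (L : ℝ) ^ (2 * c + 2) = L * (L : ℝ) ^ (2 * c + 1) := by rw [← pow_succ']
        rw [this]
        field_simp
        ring
    _ ≤ (1 / 4) * (1 / (L : ℝ) ^ (2 * c)) := by
        apply mul_le_mul _ _ (by positivity) (by norm_num)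
        · rw [div_le_iff₀ (by positivity)]
          linarith
        · apply one_div_le_one_div_of_le (by positivity)
          exact pow_le_pow_right₀ hL1 (by omega)
    _ = (1 / 2 * (1 / (L : ℝ) ^ c)) ^ 2 := by
        rw [mul_pow, div_pow, div_pow, ← pow_mul, mul_comm c 2]
        norm_num

/-- The bond dimension. -/
theorem bond_le (C₀ T : ℝ) (hC : 0 < C₀) (hT : 0 < T) (c r : ℕ) : ∃ B k : ℕ, ∀ L : ℕ, 1 ≤ L →
    C₀ * (L / (1 / 2 * (1 / (L : ℝ) ^ c))) ^ C₀ *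
      Real.exp (C₀ * ((((2 * c + 4) * (Nat.log 2 L + 1) + r : ℕ) : ℝ) * T / 2)) ≤ B * (L : ℝ) ^ k := by
  set A : ℝ := C₀ * T * (c + 2) / Real.log 2 with hA
  have hl2 : 0 < Real.log 2 := Real.log_pos (by norm_num)
  have hA0 : 0 ≤ A := by positivity
  set B : ℝ := C₀ * 2 ^ C₀ * Real.exp (C₀ * T * r / 2) * 2 ^ A with hB
  set k₀ : ℝ := (c + 1) * C₀ + A with hk₀
  refine ⟨⌈B⌉₊, ⌈k₀⌉₊, ?_⟩
  intro L hL
  have hL1 : (1 : ℝ) ≤ L := by exact_mod_cast hL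
  have hL0 : (0 : ℝ) < L := by linarith
  set ℓ : ℕ := Nat.log 2 L + 1 with hℓ
  have h1 : (2 : ℝ) ^ ℓ ≤ 2 * L := by
    have : 2 ^ Nat.log 2 L ≤ L := Nat.pow_log_le_self 2 (by omega)
    have h2 : (2 : ℝ) ^ Nat.log 2 L ≤ L := by exact_mod_cast this
    rw [hℓ, pow_succ]; linarith
  have hℓlog : (ℓ : ℝ) * Real.log 2 ≤ Real.log (2 * L) := by
    rw [← Real.log_pow]
    exact Real.log_le_log (by positivity) h1
  have e1 : ((L : ℝ) / (1 / 2 * (1 / (L : ℝ) ^ c))) ^ C₀ = 2 ^ C₀ * (L : ℝ) ^ ((c + 1) * C₀) := by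
    have : (L : ℝ) / (1 / 2 * (1 / (L : ℝ) ^ c)) = 2 * (L : ℝ) ^ ((c : ℝ) + 1) := by
      rw [Real.rpow_add hL0, Real.rpow_one, Real.rpow_natCast]
      have : (L : ℝ) ^ c ≠ 0 := (pow_pos hL0 _).ne'
      field_simp
    rw [this, Real.mul_rpow (by norm_num) (Real.rpow_nonneg hL0.le _), ← Real.rpow_mul hL0.le]
  have e2 : Real.exp (C₀ * ((((2 * c + 4) * ℓ + r : ℕ) : ℝ) * T / 2)) ≤
      Real.exp (C₀ * T * r / 2) * (2 ^ A * (L : ℝ) ^ A) := by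
    have h3 : C₀ * ((((2 * c + 4) * ℓ + r : ℕ) : ℝ) * T / 2) =
        C₀ * T * r / 2 + A * (ℓ * Real.log 2) := by
      rw [hA]; push_cast; field_simp; ring
    rw [h3, Real.exp_add]
    apply mul_le_mul_of_nonneg_left _ (Real.exp_pos _).le
    rw [← Real.mul_rpow (by norm_num) hL0.le, Real.rpow_def_of_pos (by positivity)]
    apply Real.exp_le_exp.2
    rw [mul_comm (Real.log (2 * L)) A]
    exact mul_le_mul_of_nonneg_left hℓlog hA0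
  calc C₀ * (L / (1 / 2 * (1 / (L : ℝ) ^ c))) ^ C₀ *
        Real.exp (C₀ * ((((2 * c + 4) * ℓ + r : ℕ) : ℝ) * T / 2))
      ≤ C₀ * (2 ^ C₀ * (L : ℝ) ^ ((c + 1) * C₀)) *
          (Real.exp (C₀ * T * r / 2) * (2 ^ A * (L : ℝ) ^ A)) := by
        rw [e1]
        apply mul_le_mul_of_nonneg_left e2
        have := Real.rpow_nonneg hL0.le ((c + 1) * C₀)
        positivity
    _ = B * (L : ℝ) ^ k₀ := by
        rw [hk₀, Real.rpow_add hL0, hB]; ring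
    _ ≤ (⌈B⌉₊ : ℝ) * (L : ℝ) ^ (⌈k₀⌉₊ : ℕ) := by
        apply mul_le_mul (Nat.le_ceil B) _ (Real.rpow_nonneg hL0.le _) (Nat.cast_nonneg _)
        rw [← Real.rpow_natCast]
        exact Real.rpow_le_rpow_of_exponent_le hL1 (Nat.le_ceil k₀)

end Pool.Agent.KTP
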