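import Mathlib
import Pool.Agent.Helper2.PB.Defs
import Pool.Agent.KTP.Df
import Pool.Agent.KTP.Ema

/-!
# Module Una: product unitaries
-/

set_option autoImplicit false

namespace Pool.Agent.KTP

open Matrix Pool.Agent.Helper2.PB

/-- `U ⊗ ⋯ ⊗ U`. -/
def pw {d : ℕ} (B : Type) [Fintype B] (U : Matrix (Fin d) (Fin d) ℂ) :
    Matrix (B → Fin d) (B → Fin d) ℂ := fun σ τ => ∏ q, U (σ q) (τ q)

theorem pw_mul {d : ℕ} {B : Type} [Fintype B] [DecidableEq B] (U U' : Matrix (Fin d) (Fin d) ℂ) :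
    pw B U * pw B U' = pw B (U * U') := by
  ext σ τ
  simp only [Matrix.mul_apply, pw]
  rw [Finset.prod_univ_sum, Fintype.piFinset_univ]
  exact Finset.sum_congr rfl fun ρ _ => Finset.prod_mul_distrib.symm

theorem pw_one {d : ℕ} {B : Type} [Fintype B] [DecidableEq B] :
    pw B (1 : Matrix (Fin d) (Fin d) ℂ) = 1 := by
  ext σ τ
  by_cases h : σ = τ
  · subst h
    simp [pw]
  · rw [Matrix.one_apply_ne h]
    obtain ⟨q, hq⟩ := Function.ne_iff.1 h
    exact Finset.prod_eq_zero (Finset.mem_univ q) (Matrix.one_apply_ne hq)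

theorem pw_conj_emb {d : ℕ} {V B : Type} [DecidableEq B] [Fintype B] [DecidableEq V] [Fintype V]
    (pos : B → V) (hp : Function.Injective pos) (U U' : Matrix (Fin d) (Fin d) ℂ) (h1 : U * U' = 1)
    (h2 : U' * U = 1) (M : Matrix (B → Fin d) (B → Fin d) ℂ) :
    pw V U * emb pos M * pw V U' = emb pos (pw B U * M * pw B U') := by
  classical
  have _ := h2
  let C : Type := ((Set.range pos)ᶜ : Set V)
  let _ : Fintype C := inferInstanceAs (Fintype ((Set.range pos)ᶜ : Set V))
  let _ : DecidableEq C := inferInstanceAs (DecidableEq ((Set.range pos)ᶜ : Set V))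
  let f : B ⊕ C ≃ V :=
    (Equiv.sumCongr (Equiv.ofInjective pos hp) (Equiv.refl _)).trans
      (Equiv.Set.sumCompl (Set.range pos))
  have f1 : ∀ b, f (Sum.inl b) = pos b := fun b => rfl
  have f2 : ∀ c : C, f (Sum.inr c) = c.1 := fun c => rfl
  let e : (V → Fin d) ≃ (B → Fin d) × (C → Fin d) :=
    (Equiv.arrowCongr f.symm (Equiv.refl _)).trans (Equiv.sumArrowEquivProdArrow B C (Fin d))
  have e1 : ∀ σ b, (e σ).1 b = σ (pos b) := fun σ b => rfl
  have e2 : ∀ (σ : V → Fin d) (c : C), (e σ).2 c = σ c.1 := fun σ c => rfl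
  have hemb : ∀ N : Matrix (B → Fin d) (B → Fin d) ℂ,
      emb pos N = (Matrix.kroneckerMap (fun a b => a * b) N
        (1 : Matrix (C → Fin d) (C → Fin d) ℂ)).submatrix e e := by
    intro N
    ext σ τ
    change _ = N (e σ).1 (e τ).1 * (1 : Matrix (C → Fin d) (C → Fin d) ℂ) (e σ).2 (e τ).2
    unfold emb
    by_cases h : ∀ u, (∀ p, pos p ≠ u) → σ u = τ u
    · have h3 : (e σ).2 = (e τ).2 := by
        funext c
        rw [e2, e2]
        exact h c.1 fun p hp' => c.2 ⟨p, hp'⟩
      rw [if_pos h, h3, Matrix.one_apply_eq, mul_one]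
      rfl
    · have h3 : (e σ).2 ≠ (e τ).2 := by
        intro hc
        apply h
        intro u hu
        have := congrFun hc ⟨u, fun ⟨p, hp'⟩ => hu p hp'⟩
        rw [e2, e2] at this
        exact this
      rw [if_neg h, Matrix.one_apply_ne h3, mul_zero]
  have hpw : ∀ T : Matrix (Fin d) (Fin d) ℂ,
      pw V T = (Matrix.kroneckerMap (fun a b => a * b) (pw B T) (pw C T)).submatrix e e := by
    intro T
    ext σ τ
    change _ = pw B T (e σ).1 (e τ).1 * pw C T (e σ).2 (e τ).2
    simp only [pw]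
    rw [← Equiv.prod_comp f, Fintype.prod_sum_type]
    rfl
  rw [hpw U, hpw U', hemb M, hemb, Matrix.submatrix_mul_equiv, Matrix.submatrix_mul_equiv]
  congr 1
  rw [← Matrix.mul_kronecker_mul, ← Matrix.mul_kronecker_mul, mul_one, pw_mul, h1, pw_one]

theorem pw_conj_onSite {d : ℕ} {V : Type} [DecidableEq V] [Fintype V]
    (v : V) (U U' k : Matrix (Fin d) (Fin d) ℂ) (h1 : U * U' = 1)
    (h2 : U' * U = 1) : pw V U * onSite v k * pw V U' = onSite v (U * k * U') := by
  classical
  let e : (Unit → Fin d) ≃ Fin d := Equiv.funUnique Unit (Fin d)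
  have hon : ∀ N : Matrix (Fin d) (Fin d) ℂ,
      onSite v N = emb (fun _ : Unit => v) (N.submatrix e e) := by
    intro N
    ext σ τ
    unfold onSite emb
    have hiff : (∀ q, q ≠ v → σ q = τ q) ↔ (∀ u, (∀ _p : Unit, v ≠ u) → σ u = τ u) := by
      constructor
      · intro h u hu
        exact h u (hu ()).symm
      · intro h q hq
        exact h q fun _ => hq.symm
    by_cases h : ∀ q, q ≠ v → σ q = τ q
    · rw [if_pos h, if_pos (hiff.1 h)]
      rfl
    · rw [if_neg h, if_neg fun h' => h (hiff.2 h')]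
  have hpw : ∀ T : Matrix (Fin d) (Fin d) ℂ, pw Unit T = T.submatrix e e := by
    intro T
    ext σ τ
    simp only [pw, Matrix.submatrix_apply]
    rw [Fintype.prod_unique]
    rfl
  rw [hon k, pw_conj_emb _ (fun a b _ => Subsingleton.elim a b) U U' h1 h2, hon, hpw, hpw,
    Matrix.submatrix_mul_equiv, Matrix.submatrix_mul_equiv]

end Pool.Agent.KTP
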