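import Mathlib
import Pool.Agent.Helper2.PB.Main
import Pool.Agent.KTP.Coa
import Pool.Agent.KTP.Ema
import Pool.Agent.KTP.Una
import Pool.Agent.KTP.Fnu

/-!
# Weak perturbations of product Hamiltonians: polynomial bond dimension
-/

set_option autoImplicit false

namespace Pool.Agent.KTP

open Matrix Pool.Agent.Helper2.PB

section spec

variable {ι : Type} [Fintype ι] [DecidableEq ι]

theorem gapped_of_eig {H : Matrix ι ι ℂ} (hH : H.IsHermitian) (i₀ : ι) (Δ : ℝ)
    (h : ∀ i, i ≠ i₀ → hH.eigenvalues i₀ + Δ ≤ hH.eigenvalues i) :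
    IsGappedGround H (hH.eigenvalues i₀) Δ (fun k => specU hH k i₀) := by
  refine ⟨?_, spec_mulVec hH i₀, ?_⟩
  · have h1 := nsq_eq (fun k => specU hH k i₀)
    have h2 := spec_orth hH i₀ i₀
    rw [if_pos rfl] at h2
    have h3 : ((nsq (fun k => specU hH k i₀) : ℝ) : ℂ) = 1 := by rw [← h1]; exact h2
    exact_mod_cast h3
  · intro φ hφ
    set c : ι → ℂ := (star (specU hH)).mulVec φ with hc
    have hφc : φ = (specU hH).mulVec c := by
      rw [hc, Matrix.mulVec_mulVec, specU_mul_star, Matrix.one_mulVec]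
    have hc0 : c i₀ = 0 := hφ
    have hUs : ∀ w : ι → ℂ, star φ ⬝ᵥ (specU hH).mulVec w = star c ⬝ᵥ w := by
      intro w
      rw [Matrix.dotProduct_mulVec]
      congr 1
      rw [hc, Matrix.star_mulVec]
      congr 1
      rw [star_eq_conjTranspose, Matrix.conjTranspose_conjTranspose]
    have hn : nsq φ = nsq c := by
      have h1 : star φ ⬝ᵥ φ = star c ⬝ᵥ c := by
        conv_lhs => rw [hφc]
        rw [← hφc]
        rw [← hUs c]
        rw [← hφc]
      rw [nsq_eq, nsq_eq] at h1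
      exact_mod_cast h1
    have hH2 : star φ ⬝ᵥ H.mulVec φ = ∑ i, ((hH.eigenvalues i * ‖c i‖ ^ 2 : ℝ) : ℂ) := by
      have h1 : H.mulVec φ =
          (specU hH).mulVec ((diagonal (fun i => (hH.eigenvalues i : ℂ))).mulVec c) := by
        conv_lhs => rw [specF_self hH]
        unfold specF
        rw [← Matrix.mulVec_mulVec, ← Matrix.mulVec_mulVec]
      rw [h1, hUs]
      unfold dotProduct
      refine Finset.sum_congr rfl fun i _ => ?_
      rw [Matrix.mulVec_diagonal, Pi.star_apply]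
      have h2 : star (c i) * c i = ((‖c i‖ ^ 2 : ℝ) : ℂ) := by
        rw [mul_comm, Complex.star_def, Complex.mul_conj, Complex.normSq_eq_norm_sq]
      rw [mul_left_comm, h2]
      push_cast
      ring
    rw [hn, hH2, ← Complex.ofReal_sum, Complex.ofReal_re]
    unfold nsq
    rw [Finset.mul_sum]
    apply Finset.sum_le_sum
    intro i _
    by_cases hi : i = i₀
    · rw [hi, hc0]; simp
    · exact mul_le_mul_of_nonneg_right (h i hi) (by positivity)

end spec

/-- The Hamiltonian in the form of `core`. -/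
theorem ham_form {d s : ℕ} (L : ℕ) [NeZero L] (hsL : s ≤ L) (kk : Matrix (Fin d) (Fin d) ℂ)
    (hk : kk.IsHermitian) (g : Fin d) (p : Box s) (V : Matrix (Box s → Fin d) (Box s → Fin d) ℂ) :
    ham L (onSite p kk + V) =
      pw (Torus L) (specU hk) *
        ((((Fintype.card (Torus L) : ℝ) * hk.eigenvalues g : ℝ) : ℂ) •
            (1 : Matrix (Torus L → Fin d) (Torus L → Fin d) ℂ) +
          nn (fun i => hk.eigenvalues i - hk.eigenvalues g) +
          ∑ v : Torus L, emb (site v)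
            (pw (Box s) (star (specU hk)) * V * pw (Box s) (specU hk))) *
        pw (Torus L) (star (specU hk)) := by
  have h1 : specU hk * star (specU hk) = 1 := specU_mul_star hk
  have h2 : star (specU hk) * specU hk = 1 := specU_star_mul hk
  have hV : ∀ v : Torus L, pw (Torus L) (specU hk) * emb (site v)
      (pw (Box s) (star (specU hk)) * V * pw (Box s) (specU hk)) *
        pw (Torus L) (star (specU hk)) = emb (site v) V := by
    intro v
    rw [pw_conj_emb (site v) (site_injective hsL v) _ _ h1 h2]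
    congr 1
    calc pw (Box s) (specU hk) * (pw (Box s) (star (specU hk)) * V * pw (Box s) (specU hk)) *
          pw (Box s) (star (specU hk))
        = (pw (Box s) (specU hk) * pw (Box s) (star (specU hk))) * V *
          (pw (Box s) (specU hk) * pw (Box s) (star (specU hk))) := by
          simp only [Matrix.mul_assoc]
      _ = V := by rw [pw_mul, h1, pw_one, Matrix.one_mul, Matrix.mul_one]
  have hkk : kk = specU hk * diagonal (fun i => (hk.eigenvalues i : ℂ)) * star (specU hk) :=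
    specF_self hk
  have hS : ∀ v : Torus L, pw (Torus L) (specU hk) *
      onSite (site v p) (diagonal (fun i => (hk.eigenvalues i : ℂ))) *
        pw (Torus L) (star (specU hk)) = emb (site v) (onSite p kk) := by
    intro v
    rw [pw_conj_onSite _ _ _ _ h1 h2, emb_onSite (site v) (site_injective hsL v), ← hkk]
  have hnn : (((Fintype.card (Torus L) : ℝ) * hk.eigenvalues g : ℝ) : ℂ) •
      (1 : Matrix (Torus L → Fin d) (Torus L → Fin d) ℂ) +
        nn (fun i => hk.eigenvalues i - hk.eigenvalues g) =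
      ∑ v : Torus L, onSite (site v p) (diagonal (fun i => (hk.eigenvalues i : ℂ))) := by
    rw [sum_onSite_diag p hk.eigenvalues]
    unfold nn
    rw [← Matrix.diagonal_one, ← Matrix.diagonal_smul, Matrix.diagonal_add]
    congr 1
    funext x
    unfold En
    rw [Finset.sum_sub_distrib, Finset.sum_const, Finset.card_univ, nsmul_eq_mul]
    simp
  rw [hnn]
  unfold ham
  rw [Matrix.mul_add, Matrix.add_mul, Matrix.mul_sum, Matrix.mul_sum, Matrix.sum_mul,
    Matrix.sum_mul, ← Finset.sum_add_distrib]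
  refine Finset.sum_congr rfl fun v _ => ?_
  rw [hS, emb_add, hV]

section hs

variable {ι : Type} [Fintype ι] [DecidableEq ι]

theorem sumsq_eq (M : Matrix ι ι ℂ) :
    ((∑ i, ∑ j, ‖M i j‖ ^ 2 : ℝ) : ℂ) = (M * Mᴴ).trace := by
  unfold Matrix.trace
  push_cast
  refine Finset.sum_congr rfl fun i _ => ?_
  rw [Matrix.diag_apply, Matrix.mul_apply]
  refine Finset.sum_congr rfl fun j _ => ?_
  rw [Matrix.conjTranspose_apply, Complex.star_def, Complex.mul_conj, Complex.normSq_eq_norm_sq]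
  push_cast; rfl

theorem sumsq_conj (P Q V : Matrix ι ι ℂ) (hPQ : Pᴴ = Q) (hQP : Qᴴ = P) (h : Q * P = 1) :
    ∑ i, ∑ j, ‖(P * V * Q) i j‖ ^ 2 = ∑ i, ∑ j, ‖V i j‖ ^ 2 := by
  have h1 : ((∑ i, ∑ j, ‖(P * V * Q) i j‖ ^ 2 : ℝ) : ℂ) = ((∑ i, ∑ j, ‖V i j‖ ^ 2 : ℝ) : ℂ) := by
    rw [sumsq_eq, sumsq_eq, Matrix.conjTranspose_mul, Matrix.conjTranspose_mul, hPQ, hQP]
    calc (P * V * Q * (P * (Vᴴ * Q))).trace = (P * (V * (Q * P) * Vᴴ) * Q).trace := by
          simp only [Matrix.mul_assoc]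
      _ = (V * Vᴴ).trace := by
          rw [h, Matrix.mul_one, Matrix.trace_mul_comm, ← Matrix.mul_assoc, h, Matrix.one_mul]
  exact_mod_cast h1

theorem col_le (M : Matrix ι ι ℂ) (x : ι) :
    ∑ z, ‖M z x‖ ≤ Real.sqrt (Fintype.card ι) * Real.sqrt (∑ i, ∑ j, ‖M i j‖ ^ 2) := by
  have h1 : (∑ z, ‖M z x‖) ^ 2 ≤ (Fintype.card ι : ℝ) * ∑ i, ∑ j, ‖M i j‖ ^ 2 := by
    have h2 := sq_sum_le_card_mul_sum_sq (s := (Finset.univ : Finset ι)) (f := fun z => ‖M z x‖)
    rw [Finset.card_univ] at h2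
    refine h2.trans ?_
    apply mul_le_mul_of_nonneg_left _ (Nat.cast_nonneg _)
    apply Finset.sum_le_sum
    intro i _
    exact Finset.single_le_sum (f := fun j => ‖M i j‖ ^ 2) (fun j _ => sq_nonneg _)
      (Finset.mem_univ x)
  rw [← Real.sqrt_mul (Nat.cast_nonneg _)]
  exact Real.le_sqrt_of_sq_le h1

end hs

theorem pw_conjTranspose {d : ℕ} {B : Type} [Fintype B] (U : Matrix (Fin d) (Fin d) ℂ) :
    (pw B U)ᴴ = pw B (star U) := by
  ext σ τ
  rw [Matrix.conjTranspose_apply]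
  unfold pw
  rw [star_prod]
  rfl

theorem onSite_isHermitian {d : ℕ} {B : Type} [DecidableEq B] [Fintype B] (p : B)
    (kk : Matrix (Fin d) (Fin d) ℂ) (hk : kk.IsHermitian) : (onSite p kk).IsHermitian := by
  ext σ τ
  rw [Matrix.conjTranspose_apply]
  unfold onSite
  by_cases hq : ∀ q, q ≠ p → σ q = τ q
  · rw [if_pos hq, if_pos (fun q hq' => (hq q hq').symm)]
    exact congrFun (congrFun hk (σ p)) (τ p)
  · rw [if_neg hq, if_neg (fun h' => hq fun q hq' => (h' q hq').symm)]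
    simp

theorem weak {d s : ℕ} (hs1 : 1 ≤ s) (kk : Matrix (Fin d) (Fin d) ℂ) (hk : kk.IsHermitian)
    (g : Fin d) (δ : ℝ) (hδ : 0 < δ)
    (hgap : ∀ i, i ≠ g → hk.eigenvalues g + δ ≤ hk.eigenvalues i) (p : Box s)
    (h : Matrix (Box s → Fin d) (Box s → Fin d) ℂ) (hherm : h.IsHermitian)
    (hKV : ∀ x, ∑ z, ‖(pw (Box s) (star (specU hk)) * (h - onSite p kk) *
      pw (Box s) (specU hk)) z x‖ ≤ δ / (64 * (((s * s : ℕ) : ℝ) + 1) * 2 ^ (s * s))) :
    (∀ (L : ℕ) [NeZero L], s ≤ L → ∃ (E₀ : ℝ) (ψ : (Torus L → Fin d) → ℂ),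
        IsGappedGround (ham L h) E₀ (δ / 2) ψ) ∧
      ∀ c : ℝ, 0 ≤ c → ∃ C m : ℕ, ∀ (L : ℕ) [NeZero L], s ≤ L →
        ∀ (E₀ : ℝ) (ψ : (Torus L → Fin d) → ℂ), IsGappedGround (ham L h) E₀ (δ / 2) ψ →
        ∃ D : ℕ, D ≤ C * L ^ m ∧
          ∃ A : Torus L → Fin d → Fin D → Fin D → Fin D → Fin D → ℂ,
            Real.sqrt (nsq (fun σ => pepsState A σ - ψ σ)) ≤ (L : ℝ) ^ (-c) := by
  classical
  set V' : Matrix (Box s → Fin d) (Box s → Fin d) ℂ :=
    pw (Box s) (star (specU hk)) * (h - onSite p kk) * pw (Box s) (specU hk) with hV'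
  set κ : ℝ := δ / (64 * (((s * s : ℕ) : ℝ) + 1) * 2 ^ (s * s)) with hκ
  have hκ0 : 0 < κ := by positivity
  have hcore : ∀ (L : ℕ) [NeZero L], s ≤ L →
      ∃ i0, (∀ i, i ≠ i0 → (ham_isHermitian L h hherm).eigenvalues i0 + δ / 2 ≤
          (ham_isHermitian L h hherm).eigenvalues i) ∧
        ∀ k : ℕ, 1 ≤ k → ∑ i ∈ Finset.univ.erase i0,
          Real.exp (-(k * (2 * Real.log 2 / δ) * ((ham_isHermitian L h hherm).eigenvalues i -
            (ham_isHermitian L h hherm).eigenvalues i0))) ≤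
            2 * k * ((1 + d * (1 / 2 : ℝ) ^ k) ^ (Fintype.card (Torus L)) - 1) := by
    intro L _ hsL
    have hloc := locFam_emb (L := L) g V' κ hKV
    refine core hloc hκ0.le (e := fun i => hk.eigenvalues i - hk.eigenvalues g) hδ
      (sub_self _) (fun i hi => by
        have := hgap i hi
        show δ ≤ hk.eigenvalues i - hk.eigenvalues g
        linarith) le_rfl
      (ham_isHermitian L h hherm) (Y := pw (Torus L) (specU hk))
      (Y' := pw (Torus L) (star (specU hk))) ?_ ?_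
      (((Fintype.card (Torus L) : ℝ) * hk.eigenvalues g : ℝ) : ℂ) ?_
    · rw [pw_mul, specU_mul_star, pw_one]
    · rw [pw_mul, specU_star_mul, pw_one]
    · have := ham_form L hsL kk hk g p (h - onSite p kk)
      rw [add_sub_cancel] at this
      exact this
  refine ⟨fun L _ hsL => ?_, ?_⟩
  · obtain ⟨i0, hi0, _⟩ := hcore L hsL
    exact ⟨_, _, gapped_of_eig (ham_isHermitian L h hherm) i0 (δ / 2) hi0⟩
  intro c hc
  obtain ⟨C₀, hC₀, hgen⟩ := general hs1 h hherm
  set c' : ℕ := ⌈c⌉₊ with hc'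
  obtain ⟨r, hr1, hr⟩ := tail_le c' d
  set T : ℝ := 2 * Real.log 2 / δ with hT
  have hT0 : 0 < T := by
    have := Real.log_pos (by norm_num : (1 : ℝ) < 2)
    positivity
  obtain ⟨B, k₁, hB⟩ := bond_le C₀ T hC₀ hT0 c' r
  refine ⟨B, k₁, ?_⟩
  intro L inst hsL E₀ ψ hgg
  have hLn : 1 ≤ L := Nat.pos_of_ne_zero (NeZero.ne L)
  have hL1 : (1 : ℝ) ≤ L := by exact_mod_cast hLn
  have hL0 : (0 : ℝ) < L := by linarith
  obtain ⟨i0, hga, hsum⟩ := hcore L hsL
  obtain ⟨i1, hi1, hga1⟩ := spec_gap (ham_isHermitian L h hherm) E₀ (δ / 2) (by positivity) ψ hgg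
  have hi01 : i1 = i0 := by
    by_contra hne
    have h1 := hga i1 hne
    have h2 := hga1 i0 (fun h' => hne h'.symm)
    rw [hi1] at h1
    linarith
  have hE : E₀ = (ham_isHermitian L h hherm).eigenvalues i0 := by rw [← hi1, hi01]
  obtain ⟨hψ1, hHψ, _⟩ := hgg
  set k : ℕ := (2 * c' + 4) * (Nat.log 2 L + 1) + r with hk'
  have hk1 : 1 ≤ k := by omega
  set β : ℝ := (k : ℝ) * T / 2 with hβ
  have hβ0 : 0 ≤ β := by positivity
  set ε' : ℝ := 1 / 2 * (1 / (L : ℝ) ^ c') with hε'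
  have hLc1 : 1 / (L : ℝ) ^ c' ≤ 1 := by
    rw [div_le_one (by positivity)]; exact one_le_pow₀ hL1
  have hε0 : 0 < ε' := by positivity
  have hε1 : ε' ≤ 1 := by linarith
  have h0 : ∀ i, E₀ ≤ (ham_isHermitian L h hherm).eigenvalues i := by
    intro i
    rw [hE]
    by_cases hi : i = i0
    · rw [hi]
    · linarith [hga i hi]
  obtain ⟨D, hD, A, hA⟩ := hgen L hsL E₀ ψ hψ1 hHψ h0 β ε' hβ0 hε0 hε1
  have hZ : partZ (ham_isHermitian L h hherm) E₀ β - 1 ≤ ε' ^ 2 := by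
    unfold partZ
    rw [← Finset.add_sum_erase _ _ (Finset.mem_univ i0), hE, sub_self, mul_zero, neg_zero,
      Real.exp_zero, add_sub_cancel_left]
    have h1 := hsum k hk1
    rw [card_torus] at h1
    refine le_trans (le_of_eq ?_) (h1.trans (hr L hLn))
    refine Finset.sum_congr rfl fun i _ => ?_
    congr 1
    rw [hβ]; ring
  refine ⟨D, ?_, A, ?_⟩
  · have h3 := hD.trans (hB L hLn)
    have h4 : (D : ℝ) ≤ ((B * L ^ k₁ : ℕ) : ℝ) := by push_cast; exact h3
    exact_mod_cast h4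
  · refine hA.trans ?_
    have h4 : Real.sqrt (partZ (ham_isHermitian L h hherm) E₀ β - 1) ≤ ε' :=
      Real.sqrt_le_iff.2 ⟨hε0.le, hZ⟩
    have h5 : 1 / (L : ℝ) ^ c' ≤ (L : ℝ) ^ (-c) := by
      rw [Real.rpow_neg hL0.le, ← one_div]
      apply one_div_le_one_div_of_le (Real.rpow_pos_of_pos hL0 _)
      rw [← Real.rpow_natCast]
      exact Real.rpow_le_rpow_of_exponent_le hL1 (Nat.le_ceil c)
    have h6 : ε' + ε' = 1 / (L : ℝ) ^ c' := by rw [hε']; ring
    linarith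

/-- Uniform smallness in the Hilbert-Schmidt norm. -/
theorem weak2 {d s : ℕ} (hs1 : 1 ≤ s) (δ : ℝ) (hδ : 0 < δ) :
    ∃ ε₀ : ℝ, 0 < ε₀ ∧ ∀ (k : Matrix (Fin d) (Fin d) ℂ) (hk : k.IsHermitian) (g : Fin d)
      (p : Box s) (h : Matrix (Box s → Fin d) (Box s → Fin d) ℂ),
      (∀ i, i ≠ g → hk.eigenvalues g + δ ≤ hk.eigenvalues i) → h.IsHermitian →
      Real.sqrt (∑ x, ∑ y, ‖(h - onSite p k) x y‖ ^ 2) ≤ ε₀ →
      (∀ (L : ℕ) [NeZero L], s ≤ L → ∃ (E₀ : ℝ) (ψ : (Torus L → Fin d) → ℂ),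
        IsGappedGround (ham L h) E₀ (δ / 2) ψ) ∧
      ∀ c : ℝ, 0 ≤ c → ∃ C m : ℕ, ∀ (L : ℕ) [NeZero L], s ≤ L →
        ∀ (E₀ : ℝ) (ψ : (Torus L → Fin d) → ℂ), IsGappedGround (ham L h) E₀ (δ / 2) ψ →
        ∃ D : ℕ, D ≤ C * L ^ m ∧
          ∃ A : Torus L → Fin d → Fin D → Fin D → Fin D → Fin D → ℂ,
            Real.sqrt (nsq (fun σ => pepsState A σ - ψ σ)) ≤ (L : ℝ) ^ (-c) := by
  set N : ℝ := Real.sqrt (Fintype.card (Box s → Fin d)) + 1 with hN
  have hN0 : 0 < N := by positivity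
  set κ : ℝ := δ / (64 * (((s * s : ℕ) : ℝ) + 1) * 2 ^ (s * s)) with hκ
  have hκ0 : 0 < κ := by positivity
  refine ⟨κ / N, by positivity, ?_⟩
  intro k hk g p h hgap hherm hsmall
  refine weak hs1 k hk g δ hδ hgap p h hherm ?_
  intro x
  refine (col_le _ x).trans ?_
  rw [sumsq_conj (pw (Box s) (star (specU hk))) (pw (Box s) (specU hk)) (h - onSite p k)
    (by rw [pw_conjTranspose, star_star]) (pw_conjTranspose _)
    (by rw [pw_mul, specU_mul_star, pw_one])]
  have h1 : Real.sqrt (Fintype.card (Box s → Fin d)) ≤ N := by rw [hN]; linarith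
  calc Real.sqrt (Fintype.card (Box s → Fin d)) *
        Real.sqrt (∑ i, ∑ j, ‖(h - onSite p k) i j‖ ^ 2) ≤ N * (κ / N) :=
        mul_le_mul h1 hsmall (Real.sqrt_nonneg _) hN0.le
    _ = κ := by field_simp

end Pool.Agent.KTP
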