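import Mathlib
import Pool.Agent.Helper2.PB.Main
import Pool.Agent.KTP.Cob
import Pool.Agent.KTP.Ema
import Pool.Agent.KTP.Emc
import Pool.Agent.KTP.Una
import Pool.Agent.KTP.Fnu
import Pool.Agent.KTP.Fia

/-!
# Weak perturbations of classical Hamiltonians: polynomial bond dimension
-/

set_option autoImplicit false

namespace Pool.Agent.KTP

open Matrix Pool.Agent.Helper2.PB

/-- The Hamiltonian in the form of `coreG`. -/
theorem ham_formG {d s : ℕ} (L : ℕ) [NeZero L] (hsL : s ≤ L) (U U' : Matrix (Fin d) (Fin d) ℂ)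
    (h1 : U * U' = 1) (h2 : U' * U = 1) (u : (Box s → Fin d) → ℝ) (m : ℝ)
    (V : Matrix (Box s → Fin d) (Box s → Fin d) ℂ) :
    ham L (pw (Box s) U * diagonal (fun x => ((u x : ℝ) : ℂ)) * pw (Box s) U' + V) =
      pw (Torus L) U *
        ((((Fintype.card (Torus L) : ℝ) * m : ℝ) : ℂ) •
            (1 : Matrix (Torus L → Fin d) (Torus L → Fin d) ℂ) +
          ∑ v : Torus L, (emb (site v) (diagonal (fun x => ((u x - m : ℝ) : ℂ))) +
            emb (site v) (pw (Box s) U' * V * pw (Box s) U))) * pw (Torus L) U' := by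
  have hV : ∀ v : Torus L, pw (Torus L) U * emb (site v)
      (pw (Box s) U' * V * pw (Box s) U) * pw (Torus L) U' = emb (site v) V := by
    intro v
    rw [pw_conj_emb (site v) (site_injective hsL v) _ _ h1 h2]
    congr 1
    calc pw (Box s) U * (pw (Box s) U' * V * pw (Box s) U) * pw (Box s) U'
        = (pw (Box s) U * pw (Box s) U') * V * (pw (Box s) U * pw (Box s) U') := by
          simp only [Matrix.mul_assoc]
      _ = V := by rw [pw_mul, h1, pw_one, Matrix.one_mul, Matrix.mul_one]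
  have hS : ∀ v : Torus L, pw (Torus L) U * emb (site v) (diagonal (fun x => ((u x : ℝ) : ℂ))) *
        pw (Torus L) U' =
      emb (site v) (pw (Box s) U * diagonal (fun x => ((u x : ℝ) : ℂ)) * pw (Box s) U') :=
    fun v => pw_conj_emb (site v) (site_injective hsL v) _ _ h1 h2 _
  have hsplit : ∀ v : Torus L, emb (site v) (diagonal (fun x => ((u x : ℝ) : ℂ))) =
      (m : ℂ) • (1 : Matrix (Torus L → Fin d) (Torus L → Fin d) ℂ) +
        emb (site v) (diagonal (fun x => ((u x - m : ℝ) : ℂ))) := by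
    intro v
    rw [← emb_one (site v) (site_injective hsL v), ← emb_smul, ← emb_add]
    congr 1
    rw [← Matrix.diagonal_one, ← Matrix.diagonal_smul, Matrix.diagonal_add]
    congr 1
    funext x
    simp
  have hsum : (((Fintype.card (Torus L) : ℝ) * m : ℝ) : ℂ) •
            (1 : Matrix (Torus L → Fin d) (Torus L → Fin d) ℂ) =
      ∑ _v : Torus L, (m : ℂ) • (1 : Matrix (Torus L → Fin d) (Torus L → Fin d) ℂ) := by
    rw [Finset.sum_const, Finset.card_univ, ← Nat.cast_smul_eq_nsmul ℂ, smul_smul]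
    congr 1
    push_cast
    ring
  rw [hsum, ← Finset.sum_add_distrib]
  unfold ham
  rw [Matrix.mul_sum, Matrix.sum_mul]
  refine Finset.sum_congr rfl fun v _ => ?_
  rw [emb_add, ← hS v, ← hV v, hsplit v]
  simp only [Matrix.mul_add, Matrix.add_mul, Matrix.mul_assoc]
  abel

theorem weakG {d s s' : ℕ} (hs1 : 1 ≤ s) (δ κ : ℝ) (hδ : 0 < δ) (hκ : 0 ≤ κ)
    (U U' : Matrix (Fin d) (Fin d) ℂ) (h1 : U * U' = 1) (h2 : U' * U = 1)
    (g : Fin d) (p : Box s') (u : (Box s' → Fin d) → ℝ)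
    (h' : Matrix (Box s' → Fin d) (Box s' → Fin d) ℂ)
    (h : Matrix (Box s → Fin d) (Box s → Fin d) ℂ)
    (hu0 : ∀ x, u (fun _ => g) ≤ u x) (huκ : ∀ x, u x ≤ u (fun _ => g) + κ)
    (hup : ∀ x, x p ≠ g → u (fun _ => g) + δ ≤ u x) (hherm : h.IsHermitian)
    (hKV : ∀ x, ∑ z, ‖(pw (Box s') U' * (h' - pw (Box s') U *
      diagonal (fun x => ((u x : ℝ) : ℂ)) * pw (Box s') U') * pw (Box s') U) z x‖ ≤
        δ * rad δ κ (s' * s') / 2)
    (heq : ∀ (L : ℕ) [NeZero L], s ≤ L → s' ≤ L →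
      ∃ Y Y' : Matrix (Torus L → Fin d) (Torus L → Fin d) ℂ, Y * Y' = 1 ∧ Y' * Y = 1 ∧
        ham L h = Y * ham L h' * Y') :
    (∀ (L : ℕ) [NeZero L], s ≤ L → s' ≤ L → ∃ (E₀ : ℝ) (ψ : (Torus L → Fin d) → ℂ),
        IsGappedGround (ham L h) E₀ (δ / 2) ψ) ∧
      ∀ c : ℝ, 0 ≤ c → ∃ C m : ℕ, ∀ (L : ℕ) [NeZero L], s ≤ L → s' ≤ L →
        ∀ (E₀ : ℝ) (ψ : (Torus L → Fin d) → ℂ), IsGappedGround (ham L h) E₀ (δ / 2) ψ →
        ∃ D : ℕ, D ≤ C * L ^ m ∧
          ∃ A : Torus L → Fin d → Fin D → Fin D → Fin D → Fin D → ℂ,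
            Real.sqrt (nsq (fun σ => pepsState A σ - ψ σ)) ≤ (L : ℝ) ^ (-c) := by
  classical
  set V : Matrix (Box s' → Fin d) (Box s' → Fin d) ℂ := h' - pw (Box s') U *
      diagonal (fun x => ((u x : ℝ) : ℂ)) * pw (Box s') U' with hV
  set κ' : ℝ := δ * rad δ κ (s' * s') / 2 with hκ'
  have hκ'0 : 0 ≤ κ' := by
    rw [hκ']; unfold rad; positivity
  have hcore : ∀ (L : ℕ) [NeZero L], s ≤ L → s' ≤ L →
      ∃ i0, (∀ i, i ≠ i0 → (ham_isHermitian L h hherm).eigenvalues i0 + δ / 2 ≤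
          (ham_isHermitian L h hherm).eigenvalues i) ∧
        ∀ k : ℕ, 1 ≤ k → ∑ i ∈ Finset.univ.erase i0,
          Real.exp (-(k * (2 * Real.log 2 / δ) * ((ham_isHermitian L h hherm).eigenvalues i -
            (ham_isHermitian L h hherm).eigenvalues i0))) ≤
            2 * k * ((1 + d * (1 / 2 : ℝ) ^ k) ^ (Fintype.card (Torus L)) - 1) := by
    intro L _ hsL hsL'
    obtain ⟨Y, Y', hY1, hY2, hYH⟩ := heq L hsL hsL'
    have hN := locFam_emb (L := L) g
      (diagonal (fun x => ((u x - u (fun _ => g) : ℝ) : ℂ)) :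
        Matrix (Box s' → Fin d) (Box s' → Fin d) ℂ) κ
      (diag_col (fun x => u x - u (fun _ => g)) κ (fun x => sub_nonneg.2 (hu0 x))
        (fun x => by have := huκ x; show u x - u (fun _ => g) ≤ κ; linarith))
    have hC := cls_emb (L := L) hsL' g p δ (fun x => u x - u (fun _ => g))
      (fun x => sub_nonneg.2 (hu0 x)) (sub_self _)
      (fun x hx => by have := hup x hx; show δ ≤ u x - u (fun _ => g); linarith)
    have hWl := locFam_emb (L := L) g (pw (Box s') U' * V * pw (Box s') U) κ' hKV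
    refine coreG hN hκ hC hδ hWl hκ'0 le_rfl
      (ham_isHermitian L h hherm) (Y := Y * pw (Torus L) U)
      (Y' := pw (Torus L) U' * Y') ?_ ?_
      (((Fintype.card (Torus L) : ℝ) * u (fun _ => g) : ℝ) : ℂ) ?_
    · calc Y * pw (Torus L) U * (pw (Torus L) U' * Y') =
            Y * (pw (Torus L) U * pw (Torus L) U') * Y' := by simp only [Matrix.mul_assoc]
        _ = 1 := by rw [pw_mul, h1, pw_one, Matrix.mul_one, hY1]
    · calc pw (Torus L) U' * Y' * (Y * pw (Torus L) U) =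
            pw (Torus L) U' * (Y' * Y) * pw (Torus L) U := by simp only [Matrix.mul_assoc]
        _ = 1 := by rw [hY2, Matrix.mul_one, pw_mul, h2, pw_one]
    · have h3 := ham_formG L hsL' U U' h1 h2 u (u (fun _ => g)) V
      have h4 : pw (Box s') U * diagonal (fun x => ((u x : ℝ) : ℂ)) * pw (Box s') U' + V = h' := by
        rw [hV]; abel
      rw [h4] at h3
      rw [hYH, h3]
      simp only [Matrix.mul_assoc]
  refine ⟨fun L _ hsL hsL' => ?_, ?_⟩
  · obtain ⟨i0, hi0, _⟩ := hcore L hsL hsL'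
    exact ⟨_, _, gapped_of_eig (ham_isHermitian L h hherm) i0 (δ / 2) hi0⟩
  intro c hc
  obtain ⟨C₀, hC₀, hgen⟩ := general hs1 h hherm
  set c' : ℕ := ⌈c⌉₊ with hc'
  obtain ⟨r, hr1, hr⟩ := tail_le c' d
  set T : ℝ := 2 * Real.log 2 / δ with hT
  have hT0 : 0 < T := by
    have := Real.log_pos (by norm_num : (1 : ℝ) < 2)
    positivity
  obtain ⟨B, k₁, hB⟩ := bond_le C₀ T hC₀ hT0 c' r
  refine ⟨B, k₁, ?_⟩
  intro L inst hsL hsL' E₀ ψ hgg
  have hLn : 1 ≤ L := Nat.pos_of_ne_zero (NeZero.ne L)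
  have hL1 : (1 : ℝ) ≤ L := by exact_mod_cast hLn
  have hL0 : (0 : ℝ) < L := by linarith
  obtain ⟨i0, hga, hsum⟩ := hcore L hsL hsL'
  obtain ⟨i1, hi1, hga1⟩ := spec_gap (ham_isHermitian L h hherm) E₀ (δ / 2) (by positivity) ψ hgg
  have hi01 : i1 = i0 := by
    by_contra hne
    have h1 := hga i1 hne
    have h2 := hga1 i0 (fun h' => hne h'.symm)
    rw [hi1] at h1
    linarith
  have hE : E₀ = (ham_isHermitian L h hherm).eigenvalues i0 := by rw [← hi1, hi01]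
  obtain ⟨hψ1, hHψ, _⟩ := hgg
  set k : ℕ := (2 * c' + 4) * (Nat.log 2 L + 1) + r with hk'
  have hk1 : 1 ≤ k := by omega
  set β : ℝ := (k : ℝ) * T / 2 with hβ
  have hβ0 : 0 ≤ β := by positivity
  set ε' : ℝ := 1 / 2 * (1 / (L : ℝ) ^ c') with hε'
  have hLc1 : 1 / (L : ℝ) ^ c' ≤ 1 := by
    rw [div_le_one (by positivity)]; exact one_le_pow₀ hL1
  have hε0 : 0 < ε' := by positivity
  have hε1 : ε' ≤ 1 := by linarith
  have h0 : ∀ i, E₀ ≤ (ham_isHermitian L h hherm).eigenvalues i := by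
    intro i
    rw [hE]
    by_cases hi : i = i0
    · rw [hi]
    · linarith [hga i hi]
  obtain ⟨D, hD, A, hA⟩ := hgen L hsL E₀ ψ hψ1 hHψ h0 β ε' hβ0 hε0 hε1
  have hZ : partZ (ham_isHermitian L h hherm) E₀ β - 1 ≤ ε' ^ 2 := by
    unfold partZ
    rw [← Finset.add_sum_erase _ _ (Finset.mem_univ i0), hE, sub_self, mul_zero, neg_zero,
      Real.exp_zero, add_sub_cancel_left]
    have h1 := hsum k hk1
    rw [card_torus] at h1
    refine le_trans (le_of_eq ?_) (h1.trans (hr L hLn))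
    refine Finset.sum_congr rfl fun i _ => ?_
    congr 1
    rw [hβ]; ring
  refine ⟨D, ?_, A, ?_⟩
  · have h3 := hD.trans (hB L hLn)
    have h4 : (D : ℝ) ≤ ((B * L ^ k₁ : ℕ) : ℝ) := by push_cast; exact h3
    exact_mod_cast h4
  · refine hA.trans ?_
    have h4 : Real.sqrt (partZ (ham_isHermitian L h hherm) E₀ β - 1) ≤ ε' :=
      Real.sqrt_le_iff.2 ⟨hε0.le, hZ⟩
    have h5 : 1 / (L : ℝ) ^ c' ≤ (L : ℝ) ^ (-c) := by
      rw [Real.rpow_neg hL0.le, ← one_div]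
      apply one_div_le_one_div_of_le (Real.rpow_pos_of_pos hL0 _)
      rw [← Real.rpow_natCast]
      exact Real.rpow_le_rpow_of_exponent_le hL1 (Nat.le_ceil c)
    have h6 : ε' + ε' = 1 / (L : ℝ) ^ c' := by rw [hε']; ring
    linarith

/-- Uniform smallness in the Hilbert-Schmidt norm. -/
theorem weakG2 {d s s' : ℕ} (hs1 : 1 ≤ s) (δ κ : ℝ) (hδ : 0 < δ) (hκ : 0 ≤ κ) :
    ∃ ε₀ : ℝ, 0 < ε₀ ∧ ∀ (U : Matrix (Fin d) (Fin d) ℂ) (g : Fin d) (p : Box s')
      (u : (Box s' → Fin d) → ℝ) (h' : Matrix (Box s' → Fin d) (Box s' → Fin d) ℂ)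
      (h : Matrix (Box s → Fin d) (Box s → Fin d) ℂ),
      U * star U = 1 → (∀ x, u (fun _ => g) ≤ u x ∧ u x ≤ u (fun _ => g) + κ) →
      (∀ x, x p ≠ g → u (fun _ => g) + δ ≤ u x) → h.IsHermitian →
      Real.sqrt (∑ x, ∑ y, ‖(h' - pw (Box s') U * diagonal (fun x => ((u x : ℝ) : ℂ)) *
        pw (Box s') (star U)) x y‖ ^ 2) ≤ ε₀ →
      (∀ (L : ℕ) [NeZero L], s ≤ L → s' ≤ L →
        ∃ Y : Matrix (Torus L → Fin d) (Torus L → Fin d) ℂ, Y * star Y = 1 ∧
          ham L h = Y * ham L h' * star Y) →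
      (∀ (L : ℕ) [NeZero L], s ≤ L → s' ≤ L → ∃ (E₀ : ℝ) (ψ : (Torus L → Fin d) → ℂ),
        IsGappedGround (ham L h) E₀ (δ / 2) ψ) ∧
      ∀ c : ℝ, 0 ≤ c → ∃ C m : ℕ, ∀ (L : ℕ) [NeZero L], s ≤ L → s' ≤ L →
        ∀ (E₀ : ℝ) (ψ : (Torus L → Fin d) → ℂ), IsGappedGround (ham L h) E₀ (δ / 2) ψ →
        ∃ D : ℕ, D ≤ C * L ^ m ∧
          ∃ A : Torus L → Fin d → Fin D → Fin D → Fin D → Fin D → ℂ,
            Real.sqrt (nsq (fun σ => pepsState A σ - ψ σ)) ≤ (L : ℝ) ^ (-c) := by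
  set N : ℝ := Real.sqrt (Fintype.card (Box s' → Fin d)) + 1 with hN
  have hN0 : 0 < N := by positivity
  set κ' : ℝ := δ * rad δ κ (s' * s') / 2 with hκ'
  have hκ'0 : 0 < κ' := by
    rw [hκ']; unfold rad; positivity
  refine ⟨κ' / N, by positivity, ?_⟩
  intro U g p u h' h hU hu hup hherm hsmall heq
  have hU2 : star U * U = 1 := mul_eq_one_comm.1 hU
  refine weakG hs1 δ κ hδ hκ U (star U) hU hU2 g p u h' h (fun x => (hu x).1) (fun x => (hu x).2)
    hup hherm ?_ ?_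
  · intro x
    refine (col_le _ x).trans ?_
    rw [sumsq_conj (pw (Box s') (star U)) (pw (Box s') U) _
      (by rw [pw_conjTranspose, star_star]) (pw_conjTranspose _)
      (by rw [pw_mul, hU, pw_one])]
    have h1 : Real.sqrt (Fintype.card (Box s' → Fin d)) ≤ N := by rw [hN]; linarith
    refine (mul_le_mul h1 hsmall (Real.sqrt_nonneg _) hN0.le).trans (le_of_eq ?_)
    exact mul_div_cancel₀ κ' hN0.ne'
  · intro L _ hsL hsL'
    obtain ⟨Y, hY, hYH⟩ := heq L hsL hsL'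
    exact ⟨Y, star Y, hY, mul_eq_one_comm.1 hY, hYH⟩

end Pool.Agent.KTP
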