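import Mathlib
import Pool.Agent.KTP.Fnu

/-!
# Numerics of the final step, polynomial in `L/ε`
-/

set_option autoImplicit false

namespace Pool.Agent.KTP

/-- The number of steps. -/
noncomputable def kk (r L : ℕ) (ε : ℝ) : ℕ := 5 * (Nat.log 2 ⌈(L : ℝ) / ε⌉₊ + 1) + r

theorem tail_X (d : ℕ) : ∃ r : ℕ, 1 ≤ r ∧ ∀ (L : ℕ) (ε : ℝ), 1 ≤ L → 0 < ε → ε ≤ 1 →
    2 * (kk r L ε : ℝ) * ((1 + d * (1 / 2 : ℝ) ^ (kk r L ε)) ^ (L ^ 2) - 1) ≤ (ε / 2) ^ 2 := by
  obtain ⟨r, hr1, hdr, hr⟩ := exists_r 5 d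
  refine ⟨r, hr1, ?_⟩
  intro L ε hL hε hε1
  set X : ℝ := (L : ℝ) / ε with hX
  have hL1 : (1 : ℝ) ≤ L := by exact_mod_cast hL
  have hLX : (L : ℝ) ≤ X := by
    rw [hX, le_div_iff₀ hε]; nlinarith
  have hX1 : 1 ≤ X := hL1.trans hLX
  have hX0 : 0 < X := by linarith
  set n : ℕ := ⌈X⌉₊ with hn
  have hn1 : 1 ≤ n := by
    rw [hn]; exact Nat.one_le_iff_ne_zero.2 (by
      intro h0; rw [Nat.ceil_eq_zero] at h0; linarith)
  have hXn : X ≤ n := Nat.le_ceil X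
  have hnX : (n : ℝ) ≤ 2 * X := by
    have := Nat.ceil_lt_add_one hX0.le
    have h2 : (n : ℝ) < X + 1 := this
    linarith
  set ℓ : ℕ := Nat.log 2 n + 1 with hℓ
  have h1 : n < 2 ^ ℓ := Nat.lt_pow_succ_log_self (by norm_num) n
  have h1' : X ≤ 2 ^ ℓ := hXn.trans (by exact_mod_cast h1.le)
  have hℓX : (ℓ : ℝ) ≤ 2 * X := by
    have h2 : Nat.log 2 n < n := Nat.log_lt_self 2 (by omega)
    have h3 : ℓ ≤ n := by omega
    have h4 : (ℓ : ℝ) ≤ n := by exact_mod_cast h3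
    linarith
  have hk : kk r L ε = 5 * ℓ + r := rfl
  rw [hk]
  set k : ℕ := 5 * ℓ + r with hk'
  have h3 : (1 / 2 : ℝ) ^ k ≤ 1 / X ^ 5 * (1 / 2 ^ r) := by
    rw [hk', pow_add, mul_comm 5 ℓ, pow_mul, one_div_pow, one_div_pow, one_div_pow]
    apply mul_le_mul_of_nonneg_right _ (by positivity)
    apply one_div_le_one_div_of_le (by positivity)
    exact pow_le_pow_left₀ hX0.le h1' _
  set x : ℝ := d * (1 / 2 : ℝ) ^ k with hx
  have hx0 : 0 ≤ x := by positivity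
  have hx1 : ((L ^ 2 : ℕ) : ℝ) * x ≤ (d / 2 ^ r) * (1 / X ^ 3) := by
    have h4 : ((L ^ 2 : ℕ) : ℝ) * x ≤ X ^ 2 * (d * (1 / X ^ 5 * (1 / 2 ^ r))) := by
      rw [hx]; push_cast
      apply mul_le_mul
      · exact pow_le_pow_left₀ (by linarith) hLX 2
      · exact mul_le_mul_of_nonneg_left h3 (by positivity)
      · positivity
      · positivity
    refine h4.trans (le_of_eq ?_)
    field_simp
  have hLp : 1 / X ^ 3 ≤ 1 := by
    rw [div_le_one (by positivity)]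
    exact one_le_pow₀ hX1
  have hd2 : (d : ℝ) / 2 ^ r ≤ 1 := by
    rw [div_le_one (by positivity)]
    exact_mod_cast hdr
  have hx2 : ((L ^ 2 : ℕ) : ℝ) * x ≤ 1 := by
    refine hx1.trans ?_
    have := mul_le_mul hd2 hLp (by positivity) zero_le_one
    linarith
  have h5 := pow_sub_one_le x hx0 (L ^ 2) hx2
  have hkr : ((k : ℕ) : ℝ) ≤ (5 * 2 + r) * X := by
    have : (k : ℝ) = 5 * ℓ + r := by rw [hk']; push_cast; ring
    rw [this]
    have h8 : (0 : ℝ) ≤ (r : ℝ) := Nat.cast_nonneg _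
    nlinarith [mul_le_mul_of_nonneg_left hX1 h8]
  have hεX : 1 / X ≤ ε := by
    rw [hX, one_div_div, div_le_iff₀ (by linarith)]
    nlinarith
  calc 2 * ((k : ℕ) : ℝ) * ((1 + x) ^ (L ^ 2) - 1) ≤ 2 * (k : ℝ) * (2 * (((L ^ 2 : ℕ) : ℝ) * x)) :=
        mul_le_mul_of_nonneg_left h5 (by positivity)
    _ ≤ 2 * ((5 * 2 + r) * X) * (2 * ((d / 2 ^ r) * (1 / X ^ 3))) := by
        apply mul_le_mul
        · linarith
        · linarith
        · positivity
        · positivity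
    _ = (4 * (5 * 2 + r) * d / 2 ^ r) * (1 / X) ^ 2 := by
        field_simp
        ring
    _ ≤ (1 / 4) * ε ^ 2 := by
        apply mul_le_mul _ _ (by positivity) (by norm_num)
        · rw [div_le_iff₀ (by positivity)]
          push_cast at hr
          linarith
        · exact pow_le_pow_left₀ (by positivity) hεX 2
    _ = (ε / 2) ^ 2 := by ring

/-- The bond dimension. -/
theorem bond_X (C₀ T : ℝ) (hC : 0 < C₀) (hT : 0 < T) (r : ℕ) : ∃ C : ℝ, 0 < C ∧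
    ∀ (L : ℕ) (ε : ℝ), 1 ≤ L → 0 < ε → ε ≤ 1 →
    C₀ * (L / (ε / 2)) ^ C₀ * Real.exp (C₀ * ((kk r L ε : ℝ) * T / 2)) ≤ C * (L / ε) ^ C := by
  set A : ℝ := C₀ * T * 5 / 2 / Real.log 2 with hA
  have hl2 : 0 < Real.log 2 := Real.log_pos (by norm_num)
  have hA0 : 0 ≤ A := by positivity
  set B : ℝ := C₀ * 2 ^ C₀ * Real.exp (C₀ * T * r / 2) * 4 ^ A with hB
  have hB0 : 0 < B := by positivity
  refine ⟨B + (C₀ + A), by positivity, ?_⟩
  intro L ε hL hε hε1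
  set X : ℝ := (L : ℝ) / ε with hX
  have hL1 : (1 : ℝ) ≤ L := by exact_mod_cast hL
  have hLX : (L : ℝ) ≤ X := by
    rw [hX, le_div_iff₀ hε]; nlinarith
  have hX1 : 1 ≤ X := hL1.trans hLX
  have hX0 : 0 < X := by linarith
  set n : ℕ := ⌈X⌉₊ with hn
  have hn1 : 1 ≤ n := by
    rw [hn]; exact Nat.one_le_iff_ne_zero.2 (by
      intro h0; rw [Nat.ceil_eq_zero] at h0; linarith)
  have hnX : (n : ℝ) ≤ 2 * X := by
    have := Nat.ceil_lt_add_one hX0.le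
    have h2 : (n : ℝ) < X + 1 := this
    linarith
  set ℓ : ℕ := Nat.log 2 n + 1 with hℓ
  have h1 : (2 : ℝ) ^ ℓ ≤ 4 * X := by
    have : 2 ^ Nat.log 2 n ≤ n := Nat.pow_log_le_self 2 (by omega)
    have h2 : (2 : ℝ) ^ Nat.log 2 n ≤ n := by exact_mod_cast this
    rw [hℓ, pow_succ]; linarith
  have hℓlog : (ℓ : ℝ) * Real.log 2 ≤ Real.log (4 * X) := by
    rw [← Real.log_pow]
    exact Real.log_le_log (by positivity) h1
  have hk : kk r L ε = 5 * ℓ + r := rfl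
  rw [hk]
  have e1 : ((L : ℝ) / (ε / 2)) ^ C₀ = 2 ^ C₀ * X ^ C₀ := by
    have : (L : ℝ) / (ε / 2) = 2 * X := by rw [hX]; field_simp
    rw [this, Real.mul_rpow (by norm_num) hX0.le]
  have e2 : Real.exp (C₀ * (((5 * ℓ + r : ℕ) : ℝ) * T / 2)) ≤
      Real.exp (C₀ * T * r / 2) * (4 ^ A * X ^ A) := by
    have h3 : C₀ * (((5 * ℓ + r : ℕ) : ℝ) * T / 2) =
        C₀ * T * r / 2 + A * (ℓ * Real.log 2) := by
      rw [hA]; push_cast; field_simp; ring
    rw [h3, Real.exp_add]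
    apply mul_le_mul_of_nonneg_left _ (Real.exp_pos _).le
    rw [← Real.mul_rpow (by norm_num) hX0.le, Real.rpow_def_of_pos (by positivity)]
    apply Real.exp_le_exp.2
    rw [mul_comm (Real.log (4 * X)) A]
    exact mul_le_mul_of_nonneg_left hℓlog hA0
  calc C₀ * (L / (ε / 2)) ^ C₀ * Real.exp (C₀ * (((5 * ℓ + r : ℕ) : ℝ) * T / 2))
      ≤ C₀ * (2 ^ C₀ * X ^ C₀) * (Real.exp (C₀ * T * r / 2) * (4 ^ A * X ^ A)) := by
        rw [e1]
        apply mul_le_mul_of_nonneg_left e2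
        positivity
    _ = B * X ^ (C₀ + A) := by
        rw [Real.rpow_add hX0, hB]; ring
    _ ≤ (B + (C₀ + A)) * X ^ (B + (C₀ + A)) := by
        apply mul_le_mul
        · linarith
        · exact Real.rpow_le_rpow_of_exponent_le hX1 (by linarith)
        · positivity
        · positivity

end Pool.Agent.KTP
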