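import Mathlib
import Pool.Agent.Helper2.PB.Main
import Pool.Agent.KTP.Cob
import Pool.Agent.KTP.Ema
import Pool.Agent.KTP.Emc
import Pool.Agent.KTP.Una
import Pool.Agent.KTP.Fnv
import Pool.Agent.KTP.Fia
import Pool.Agent.KTP.Fib

/-!
# Weak perturbations of classical Hamiltonians: bond dimension polynomial in `L/ε`
-/

set_option autoImplicit false

namespace Pool.Agent.KTP

open Matrix Pool.Agent.Helper2.PB

/-- The Hilbert-Schmidt norm. -/
noncomputable def hsn {ι : Type} [Fintype ι] (M : Matrix ι ι ℂ) : ℝ :=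
  Real.sqrt (∑ x, ∑ y, ‖M x y‖ ^ 2)

/-- The operator on the box with eigenvalues `u` in the product basis given by the one-site unitary
`U`. -/
noncomputable def clas {d s : ℕ} (U : Matrix (Fin d) (Fin d) ℂ) (u : (Box s → Fin d) → ℝ) :
    Matrix (Box s → Fin d) (Box s → Fin d) ℂ :=
  pw (Box s) U * diagonal (fun x => ((u x : ℝ) : ℂ)) * pw (Box s) (star U)

/-- For all `L ≥ N` the Hamiltonians of `h` and `h'` on the `L × L` torus are unitarily equivalent. -/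
def UnitEquiv {d s s' : ℕ} (N : ℕ) (h : Matrix (Box s → Fin d) (Box s → Fin d) ℂ)
    (h' : Matrix (Box s' → Fin d) (Box s' → Fin d) ℂ) : Prop :=
  ∀ (L : ℕ) [NeZero L], N ≤ L → ∃ Y : Matrix (Torus L → Fin d) (Torus L → Fin d) ℂ,
    Y * star Y = 1 ∧ ham L h = Y * ham L h' * star Y

/-- For all `L ≥ N` the Hamiltonian of `h` on the `L × L` torus has a unique ground state, with gap at
least `Δ`. -/
def AllGapped {d s : ℕ} (N : ℕ) (h : Matrix (Box s → Fin d) (Box s → Fin d) ℂ) (Δ : ℝ) : Prop :=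
  ∀ (L : ℕ) [NeZero L], N ≤ L → ∃ (E₀ : ℝ) (ψ : (Torus L → Fin d) → ℂ),
    IsGappedGround (ham L h) E₀ Δ ψ

/-- There is `C` such that for all `L ≥ N` and `0 < ε ≤ 1` the ground state on the `L × L` torus is within
`ε` of a PEPS of bond dimension at most `C (L/ε)^C`. -/
def PolyPEPS {d s : ℕ} (N : ℕ) (h : Matrix (Box s → Fin d) (Box s → Fin d) ℂ) (Δ : ℝ) : Prop :=
  ∃ C : ℝ, 0 < C ∧ ∀ (L : ℕ) [NeZero L], N ≤ L →
    ∀ (E₀ : ℝ) (ψ : (Torus L → Fin d) → ℂ), IsGappedGround (ham L h) E₀ Δ ψ →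
    ∀ ε : ℝ, 0 < ε → ε ≤ 1 → ∃ D : ℕ, (D : ℝ) ≤ C * ((L : ℝ) / ε) ^ C ∧
      ∃ A : Torus L → Fin d → Fin D → Fin D → Fin D → Fin D → ℂ,
        Real.sqrt (nsq (fun σ => pepsState A σ - ψ σ)) ≤ ε

theorem weakX {d s s' : ℕ} (hs1 : 1 ≤ s) (δ κ : ℝ) (hδ : 0 < δ) (hκ : 0 ≤ κ)
    (U U' : Matrix (Fin d) (Fin d) ℂ) (h1 : U * U' = 1) (h2 : U' * U = 1)
    (g : Fin d) (p : Box s') (u : (Box s' → Fin d) → ℝ)
    (h' : Matrix (Box s' → Fin d) (Box s' → Fin d) ℂ)
    (h : Matrix (Box s → Fin d) (Box s → Fin d) ℂ)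
    (hu0 : ∀ x, u (fun _ => g) ≤ u x) (huκ : ∀ x, u x ≤ u (fun _ => g) + κ)
    (hup : ∀ x, x p ≠ g → u (fun _ => g) + δ ≤ u x) (hherm : h.IsHermitian)
    (hKV : ∀ x, ∑ z, ‖(pw (Box s') U' * (h' - pw (Box s') U *
      diagonal (fun x => ((u x : ℝ) : ℂ)) * pw (Box s') U') * pw (Box s') U) z x‖ ≤
        δ * rad δ κ (s' * s') / 2)
    (heq : ∀ (L : ℕ) [NeZero L], max s s' ≤ L →
      ∃ Y Y' : Matrix (Torus L → Fin d) (Torus L → Fin d) ℂ, Y * Y' = 1 ∧ Y' * Y = 1 ∧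
        ham L h = Y * ham L h' * Y') :
    AllGapped (max s s') h (δ / 2) ∧ PolyPEPS (max s s') h (δ / 2) := by
  classical
  set V : Matrix (Box s' → Fin d) (Box s' → Fin d) ℂ := h' - pw (Box s') U *
      diagonal (fun x => ((u x : ℝ) : ℂ)) * pw (Box s') U' with hV
  set κ' : ℝ := δ * rad δ κ (s' * s') / 2 with hκ'
  have hκ'0 : 0 ≤ κ' := by
    rw [hκ']; unfold rad; positivity
  have hcore : ∀ (L : ℕ) [NeZero L], max s s' ≤ L →
      ∃ i0, (∀ i, i ≠ i0 → (ham_isHermitian L h hherm).eigenvalues i0 + δ / 2 ≤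
          (ham_isHermitian L h hherm).eigenvalues i) ∧
        ∀ k : ℕ, 1 ≤ k → ∑ i ∈ Finset.univ.erase i0,
          Real.exp (-(k * (2 * Real.log 2 / δ) * ((ham_isHermitian L h hherm).eigenvalues i -
            (ham_isHermitian L h hherm).eigenvalues i0))) ≤
            2 * k * ((1 + d * (1 / 2 : ℝ) ^ k) ^ (Fintype.card (Torus L)) - 1) := by
    intro L _ hmL
    have hsL : s ≤ L := (le_max_left _ _).trans hmL
    have hsL' : s' ≤ L := (le_max_right _ _).trans hmL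
    obtain ⟨Y, Y', hY1, hY2, hYH⟩ := heq L hmL
    have hN := locFam_emb (L := L) g
      (diagonal (fun x => ((u x - u (fun _ => g) : ℝ) : ℂ)) :
        Matrix (Box s' → Fin d) (Box s' → Fin d) ℂ) κ
      (diag_col (fun x => u x - u (fun _ => g)) κ (fun x => sub_nonneg.2 (hu0 x))
        (fun x => by have := huκ x; show u x - u (fun _ => g) ≤ κ; linarith))
    have hC := cls_emb (L := L) hsL' g p δ (fun x => u x - u (fun _ => g))
      (fun x => sub_nonneg.2 (hu0 x)) (sub_self _)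
      (fun x hx => by have := hup x hx; show δ ≤ u x - u (fun _ => g); linarith)
    have hWl := locFam_emb (L := L) g (pw (Box s') U' * V * pw (Box s') U) κ' hKV
    refine coreG hN hκ hC hδ hWl hκ'0 le_rfl
      (ham_isHermitian L h hherm) (Y := Y * pw (Torus L) U)
      (Y' := pw (Torus L) U' * Y') ?_ ?_
      (((Fintype.card (Torus L) : ℝ) * u (fun _ => g) : ℝ) : ℂ) ?_
    · calc Y * pw (Torus L) U * (pw (Torus L) U' * Y') =
            Y * (pw (Torus L) U * pw (Torus L) U') * Y' := by simp only [Matrix.mul_assoc]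
        _ = 1 := by rw [pw_mul, h1, pw_one, Matrix.mul_one, hY1]
    · calc pw (Torus L) U' * Y' * (Y * pw (Torus L) U) =
            pw (Torus L) U' * (Y' * Y) * pw (Torus L) U := by simp only [Matrix.mul_assoc]
        _ = 1 := by rw [hY2, Matrix.mul_one, pw_mul, h2, pw_one]
    · have h3 := ham_formG L hsL' U U' h1 h2 u (u (fun _ => g)) V
      have h4 : pw (Box s') U * diagonal (fun x => ((u x : ℝ) : ℂ)) * pw (Box s') U' + V = h' := by
        rw [hV]; abel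
      rw [h4] at h3
      rw [hYH, h3]
      simp only [Matrix.mul_assoc]
  refine ⟨fun L _ hmL => ?_, ?_⟩
  · obtain ⟨i0, hi0, _⟩ := hcore L hmL
    exact ⟨_, _, gapped_of_eig (ham_isHermitian L h hherm) i0 (δ / 2) hi0⟩
  obtain ⟨C₀, hC₀, hgen⟩ := general hs1 h hherm
  obtain ⟨r, hr1, hr⟩ := tail_X d
  set T : ℝ := 2 * Real.log 2 / δ with hT
  have hT0 : 0 < T := by
    have := Real.log_pos (by norm_num : (1 : ℝ) < 2)
    positivity
  obtain ⟨B, hB0, hB⟩ := bond_X C₀ T hC₀ hT0 r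
  refine ⟨B, hB0, ?_⟩
  intro L inst hmL E₀ ψ hgg ε hε hε1
  have hsL : s ≤ L := (le_max_left _ _).trans hmL
  have hLn : 1 ≤ L := Nat.pos_of_ne_zero (NeZero.ne L)
  obtain ⟨i0, hga, hsum⟩ := hcore L hmL
  obtain ⟨i1, hi1, hga1⟩ := spec_gap (ham_isHermitian L h hherm) E₀ (δ / 2) (by positivity) ψ hgg
  have hi01 : i1 = i0 := by
    by_contra hne
    have h1 := hga i1 hne
    have h2 := hga1 i0 (fun h' => hne h'.symm)
    rw [hi1] at h1
    linarith
  have hE : E₀ = (ham_isHermitian L h hherm).eigenvalues i0 := by rw [← hi1, hi01]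
  obtain ⟨hψ1, hHψ, _⟩ := hgg
  set k : ℕ := kk r L ε with hk'
  have hk1 : 1 ≤ k := by rw [hk']; unfold kk; omega
  set β : ℝ := (k : ℝ) * T / 2 with hβ
  have hβ0 : 0 ≤ β := by positivity
  have h0 : ∀ i, E₀ ≤ (ham_isHermitian L h hherm).eigenvalues i := by
    intro i
    rw [hE]
    by_cases hi : i = i0
    · rw [hi]
    · linarith [hga i hi]
  obtain ⟨D, hD, A, hA⟩ := hgen L hsL E₀ ψ hψ1 hHψ h0 β (ε / 2) hβ0 (by linarith) (by linarith)
  have hZ : partZ (ham_isHermitian L h hherm) E₀ β - 1 ≤ (ε / 2) ^ 2 := by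
    unfold partZ
    rw [← Finset.add_sum_erase _ _ (Finset.mem_univ i0), hE, sub_self, mul_zero, neg_zero,
      Real.exp_zero, add_sub_cancel_left]
    have h1 := hsum k hk1
    rw [card_torus] at h1
    refine le_trans (le_of_eq ?_) (h1.trans (hr L ε hLn hε hε1))
    refine Finset.sum_congr rfl fun i _ => ?_
    congr 1
    rw [hβ]; ring
  refine ⟨D, hD.trans (hB L ε hLn hε hε1), A, ?_⟩
  refine hA.trans ?_
  have h4 : Real.sqrt (partZ (ham_isHermitian L h hherm) E₀ β - 1) ≤ ε / 2 :=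
    Real.sqrt_le_iff.2 ⟨by positivity, hZ⟩
  linarith

/-- Uniform smallness in the Hilbert-Schmidt norm. -/
theorem weakX2 {d s s' : ℕ} (hs1 : 1 ≤ s) (δ κ : ℝ) (hδ : 0 < δ) (hκ : 0 ≤ κ) :
    ∃ ε₀ : ℝ, 0 < ε₀ ∧ ∀ (U : Matrix (Fin d) (Fin d) ℂ) (g : Fin d) (p : Box s')
      (u : (Box s' → Fin d) → ℝ) (h' : Matrix (Box s' → Fin d) (Box s' → Fin d) ℂ)
      (h : Matrix (Box s → Fin d) (Box s → Fin d) ℂ),
      U * star U = 1 → (∀ x, u (fun _ => g) ≤ u x ∧ u x ≤ u (fun _ => g) + κ) →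
      (∀ x, x p ≠ g → u (fun _ => g) + δ ≤ u x) → hsn (h' - clas U u) ≤ ε₀ →
      h.IsHermitian → UnitEquiv (max s s') h h' →
      AllGapped (max s s') h (δ / 2) ∧ PolyPEPS (max s s') h (δ / 2) := by
  set N : ℝ := Real.sqrt (Fintype.card (Box s' → Fin d)) + 1 with hN
  have hN0 : 0 < N := by positivity
  set κ' : ℝ := δ * rad δ κ (s' * s') / 2 with hκ'
  have hκ'0 : 0 < κ' := by
    rw [hκ']; unfold rad; positivity
  refine ⟨κ' / N, by positivity, ?_⟩
  intro U g p u h' h hU hu hup hsmall hherm heq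
  have hU2 : star U * U = 1 := mul_eq_one_comm.1 hU
  unfold hsn clas at hsmall
  refine weakX hs1 δ κ hδ hκ U (star U) hU hU2 g p u h' h (fun x => (hu x).1) (fun x => (hu x).2)
    hup hherm ?_ ?_
  · intro x
    refine (col_le _ x).trans ?_
    rw [sumsq_conj (pw (Box s') (star U)) (pw (Box s') U) _
      (by rw [pw_conjTranspose, star_star]) (pw_conjTranspose _)
      (by rw [pw_mul, hU, pw_one])]
    have h1 : Real.sqrt (Fintype.card (Box s' → Fin d)) ≤ N := by rw [hN]; linarith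
    refine (mul_le_mul h1 hsmall (Real.sqrt_nonneg _) hN0.le).trans (le_of_eq ?_)
    exact mul_div_cancel₀ κ' hN0.ne'
  · intro L _ hmL
    obtain ⟨Y, hY, hYH⟩ := heq L hmL
    exact ⟨Y, star Y, hY, mul_eq_one_comm.1 hY, hYH⟩

end Pool.Agent.KTP
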